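import Pool.Agent.Helper64.FS.Defs

set_option autoImplicit false

namespace Pool.Agent.Helper64.FS

universe u v

variable {F : Type u} [Group F] [TopologicalSpace F] [IsTopologicalGroup F] [CompactSpace F]
  [T2Space F] [TotallyDisconnectedSpace F]

/-- Mathlib: `ProfiniteGrp.exist_openNormalSubgroup_sub_open_nhds_of_one`. -/
theorem exists_ON_sub {U : Set F} (hU : IsOpen U) (h1 : (1 : F) ∈ U) :
    ∃ N : Subgroup F, ON N ∧ (N : Set F) ⊆ U := by
  obtain ⟨N, hN⟩ := ProfiniteGrp.exist_openNormalSubgroup_sub_open_nhds_of_one hU h1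
  exact ⟨N.toSubgroup, ⟨N.isNormal', N.isOpen'⟩, hN⟩

theorem exists_ON_le {D : Subgroup F} (hD : IsOpen (D : Set F)) :
    ∃ N : Subgroup F, ON N ∧ N ≤ D := by
  obtain ⟨N, hN, h⟩ := exists_ON_sub hD D.one_mem
  exact ⟨N, hN, h⟩

/-- The complement of `C` is an open neighbourhood of `g`, so it contains `g N` for some `N`. -/
theorem exists_ON_not_mem {C : Subgroup F} (hC : IsClosed (C : Set F)) {g : F} (hg : g ∉ C) :
    ∃ N : Subgroup F, ON N ∧ g ∉ C ⊔ N := by
  have hU : IsOpen ((fun x : F => g * x) ⁻¹' (C : Set F)ᶜ) :=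
    hC.isOpen_compl.preimage (continuous_const_mul g)
  obtain ⟨N, hN, h⟩ := exists_ON_sub hU (by
    change g * 1 ∉ (C : Set F)
    rw [mul_one]
    exact hg)
  refine ⟨N, hN, fun hmem => ?_⟩
  have := hN.1
  have h2 : g ∈ ((C ⊔ N : Subgroup F) : Set F) := hmem
  rw [Subgroup.mul_normal] at h2
  obtain ⟨c, hc, n, hn, hcn⟩ := Set.mem_mul.1 h2
  have h3 : n⁻¹ ∈ (fun x : F => g * x) ⁻¹' (C : Set F)ᶜ := h (N.inv_mem hn)
  apply h3
  change g * n⁻¹ ∈ (C : Set F)
  rw [← hcn, mul_inv_cancel_right]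
  exact hc

theorem ON.sup {B N : Subgroup F} (hB : B.Normal) (hN : ON N) : ON (B ⊔ N) := by
  have := hN.1
  exact ⟨inferInstance, Subgroup.isOpen_mono le_sup_right hN.2⟩

/-- A subgroup which contains an open subgroup is closed (and open). -/
theorem isClosed_of_ON_le {N S : Subgroup F} (hN : ON N) (h : N ≤ S) : IsClosed (S : Set F) :=
  Subgroup.isClosed_of_isOpen S (Subgroup.isOpen_mono h hN.2)

/-- Compactness: the intersection of the closed sets `B ∩ (C ⊔ N) ∩ Dᶜ` (directed in `N`) is empty: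
by `exists_ON_not_mem` the intersection of all `C ⊔ N` is `C`. -/
theorem exists_ON_inf_le {B C D : Subgroup F} (hB : IsClosed (B : Set F))
    (hC : IsClosed (C : Set F)) (hD : IsOpen (D : Set F)) (h : B ⊓ C ≤ D) :
    ∃ N : Subgroup F, ON N ∧ B ⊓ (C ⊔ N) ≤ D := by
  by_contra hcon
  push Not at hcon
  let I := {N : Subgroup F // ON N}
  let t : I → Set F := fun N => ((B : Set F) ∩ ((C ⊔ N.1 : Subgroup F) : Set F)) ∩ (D : Set F)ᶜ
  have hne : Nonempty I := ⟨⟨⊤, ON_top⟩⟩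
  have hcl : ∀ i, IsClosed (t i) := fun i =>
    (hB.inter (isClosed_of_ON_le i.2 le_sup_right)).inter hD.isClosed_compl
  have hn : (⋂ i, t i).Nonempty := by
    apply IsCompact.nonempty_iInter_of_directed_nonempty_isCompact_isClosed t
    · intro N M
      refine ⟨⟨N.1 ⊓ M.1, N.2.inf M.2⟩, ?_, ?_⟩
      · exact Set.inter_subset_inter_left _ (Set.inter_subset_inter_right _
          (sup_le_sup_left inf_le_left C))
      · exact Set.inter_subset_inter_left _ (Set.inter_subset_inter_right _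
          (sup_le_sup_left inf_le_right C))
    · intro N
      have h1 := hcon N.1 N.2
      obtain ⟨x, hx, hxD⟩ := SetLike.not_le_iff_exists.1 h1
      exact ⟨x, ⟨hx.1, hx.2⟩, hxD⟩
    · intro i
      exact (hcl i).isCompact
    · exact hcl
  obtain ⟨x, hx⟩ := hn
  rw [Set.mem_iInter] at hx
  have hxB : x ∈ B := (hx ⟨⊤, ON_top⟩).1.1
  have hxD : x ∉ D := (hx ⟨⊤, ON_top⟩).2
  have hxC : x ∈ C := by
    by_contra hxC
    obtain ⟨N, hN, hxN⟩ := exists_ON_not_mem hC hxC
    exact hxN (hx ⟨N, hN⟩).1.2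
  exact hxD (h ⟨hxB, hxC⟩)

/-- Compactness for a chain of closed subgroups. -/
theorem exists_le_of_chain {c : Set (Subgroup F)} (hne : c.Nonempty) (hc : IsChain (· ≤ ·) c)
    (hcl : ∀ B ∈ c, IsClosed (B : Set F)) {D : Subgroup F} (hD : IsOpen (D : Set F))
    (h : sInf c ≤ D) : ∃ B ∈ c, B ≤ D := by
  by_contra hcon
  push Not at hcon
  let t : c → Set F := fun B => (B.1 : Set F) ∩ (D : Set F)ᶜ
  have hne' : Nonempty c := hne.to_subtype
  have hcl' : ∀ i, IsClosed (t i) := fun i => (hcl i.1 i.2).inter hD.isClosed_compl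
  have hn : (⋂ i, t i).Nonempty := by
    apply IsCompact.nonempty_iInter_of_directed_nonempty_isCompact_isClosed t
    · intro A B
      rcases hc.total A.2 B.2 with hAB | hAB
      · exact ⟨A, subset_rfl, Set.inter_subset_inter_left _ hAB⟩
      · exact ⟨B, Set.inter_subset_inter_left _ hAB, subset_rfl⟩
    · intro B
      obtain ⟨x, hx, hxD⟩ := SetLike.not_le_iff_exists.1 (hcon B.1 B.2)
      exact ⟨x, hx, hxD⟩
    · intro i
      exact (hcl' i).isCompact
    · exact hcl'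
  obtain ⟨x, hx⟩ := hn
  rw [Set.mem_iInter] at hx
  obtain ⟨B₀⟩ := hne'
  have hxD : x ∉ D := (hx B₀).2
  apply hxD
  apply h
  rw [Subgroup.mem_sInf]
  intro B hB
  exact (hx ⟨B, hB⟩).1

theorem exists_ON_of_finite {I : Type*} {s : Set I} (hs : s.Finite) (N : I → Subgroup F)
    (h : ∀ i ∈ s, ON (N i)) : ∃ M : Subgroup F, ON M ∧ ∀ i ∈ s, M ≤ N i := by
  induction s, hs using Set.Finite.induction_on with
  | empty => exact ⟨⊤, ON_top, fun i hi => absurd hi (Set.notMem_empty i)⟩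
  | insert _ _ ih =>
    obtain ⟨M, hM, hMi⟩ := ih fun i hi => h i (Set.mem_insert_of_mem _ hi)
    refine ⟨M ⊓ N _, hM.inf (h _ (Set.mem_insert _ _)), fun i hi => ?_⟩
    rcases Set.mem_insert_iff.1 hi with rfl | hi
    · exact inf_le_right
    · exact inf_le_left.trans (hMi i hi)

theorem ON.finite {N : Subgroup F} (hN : ON N) : Finite (F ⧸ N) :=
  Subgroup.quotient_finite_of_isOpen N hN.2

theorem ON.isPGroup {p : ℕ} [Fact p.Prime] (hp : PIndex p F) {N : Subgroup F} [N.Normal]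
    (hN : ON N) : IsPGroup p (F ⧸ N) := by
  obtain ⟨n, hn⟩ := hp N hN
  exact IsPGroup.of_card (n := n) (by rw [← hn]; rfl)

theorem ON.pow_mem {p : ℕ} [Fact p.Prime] (hp : PIndex p F) {N : Subgroup F} (hN : ON N) :
    ∃ k : ℕ, ∀ g : F, g ^ p ^ k ∈ N := by
  obtain ⟨n, hn⟩ := hp N hN
  have := hN.1
  refine ⟨n, fun g => ?_⟩
  rw [← hn]
  exact Subgroup.pow_index_mem N g

end Pool.Agent.Helper64.FS
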