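import Pool.Agent.Helper64.FS.Defs

set_option autoImplicit false

namespace Pool.Agent.Helper64.FS

universe u v

variable {F : Type u} [Group F] [TopologicalSpace F] [IsTopologicalGroup F]

omit [TopologicalSpace F] [IsTopologicalGroup F] in
private theorem closure_normal {s : Set F} (h : ∀ c ∈ s, ∀ g : F, g * c * g⁻¹ ∈ s) :
    (Subgroup.closure s).Normal := by
  refine ⟨fun n hn g => ?_⟩
  induction hn using Subgroup.closure_induction with
  | mem x hx => exact Subgroup.subset_closure (h x hx g)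
  | one => rw [mul_one, mul_inv_cancel]; exact Subgroup.one_mem _
  | mul x y _ _ hx hy =>
    have e : g * (x * y) * g⁻¹ = g * x * g⁻¹ * (g * y * g⁻¹) := by group
    rw [e]
    exact Subgroup.mul_mem _ hx hy
  | inv x _ hx =>
    have e : g * x⁻¹ * g⁻¹ = (g * x * g⁻¹)⁻¹ := by group
    rw [e]
    exact Subgroup.inv_mem _ hx

theorem ncl_normal (r : F) : (ncl r).Normal := by
  unfold ncl
  exact Subgroup.is_normal_topologicalClosure _

theorem ncl_closed (r : F) : IsClosed (ncl r : Set F) := by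
  exact Subgroup.isClosed_topologicalClosure _

theorem mem_ncl (r : F) : r ∈ ncl r := by
  exact Subgroup.le_topologicalClosure _ (Subgroup.subset_normalClosure (Set.mem_singleton r))

theorem ncl_le {r : F} {S : Subgroup F} (hn : S.Normal) (hc : IsClosed (S : Set F)) (hr : r ∈ S) :
    ncl r ≤ S := by
  refine Subgroup.topologicalClosure_minimal _ ?_ hc
  exact Subgroup.normalClosure_le_normal (Set.singleton_subset_iff.2 hr)

/-- It is enough that `S` is a closed subgroup which contains all conjugates. -/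
theorem ncl_le_of_conj {r : F} {S : Subgroup F} (hc : IsClosed (S : Set F))
    (hr : ∀ a : F, a⁻¹ * r * a ∈ S) : ncl r ≤ S := by
  refine Subgroup.topologicalClosure_minimal _ ?_ hc
  unfold Subgroup.normalClosure
  rw [Subgroup.closure_le]
  intro c hc'
  rw [Group.mem_conjugatesOfSet_iff] at hc'
  obtain ⟨a, ha, hac⟩ := hc'
  rw [Set.mem_singleton_iff] at ha
  subst ha
  rw [isConj_iff] at hac
  obtain ⟨g, hg⟩ := hac
  have h1 := hr g⁻¹
  rw [inv_inv, hg] at h1
  exact h1

theorem clS_closed {X : Type v} (ι : X → F) (Y : Set X) : IsClosed (clS ι Y : Set F) := by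
  exact Subgroup.isClosed_topologicalClosure _

theorem mem_clS {X : Type v} (ι : X → F) {Y : Set X} {y : X} (hy : y ∈ Y) : ι y ∈ clS ι Y := by
  exact Subgroup.le_topologicalClosure _ (Subgroup.subset_closure ⟨y, hy, rfl⟩)

theorem clS_le {X : Type v} {ι : X → F} {Y : Set X} {S : Subgroup F} (hc : IsClosed (S : Set F))
    (h : ∀ y ∈ Y, ι y ∈ S) : clS ι Y ≤ S := by
  refine Subgroup.topologicalClosure_minimal _ ?_ hc
  rw [Subgroup.closure_le]
  rintro _ ⟨y, hy, rfl⟩
  exact h y hy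

theorem cder_normal (T : Subgroup F) [T.Normal] : (cder T).Normal := by
  unfold cder
  exact Subgroup.is_normal_topologicalClosure _

theorem cder_closed (T : Subgroup F) : IsClosed (cder T : Set F) := by
  exact Subgroup.isClosed_topologicalClosure _

theorem comm_mem_cder {T : Subgroup F} {a b : F} (ha : a ∈ T) (hb : b ∈ T) :
    a * b * a⁻¹ * b⁻¹ ∈ cder T := by
  exact Subgroup.le_topologicalClosure _ (Subgroup.commutator_mem_commutator ha hb)

theorem cder_le {T S : Subgroup F} (hc : IsClosed (S : Set F))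
    (h : ∀ a ∈ T, ∀ b ∈ T, a * b * a⁻¹ * b⁻¹ ∈ S) : cder T ≤ S := by
  refine Subgroup.topologicalClosure_minimal _ ?_ hc
  rw [Subgroup.commutator_le]
  exact h

theorem cder_le_self {T : Subgroup F} (hc : IsClosed (T : Set F)) : cder T ≤ T := by
  exact cder_le hc fun a ha b hb =>
    T.mul_mem (T.mul_mem (T.mul_mem ha hb) (T.inv_mem ha)) (T.inv_mem hb)

theorem frat_normal (p : ℕ) (T : Subgroup F) [T.Normal] : (frat p T).Normal := by
  have hT : T.Normal := inferInstance
  have h : (Subgroup.closure ({c | ∃ b ∈ T, c = b ^ p} ∪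
      {c | ∃ b ∈ T, ∃ b' ∈ T, c = b * b' * b⁻¹ * b'⁻¹})).Normal := by
    refine closure_normal ?_
    rintro c (⟨b, hb, rfl⟩ | ⟨b, hb, b', hb', rfl⟩) g
    · left
      exact ⟨g * b * g⁻¹, hT.conj_mem b hb g, conj_pow.symm⟩
    · right
      refine ⟨g * b * g⁻¹, hT.conj_mem b hb g, g * b' * g⁻¹, hT.conj_mem b' hb' g, ?_⟩
      group
  unfold frat
  exact Subgroup.is_normal_topologicalClosure _

theorem frat_closed (p : ℕ) (T : Subgroup F) : IsClosed (frat p T : Set F) := by
  exact Subgroup.isClosed_topologicalClosure _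

theorem pow_mem_frat (p : ℕ) {T : Subgroup F} {a : F} (ha : a ∈ T) : a ^ p ∈ frat p T := by
  exact Subgroup.le_topologicalClosure _ (Subgroup.subset_closure (Or.inl ⟨a, ha, rfl⟩))

theorem comm_mem_frat (p : ℕ) {T : Subgroup F} {a b : F} (ha : a ∈ T) (hb : b ∈ T) :
    a * b * a⁻¹ * b⁻¹ ∈ frat p T := by
  exact Subgroup.le_topologicalClosure _ (Subgroup.subset_closure (Or.inr ⟨a, ha, b, hb, rfl⟩))

theorem cder_le_frat (p : ℕ) (T : Subgroup F) : cder T ≤ frat p T := by
  exact cder_le (Subgroup.isClosed_topologicalClosure _) fun a ha b hb => Subgroup.le_topologicalClosure _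
    (Subgroup.subset_closure (Or.inr ⟨a, ha, b, hb, rfl⟩))

theorem frat_le {p : ℕ} {T S : Subgroup F} (hc : IsClosed (S : Set F))
    (h : ∀ a ∈ T, ∀ b ∈ T, a * b * a⁻¹ * b⁻¹ ∈ S) (h' : ∀ a ∈ T, a ^ p ∈ S) : frat p T ≤ S := by
  refine Subgroup.topologicalClosure_minimal _ ?_ hc
  rw [Subgroup.closure_le]
  rintro c (⟨b, hb, rfl⟩ | ⟨b, hb, b', hb', rfl⟩)
  · exact h' b hb
  · exact h b hb b' hb'

theorem frat_le_self {p : ℕ} {T : Subgroup F} (hc : IsClosed (T : Set F)) : frat p T ≤ T := by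
  exact frat_le hc (fun a ha b hb =>
    T.mul_mem (T.mul_mem (T.mul_mem ha hb) (T.inv_mem ha)) (T.inv_mem hb))
    fun a ha => T.pow_mem ha p

theorem fratF_normal (p : ℕ) (T : Subgroup F) [T.Normal] : (fratF p T).Normal := by
  have hT : T.Normal := inferInstance
  have h : (Subgroup.closure ({c | ∃ b ∈ T, c = b ^ p} ∪
      {c | ∃ b ∈ T, ∃ g : F, c = b * g * b⁻¹ * g⁻¹})).Normal := by
    refine closure_normal ?_
    rintro c (⟨b, hb, rfl⟩ | ⟨b, hb, b', rfl⟩) g
    · left
      exact ⟨g * b * g⁻¹, hT.conj_mem b hb g, conj_pow.symm⟩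
    · right
      refine ⟨g * b * g⁻¹, hT.conj_mem b hb g, g * b' * g⁻¹, ?_⟩
      group
  unfold fratF
  exact Subgroup.is_normal_topologicalClosure _

theorem fratF_closed (p : ℕ) (T : Subgroup F) : IsClosed (fratF p T : Set F) := by
  exact Subgroup.isClosed_topologicalClosure _

theorem pow_mem_fratF (p : ℕ) {T : Subgroup F} {a : F} (ha : a ∈ T) : a ^ p ∈ fratF p T := by
  exact Subgroup.le_topologicalClosure _ (Subgroup.subset_closure (Or.inl ⟨a, ha, rfl⟩))

theorem comm_mem_fratF (p : ℕ) {T : Subgroup F} {a : F} (ha : a ∈ T) (g : F) :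
    a * g * a⁻¹ * g⁻¹ ∈ fratF p T := by
  exact Subgroup.le_topologicalClosure _ (Subgroup.subset_closure (Or.inr ⟨a, ha, g, rfl⟩))

theorem fratF_le {p : ℕ} {T S : Subgroup F} (hc : IsClosed (S : Set F))
    (h : ∀ a ∈ T, ∀ g : F, a * g * a⁻¹ * g⁻¹ ∈ S) (h' : ∀ a ∈ T, a ^ p ∈ S) : fratF p T ≤ S := by
  refine Subgroup.topologicalClosure_minimal _ ?_ hc
  rw [Subgroup.closure_le]
  rintro c (⟨b, hb, rfl⟩ | ⟨b, hb, b', rfl⟩)
  · exact h' b hb
  · exact h b hb b'

theorem fratF_le_self {p : ℕ} {T : Subgroup F} (hn : T.Normal) (hc : IsClosed (T : Set F)) :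
    fratF p T ≤ T := by
  refine fratF_le hc (fun a ha g => ?_) fun a ha => T.pow_mem ha p
  have e : a * g * a⁻¹ * g⁻¹ = a * (g * a⁻¹ * g⁻¹) := by group
  rw [e]
  exact T.mul_mem ha (hn.conj_mem _ (T.inv_mem ha) g)

end Pool.Agent.Helper64.FS
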