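import Pool.Agent.Helper64.FS.Defs
import Pool.Agent.Helper64.FS.A1

set_option autoImplicit false

namespace Pool.Agent.Helper64.FS

universe u v

variable {F : Type u} [Group F] [TopologicalSpace F] [IsTopologicalGroup F] [CompactSpace F]
  [T2Space F] [TotallyDisconnectedSpace F]

/-- Choose representatives of the double cosets `B \ F / K`; `κ (b * rep * k) = α b`, well defined by `h`;
then divide on the right by `κ 1`. -/
theorem exists_kappa (B : Subgroup F) [B.Normal] {P : Type} [Group P] (α : F → P)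
    (hα : ∀ b ∈ B, ∀ b' ∈ B, α (b * b') = α b * α b') (K : Subgroup F)
    (h : ∀ g, ∀ k ∈ K, g * k * g⁻¹ ∈ B → α (g * k * g⁻¹) = 1) :
    ∃ κ : F → P, κ 1 = 1 ∧ ∀ b ∈ B, ∀ g, ∀ k ∈ K, κ (b * g * k) = α b * κ g := by
  classical
  let s : Setoid F :=
    { r := fun g g' => ∃ b ∈ B, ∃ k ∈ K, g' = b * g * k
      iseqv := ⟨fun g => ⟨1, B.one_mem, 1, K.one_mem, by group⟩,
        by
          rintro g g' ⟨b, hb, k, hk, rfl⟩
          exact ⟨b⁻¹, B.inv_mem hb, k⁻¹, K.inv_mem hk, by group⟩,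
        by
          rintro g g' g'' ⟨b, hb, k, hk, rfl⟩ ⟨b', hb', k', hk', rfl⟩
          exact ⟨b' * b, B.mul_mem hb' hb, k * k', K.mul_mem hk hk', by group⟩⟩ }
  let rep : F → F := fun g => (Quotient.mk s g).out
  have hrep : ∀ g, ∃ b ∈ B, ∃ k ∈ K, g = b * rep g * k := fun g => Quotient.mk_out (s := s) g
  choose β hβ κk hκk hg using hrep
  have hinv : ∀ b ∈ B, ∀ g, ∀ k ∈ K, rep (b * g * k) = rep g := by
    intro b hb g k hk
    have : Quotient.mk s (b * g * k) = Quotient.mk s g :=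
      Quotient.sound (s := s) (Setoid.symm' s ⟨b, hb, k, hk, rfl⟩)
    show (Quotient.mk s (b * g * k)).out = (Quotient.mk s g).out
    rw [this]
  have key : ∀ b ∈ B, ∀ g, ∀ k ∈ K, α (β (b * g * k)) = α b * α (β g) := by
    intro b hb g k hk
    have h1 := hg (b * g * k)
    rw [hinv b hb g k hk] at h1
    have h2 := hg g
    have h3 : (β (b * g * k))⁻¹ * (b * β g)
        = rep g * (κk (b * g * k) * k⁻¹ * (κk g)⁻¹) * (rep g)⁻¹ := by
      have h4 : b * (β g * rep g * κk g) * k = β (b * g * k) * rep g * κk (b * g * k) := by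
        rw [← h2]
        exact h1
      have h5 : b * β g = β (b * g * k) * rep g * κk (b * g * k) * k⁻¹ * (κk g)⁻¹ * (rep g)⁻¹ := by
        rw [← h4]
        group
      rw [h5]
      group
    have h6 : (β (b * g * k))⁻¹ * (b * β g) ∈ B :=
      B.mul_mem (B.inv_mem (hβ _)) (B.mul_mem hb (hβ g))
    have h7 : α ((β (b * g * k))⁻¹ * (b * β g)) = 1 := by
      rw [h3] at h6 ⊢
      exact h _ _ (K.mul_mem (K.mul_mem (hκk _) (K.inv_mem hk)) (K.inv_mem (hκk g))) h6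
    have h8 := hα _ (hβ (b * g * k)) _ h6
    rw [h7, mul_one, mul_inv_cancel_left] at h8
    rw [← h8, hα b hb _ (hβ g)]
  refine ⟨fun g => α (β g) * (α (β 1))⁻¹, mul_inv_cancel _, fun b hb g k hk => ?_⟩
  show α (β (b * g * k)) * (α (β 1))⁻¹ = α b * (α (β g) * (α (β 1))⁻¹)
  rw [key b hb g k hk, mul_assoc]

/-- `G g a = (κ a⁻¹)⁻¹ * κ (a⁻¹ * g)` with `κ` of `exists_kappa`; for the continuity take an open normal
subgroup `N ≤ K` (`exists_ON_le`); `κ` is right `N`-invariant, hence left `N`-invariant up to `N` normal. -/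
theorem shapiro (B : Subgroup F) [B.Normal] {P : Type} [Group P] (α : F → P)
    (hα : ∀ b ∈ B, ∀ b' ∈ B, α (b * b') = α b * α b') (K : Subgroup F)
    (hK : IsOpen (K : Set F)) (h : ∀ g, ∀ k ∈ K, g * k * g⁻¹ ∈ B → α (g * k * g⁻¹) = 1) :
    ∃ G : F → F → P, IsX B G ∧ (∀ b ∈ B, G b 1 = α b) ∧ ∀ k ∈ K, ∀ a, G k a = 1 := by
  obtain ⟨κ, h1, hκ⟩ := exists_kappa B α hα K h
  have hα1 : α 1 = 1 := by
    have := hα 1 B.one_mem 1 B.one_mem
    rw [mul_one] at this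
    exact left_eq_mul.1 this
  have hr : ∀ g, ∀ k ∈ K, κ (g * k) = κ g := by
    intro g k hk
    have := hκ 1 B.one_mem g k hk
    rwa [one_mul, hα1, one_mul] at this
  have hl : ∀ b ∈ B, ∀ g, κ (b * g) = α b * κ g := by
    intro b hb g
    have := hκ b hb g 1 K.one_mem
    rwa [mul_one] at this
  obtain ⟨N, hN, hNK⟩ := exists_ON_le hK
  have hNl : ∀ g, ∀ n ∈ N, κ (n * g) = κ g := by
    intro g n hn
    have h2 : g⁻¹ * n * g ∈ N := by
      have := hN.1.conj_mem n hn g⁻¹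
      rwa [inv_inv] at this
    have h3 : n * g = g * (g⁻¹ * n * g) := by group
    rw [h3, hr g _ (hNK h2)]
  refine ⟨fun g a => (κ a⁻¹)⁻¹ * κ (a⁻¹ * g), ⟨?_, ?_, N, hN, ?_, ?_⟩, ?_, ?_⟩
  · intro g g' a
    show (κ a⁻¹)⁻¹ * κ (a⁻¹ * (g * g'))
      = (κ a⁻¹)⁻¹ * κ (a⁻¹ * g) * ((κ (g⁻¹ * a)⁻¹)⁻¹ * κ ((g⁻¹ * a)⁻¹ * g'))
    rw [mul_inv_rev, inv_inv, ← mul_assoc a⁻¹ g g']
    group
  · intro g a b hb
    show (κ (a * b)⁻¹)⁻¹ * κ ((a * b)⁻¹ * g) = (κ a⁻¹)⁻¹ * κ (a⁻¹ * g)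
    rw [mul_inv_rev, mul_assoc b⁻¹ a⁻¹ g, hl _ (B.inv_mem hb), hl _ (B.inv_mem hb)]
    group
  · intro g a n hn
    show (κ (a * n)⁻¹)⁻¹ * κ ((a * n)⁻¹ * g) = (κ a⁻¹)⁻¹ * κ (a⁻¹ * g)
    rw [mul_inv_rev, mul_assoc n⁻¹ a⁻¹ g, hNl _ _ (N.inv_mem hn), hNl _ _ (N.inv_mem hn)]
  · intro n hn a
    show (κ a⁻¹)⁻¹ * κ (a⁻¹ * n) = 1
    rw [hr _ _ (hNK hn), inv_mul_cancel]
  · intro b hb
    show (κ 1⁻¹)⁻¹ * κ (1⁻¹ * b) = α b
    rw [inv_one, h1, one_mul, inv_one, one_mul]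
    have := hl b hb 1
    rwa [mul_one, h1, mul_one] at this
  · intro k hk a
    show (κ a⁻¹)⁻¹ * κ (a⁻¹ * k) = 1
    rw [hr _ _ hk, inv_mul_cancel]

/-- The homomorphism `x` on `B` extends to a locally constant function `θ` on `F` which is quasi additive:
`θ u = - κ u⁻¹` with `κ` of `exists_kappa` for `P = Multiplicative A`, `K = N` open normal with `x = 0` on
`B ∩ N`. -/
theorem exists_theta (B C : Subgroup F) [B.Normal] {A : Type} [AddCommGroup A] (x : F → A)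
    (hx : IsH B C x) : ∃ θ : F → A, (∀ u, ∀ b ∈ B, θ (u * b) = θ u + x b) ∧
      ∃ N : Subgroup F, ON N ∧ ∀ u, ∀ n ∈ N, θ (u * n) = θ u := by
  obtain ⟨hadd, -, N, hN, h0⟩ := hx
  have hx1 : x 1 = 0 := h0 1 B.one_mem N.one_mem
  obtain ⟨κ, h1, hκ⟩ := exists_kappa (P := Multiplicative A) B
    (fun u => Multiplicative.ofAdd (x u)) (fun b hb b' hb' => by
      show Multiplicative.ofAdd (x (b * b')) = _
      rw [hadd b hb b' hb', ofAdd_add]) N (fun g k hk hB => by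
      show Multiplicative.ofAdd (x (g * k * g⁻¹)) = 1
      rw [h0 _ hB (hN.1.conj_mem k hk g), ofAdd_zero])
  have hl : ∀ b ∈ B, ∀ g, Multiplicative.toAdd (κ (b * g)) = x b + Multiplicative.toAdd (κ g) := by
    intro b hb g
    have := hκ b hb g 1 N.one_mem
    rw [mul_one] at this
    rw [this, toAdd_mul, toAdd_ofAdd]
  have hr : ∀ g, ∀ n ∈ N, κ (g * n) = κ g := by
    intro g n hn
    have := hκ 1 B.one_mem g n hn
    rwa [one_mul, hx1, ofAdd_zero, one_mul] at this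
  refine ⟨fun u => - Multiplicative.toAdd (κ u⁻¹), fun u b hb => ?_, N, hN, fun u n hn => ?_⟩
  · show - Multiplicative.toAdd (κ (u * b)⁻¹) = - Multiplicative.toAdd (κ u⁻¹) + x b
    have h2 : x b⁻¹ = - x b := by
      have h3 := hadd b hb b⁻¹ (B.inv_mem hb)
      rw [mul_inv_cancel, hx1] at h3
      exact (neg_eq_of_add_eq_zero_right h3.symm).symm
    rw [mul_inv_rev, hl _ (B.inv_mem hb), h2]
    abel
  · show - Multiplicative.toAdd (κ (u * n)⁻¹) = - Multiplicative.toAdd (κ u⁻¹)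
    have h2 : (u * n)⁻¹ = u⁻¹ * (u * n⁻¹ * u⁻¹) := by group
    rw [h2, hr _ _ (hN.1.conj_mem _ (N.inv_mem hn) u)]

end Pool.Agent.Helper64.FS
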