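import Pool.Agent.Helper64.FS.Defs
import Pool.Agent.Helper64.FS.A1

set_option autoImplicit false

namespace Pool.Agent.Helper64.FS

universe u v

variable {F : Type u} [Group F] [TopologicalSpace F] [IsTopologicalGroup F] [CompactSpace F]
  [T2Space F] [TotallyDisconnectedSpace F]

/-- Functionals on a vector space separate points. -/
private theorem exists_char0 {Q : Type u} [AddCommGroup Q] {p : ℕ} [Fact p.Prime]
    [Module (ZMod p) Q] {v : Q} (hv : v ≠ 0) : ∃ f : Q →+ ZMod p, f v ≠ 0 := by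
  by_contra hcon
  push Not at hcon
  have h1 : ∀ f : Module.Dual (ZMod p) Q, f v = 0 := fun f => hcon f.toAddMonoidHom
  exact hv ((Module.forall_dual_apply_eq_zero_iff (ZMod p) v).1 h1)

/-- Characters of an elementary abelian group separate points. -/
private theorem exists_char {Q : Type u} [AddCommGroup Q] {p : ℕ} [Fact p.Prime]
    (hpow : ∀ x : Q, p • x = 0) {v : Q} (hv : v ≠ 0) : ∃ f : Q →+ ZMod p, f v ≠ 0 :=
  @exists_char0 Q _ p _ (AddCommGroup.zmodModule hpow) v hv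

/-- Algebraic part: a character of `B / (B ∩ D)`. -/
private theorem exists_chi_aux {G : Type u} [Group G] {p : ℕ} [Fact p.Prime] {B D : Subgroup G}
    (hDn : D.Normal) (hpow : ∀ b ∈ B, b ^ p ∈ D)
    (hcomm : ∀ b ∈ B, ∀ b' ∈ B, b * b' * b⁻¹ * b'⁻¹ ∈ D) {s : G} (hs : s ∈ B) (hsD : s ∉ D) :
    ∃ χ : G → ZMod p, (∀ b ∈ B, ∀ b' ∈ B, χ (b * b') = χ b + χ b') ∧
      (∀ b ∈ B, b ∈ D → χ b = 0) ∧ χ s ≠ 0 := by
  classical
  have hn : (D.subgroupOf B).Normal := hDn.subgroupOf B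
  have hmk : ∀ b : B, (QuotientGroup.mk b : B ⧸ D.subgroupOf B) = 1 ↔ (b : G) ∈ D := by
    intro b
    rw [QuotientGroup.eq_one_iff, Subgroup.mem_subgroupOf]
  have hab : ∀ x y : B ⧸ D.subgroupOf B, x * y = y * x := by
    intro x y
    obtain ⟨a, rfl⟩ := QuotientGroup.mk_surjective x
    obtain ⟨b, rfl⟩ := QuotientGroup.mk_surjective y
    have h1 : (QuotientGroup.mk (a * b * a⁻¹ * b⁻¹) : B ⧸ D.subgroupOf B) = 1 := by
      rw [hmk]
      exact hcomm a a.2 b b.2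
    have h2 : (QuotientGroup.mk a : B ⧸ D.subgroupOf B) * QuotientGroup.mk b *
        (QuotientGroup.mk a)⁻¹ * (QuotientGroup.mk b)⁻¹ = 1 := h1
    have h3 := mul_inv_eq_one.1 h2
    exact mul_inv_eq_iff_eq_mul.1 h3
  let _ : AddCommGroup (Additive (B ⧸ D.subgroupOf B)) :=
    { (inferInstance : AddGroup (Additive (B ⧸ D.subgroupOf B))) with
      add_comm := fun x y => hab x y }
  have hpow' : ∀ x : Additive (B ⧸ D.subgroupOf B), p • x = 0 := by
    intro x
    obtain ⟨a, ha⟩ := QuotientGroup.mk_surjective (Additive.toMul x)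
    have h1 : (QuotientGroup.mk (a ^ p) : B ⧸ D.subgroupOf B) = 1 := by
      rw [hmk]
      exact hpow a a.2
    have h2 : (Additive.toMul x) ^ p = 1 := by
      rw [← ha]
      exact h1
    exact h2
  have hv : (Additive.ofMul (QuotientGroup.mk (⟨s, hs⟩ : B) : B ⧸ D.subgroupOf B)) ≠ 0 := by
    intro h
    exact hsD ((hmk ⟨s, hs⟩).1 h)
  obtain ⟨f, hf⟩ := exists_char hpow' hv
  refine ⟨fun g => if h : g ∈ B then
    f (Additive.ofMul (QuotientGroup.mk (⟨g, h⟩ : B) : B ⧸ D.subgroupOf B)) else 0, ?_, ?_, ?_⟩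
  · intro b hb b' hb'
    simp only [dif_pos hb, dif_pos hb', dif_pos (B.mul_mem hb hb')]
    rw [← map_add]
    rfl
  · intro b hb hbD
    simp only [dif_pos hb]
    have h1 : (QuotientGroup.mk (⟨b, hb⟩ : B) : B ⧸ D.subgroupOf B) = 1 := (hmk ⟨b, hb⟩).2 hbD
    rw [h1]
    exact map_zero f
  · simp only [dif_pos hs]
    exact hf

/-- Choose `N` with `s ∉ C ⊔ N`. The quotient `Q = B / (B ∩ (C ⊔ N))` is a finite elementary abelian `p`-group
and `s` is non-trivial in it, so there is a homomorphism `Q → ℤ/p` which does not kill `s` (dual of a vector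
space over `ZMod p`, e.g. `AddCommGroup.zmodModule` and `Module.forall_dual_apply_eq_zero_iff`). Outside `B` put
`χ = 0`. -/
theorem exists_chi {p : ℕ} [Fact p.Prime] {B C : Subgroup F} (hBn : B.Normal) (hCn : C.Normal)
    (hC : IsClosed (C : Set F)) (hCB : C ≤ B) (hpow : ∀ b ∈ B, b ^ p ∈ C)
    (hcomm : ∀ b ∈ B, ∀ b' ∈ B, b * b' * b⁻¹ * b'⁻¹ ∈ C) {s : F} (hs : s ∈ B) (hsC : s ∉ C) :
    ∃ N : Subgroup F, ON N ∧ ∃ χ : F → ZMod p, (∀ b ∈ B, ∀ b' ∈ B, χ (b * b') = χ b + χ b') ∧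
      (∀ b ∈ B, b ∈ C ⊔ N → χ b = 0) ∧ χ s ≠ 0 := by
  obtain ⟨N, hN, hsN⟩ := exists_ON_not_mem hC hsC
  have hNn := hN.1
  refine ⟨N, hN, ?_⟩
  have hDn : (C ⊔ N).Normal := Subgroup.sup_normal C N
  exact exists_chi_aux hDn (fun b hb => Subgroup.mem_sup_left (hpow b hb))
    (fun b hb b' hb' => Subgroup.mem_sup_left (hcomm b hb b' hb')) hs hsN

end Pool.Agent.Helper64.FS
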