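import Pool.Agent.Helper64.FS.Defs
import Pool.Agent.Helper64.FS.A1

set_option autoImplicit false

namespace Pool.Agent.Helper64.FS

universe u v

variable {F : Type u} [Group F] [TopologicalSpace F] [IsTopologicalGroup F] [CompactSpace F]
  [T2Space F] [TotallyDisconnectedSpace F]

/-- Transport the group structure of `F ⧸ M` to `Fin n`. -/
theorem exists_type_quot {p : ℕ} [Fact p.Prime] (hp : PIndex p F) {M : Subgroup F} (hM : ON M) :
    ∃ (P : Type) (_ : Group P) (_ : Finite P) (π : F →* P), IsPGroup p P ∧ π.ker = M := by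
  have hn := hM.1
  have hfin : Finite (F ⧸ M) := ON.finite hM
  let E : Shrink.{0} (F ⧸ M) ≃* (F ⧸ M) := Shrink.mulEquiv
  refine ⟨Shrink.{0} (F ⧸ M), inferInstance, Finite.of_equiv _ E.symm.toEquiv,
    E.symm.toMonoidHom.comp (QuotientGroup.mk' M), ?_, ?_⟩
  · exact (ON.isPGroup hp hM).of_equiv E.symm
  · ext x
    rw [MonoidHom.mem_ker, MonoidHom.comp_apply]
    change E.symm (QuotientGroup.mk' M x) = 1 ↔ x ∈ M
    rw [map_eq_one_iff _ E.symm.injective]
    exact QuotientGroup.eq_one_iff x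

/-- The universal property for finite `p`-groups `P` in all universes (transport to `Fin n`). -/
theorem IsFree.univ' {p : ℕ} {X : Type v} {ι : X → F} (hF : IsFree p ι) (P : Type*) [Group P]
    [Finite P] (hP : IsPGroup p P) (f : X → P) (hf : {x | f x ≠ 1}.Finite) :
    ∃ φ : F →* P, IsOpen (φ.ker : Set F) ∧ ∀ x, φ (ι x) = f x := by
  let E : Shrink.{0} P ≃* P := Shrink.mulEquiv
  have hfinS : Finite (Shrink.{0} P) := Finite.of_equiv _ E.symm.toEquiv
  obtain ⟨φ, hφ, hφι⟩ := hF.univ (Shrink.{0} P) (hP.of_equiv E.symm) (fun x => E.symm (f x)) (by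
    refine hf.subset fun x hx h => hx ?_
    change E.symm (f x) = 1
    rw [h, map_one])
  refine ⟨E.toMonoidHom.comp φ, ?_, ?_⟩
  · have h1 : (E.toMonoidHom.comp φ).ker = φ.ker := by
      ext x
      rw [MonoidHom.mem_ker, MonoidHom.mem_ker, MonoidHom.comp_apply]
      change E (φ x) = 1 ↔ φ x = 1
      exact map_eq_one_iff _ E.injective
    rw [h1]
    exact hφ
  · intro x
    change E (φ (ι x)) = f x
    rw [hφι x]
    exact E.apply_symm_apply _

/-- Two homomorphisms to discrete groups with open kernels which agree on the basis are equal. -/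
theorem IsFree.hom_ext {p : ℕ} {X : Type v} {ι : X → F} (hF : IsFree p ι) {P : Type*} [Group P]
    (φ ψ : F →* P) (hφ : IsOpen (φ.ker : Set F)) (hψ : IsOpen (ψ.ker : Set F))
    (h : ∀ x, φ (ι x) = ψ (ι x)) : φ = ψ := by
  have hopen : IsOpen ((φ.ker ⊓ ψ.ker : Subgroup F) : Set F) := hφ.inter hψ
  have hle : φ.ker ⊓ ψ.ker ≤ φ.eqLocus ψ := by
    intro x hx
    have h1 : φ x = 1 := hx.1
    have h2 : ψ x = 1 := hx.2
    change φ x = ψ x
    rw [h1, h2]
  have hop : IsOpen ((φ.eqLocus ψ : Subgroup F) : Set F) := Subgroup.isOpen_mono hle hopen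
  have hcl : IsClosed ((φ.eqLocus ψ : Subgroup F) : Set F) := Subgroup.isClosed_of_isOpen _ hop
  have h1 : (Subgroup.closure (Set.range ι)).topologicalClosure ≤ φ.eqLocus ψ := by
    refine Subgroup.topologicalClosure_minimal _ ?_ hcl
    rw [Subgroup.closure_le]
    rintro _ ⟨x, rfl⟩
    exact h x
  rw [hF.gen] at h1
  ext g
  exact h1 (Subgroup.mem_top g)

namespace A5aux

/-- the points congruent modulo `N` to the image of `g` -/
def S {X : Type v} (ι f : X → F) (N : Subgroup F) (g : F) : Set F :=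
  {y | ∃ (_ : N.Normal) (ψ : F →* F ⧸ N), IsOpen (ψ.ker : Set F) ∧
    (∀ x, ψ (ι x) = QuotientGroup.mk (f x)) ∧ ψ g = QuotientGroup.mk y}

omit [IsTopologicalGroup F] [CompactSpace F] [T2Space F] [TotallyDisconnectedSpace F] in
theorem S_mul_mem {X : Type v} {ι f : X → F} {N : Subgroup F} {g y n : F} (hy : y ∈ S ι f N g)
    (hn : n ∈ N) : y * n ∈ S ι f N g := by
  obtain ⟨hN, ψ, h1, h2, h3⟩ := hy
  refine ⟨hN, ψ, h1, h2, ?_⟩
  rw [h3]
  exact QuotientGroup.eq.2 (by rwa [inv_mul_cancel_left])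

omit [CompactSpace F] [T2Space F] [TotallyDisconnectedSpace F] in
theorem S_closed {X : Type v} {ι f : X → F} {N : Subgroup F} (hN : ON N) (g : F) :
    IsClosed (S ι f N g) := by
  rw [← isOpen_compl_iff, isOpen_iff_mem_nhds]
  intro y hy
  have h1 : {z | y⁻¹ * z ∈ N} ∈ nhds y := by
    refine IsOpen.mem_nhds (hN.2.preimage (continuous_const_mul y⁻¹)) ?_
    change y⁻¹ * y ∈ N
    rw [inv_mul_cancel]
    exact N.one_mem
  refine Filter.mem_of_superset h1 ?_
  intro z hz hz'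
  apply hy
  have h2 : y = z * (y⁻¹ * z)⁻¹ := by group
  rw [h2]
  exact S_mul_mem hz' (N.inv_mem hz)

theorem S_nonempty {p : ℕ} [Fact p.Prime] {X : Type v} {ι : X → F} (hF : IsFree p ι)
    (f : X → F) (hf : ∀ N : Subgroup F, ON N → {x | f x ∉ N}.Finite) {N : Subgroup F} (hN : ON N)
    (g : F) : (S ι f N g).Nonempty := by
  have hn := hN.1
  have hfin : Finite (F ⧸ N) := ON.finite hN
  obtain ⟨ψ, h1, h2⟩ := hF.univ' (F ⧸ N) (ON.isPGroup hF.pindex hN)
    (fun x => QuotientGroup.mk (f x)) (by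
      refine (hf N hN).subset fun x hx h => hx ?_
      exact (QuotientGroup.eq_one_iff _).2 h)
  obtain ⟨y, hy⟩ := QuotientGroup.mk_surjective (ψ g)
  exact ⟨y, hn, ψ, h1, h2, hy.symm⟩

omit [CompactSpace F] [T2Space F] [TotallyDisconnectedSpace F] in
theorem S_anti {X : Type v} {ι f : X → F} {M N : Subgroup F} (hN : ON N) (hMN : M ≤ N) (g : F) :
    S ι f M g ⊆ S ι f N g := by
  rintro y ⟨hM, ψ, h1, h2, h3⟩
  have hn := hN.1
  refine ⟨hn, (QuotientGroup.map M N (MonoidHom.id F) (fun x hx => hMN hx)).comp ψ, ?_, ?_, ?_⟩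
  · refine Subgroup.isOpen_mono ?_ h1
    intro x hx
    rw [MonoidHom.mem_ker] at hx ⊢
    rw [MonoidHom.comp_apply, hx, map_one]
  · intro x
    rw [MonoidHom.comp_apply, h2 x]
    rfl
  · rw [MonoidHom.comp_apply, h3]
    rfl

theorem S_unique {p : ℕ} {X : Type v} {ι : X → F} (hF : IsFree p ι) {f : X → F} {N : Subgroup F}
    {g y y' : F} (hy : y ∈ S ι f N g) (hy' : y' ∈ S ι f N g) : y⁻¹ * y' ∈ N := by
  obtain ⟨hN, ψ, h1, h2, h3⟩ := hy
  obtain ⟨_, ψ', h1', h2', h3'⟩ := hy'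
  have h4 : ψ = ψ' := hF.hom_ext ψ ψ' h1 h1' (fun x => by rw [h2, h2'])
  rw [h4, h3'] at h3
  exact QuotientGroup.eq.1 h3.symm

theorem S_mul {p : ℕ} {X : Type v} {ι : X → F} (hF : IsFree p ι) {f : X → F} {N : Subgroup F}
    {g g' y y' : F} (hy : y ∈ S ι f N g) (hy' : y' ∈ S ι f N g') :
    y * y' ∈ S ι f N (g * g') := by
  obtain ⟨hN, ψ, h1, h2, h3⟩ := hy
  obtain ⟨_, ψ', h1', h2', h3'⟩ := hy'
  have h4 : ψ = ψ' := hF.hom_ext ψ ψ' h1 h1' (fun x => by rw [h2, h2'])
  refine ⟨hN, ψ, h1, h2, ?_⟩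
  rw [map_mul, h3, h4, h3']
  rfl

end A5aux

open A5aux in
/-- Continuous endomorphisms of `F` with prescribed values on the basis. For every open normal `N` there is a
unique homomorphism `φ_N : F →* F ⧸ N` with open kernel and `φ_N (ι x) = f x N`; these are compatible; for
`g : F` the closed cosets `φ_N g` have a common point by compactness (directed), which is unique. -/
theorem IsFree.exists_endo {p : ℕ} [Fact p.Prime] {X : Type v} {ι : X → F} (hF : IsFree p ι)
    (f : X → F) (hf : ∀ N : Subgroup F, ON N → {x | f x ∉ N}.Finite) :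
    ∃ φ : F →* F, Continuous φ ∧ ∀ x, φ (ι x) = f x := by
  have hne : Nonempty {N : Subgroup F // ON N} := ⟨⟨⊤, ON_top⟩⟩
  have hex : ∀ g : F, ∃ y : F, ∀ N : Subgroup F, ON N → y ∈ S ι f N g := by
    intro g
    have h1 := IsCompact.nonempty_iInter_of_directed_nonempty_isCompact_isClosed
      (fun N : {N : Subgroup F // ON N} => S ι f N.1 g) (by
        intro N M
        exact ⟨⟨N.1 ⊓ M.1, N.2.inf M.2⟩, S_anti N.2 inf_le_left g, S_anti M.2 inf_le_right g⟩)
      (fun N => S_nonempty hF f hf N.2 g) (fun N => (S_closed N.2 g).isCompact)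
      (fun N => S_closed N.2 g)
    obtain ⟨y, hy⟩ := h1
    rw [Set.mem_iInter] at hy
    exact ⟨y, fun N hN => hy ⟨N, hN⟩⟩
  have huniq : ∀ g y y' : F, (∀ N : Subgroup F, ON N → y ∈ S ι f N g) →
      (∀ N : Subgroup F, ON N → y' ∈ S ι f N g) → y = y' := by
    intro g y y' hy hy'
    by_contra hne'
    have h1 : (1 : F) ∈ ({y⁻¹ * y'}ᶜ : Set F) := by
      intro h2
      exact hne' (inv_mul_eq_one.1 h2.symm)
    obtain ⟨N, hN, hsub⟩ := exists_ON_sub (isOpen_compl_singleton (x := y⁻¹ * y')) h1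
    exact hsub (S_unique hF (hy N hN) (hy' N hN)) rfl
  choose φ hφ using hex
  let Φ : F →* F := MonoidHom.mk' φ (fun g h => huniq (g * h) _ _ (hφ (g * h))
    (fun N hN => S_mul hF (hφ g N hN) (hφ h N hN)))
  have hΦ : ∀ g, Φ g = φ g := fun g => rfl
  refine ⟨Φ, ?_, ?_⟩
  · refine continuous_of_continuousAt_one Φ ?_
    rw [ContinuousAt, map_one]
    intro U hU
    obtain ⟨V, hVU, hV, h1V⟩ := mem_nhds_iff.1 hU
    obtain ⟨N, hN, hsub⟩ := exists_ON_sub hV h1V
    obtain ⟨hn, ψ, h1, h2, h3⟩ := hφ 1 N hN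
    have h4 : (ψ.ker : Set F) ∈ nhds (1 : F) := h1.mem_nhds ψ.ker.one_mem
    rw [Filter.mem_map]
    refine Filter.mem_of_superset h4 ?_
    intro g hg
    apply hVU
    apply hsub
    change Φ g ∈ N
    rw [hΦ]
    have h5 : (1 : F) ∈ S ι f N g := by
      refine ⟨hn, ψ, h1, h2, ?_⟩
      have h6 : ψ g = 1 := hg
      rw [h6]
      rfl
    have h7 := S_unique hF h5 (hφ g N hN)
    rwa [inv_one, one_mul] at h7
  · intro x
    rw [hΦ]
    refine huniq (ι x) _ _ (hφ (ι x)) ?_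
    intro N hN
    obtain ⟨hn, ψ, h1, h2, h3⟩ := hφ 1 N hN
    exact ⟨hn, ψ, h1, h2, h2 x⟩

end Pool.Agent.Helper64.FS
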