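import Pool.Agent.Helper64.FS.Defs
import Pool.Agent.Helper64.FS.A1
import Pool.Agent.Helper64.FS.A5

set_option autoImplicit false

namespace Pool.Agent.Helper64.FS

universe u v

variable {F : Type u} [Group F] [TopologicalSpace F] [IsTopologicalGroup F] [CompactSpace F]
  [T2Space F] [TotallyDisconnectedSpace F]

/-- Existence of crossed homomorphisms. Let `M` be open normal such that all `f z` (only finitely many
are `≠ 1`) are right invariant under `M`, hence under the open normal subgroup `N = B ⊔ M`. Let `Q = F ⧸ N`, a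
finite `p`-group, and `W = RegularWreathProduct P Q` (`P ≀ᵣ Q`, elements `(left : Q → P, right : Q)`,
`(a * b).left x = a.left x * b.left (a.right⁻¹ * x)`), a finite `p`-group (`RegularWreathProduct.card`).
`IsFree.univ'` for `z ↦ ⟨f z on Q, ι z N⟩` (trivial for almost all `z` by `hfin` and `hF.conv`) gives
`φ : F →* W`. `(φ g).right = g N` by `IsFree.hom_ext`. Put `G g a = (φ g).left (a N)`. -/
theorem exists_X {p : ℕ} [Fact p.Prime] {X : Type v} {ι : X → F} (hF : IsFree p ι)
    (B : Subgroup F) [B.Normal] {P : Type} [Group P] [Finite P] (hP : IsPGroup p P)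
    (f : X → F → P) (hfin : {z | f z ≠ 1}.Finite) (hf : ∀ z, LCf B (f z)) :
    ∃ G : F → F → P, IsX B G ∧ ∀ z, G (ι z) = f z := by
  choose Nz hNz using fun z => (hf z).1
  obtain ⟨M, hM, hMz⟩ := exists_ON_of_finite hfin Nz (fun z _ => (hNz z).1)
  have hBinv : ∀ z u, ∀ b ∈ B, f z (u * b) = f z u := fun z => (hf z).2
  have hMinv : ∀ z u, ∀ n ∈ M, f z (u * n) = f z u := by
    intro z u n hn
    by_cases hz : f z = 1
    · rw [hz]
      rfl
    · exact (hNz z).2 u n (hMz z hz hn)
  have hN : ON (B ⊔ M) := ON.sup inferInstance hM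
  have hNn := hN.1
  have hMn := hM.1
  have hNinv : ∀ z u, ∀ n ∈ B ⊔ M, f z (u * n) = f z u := by
    intro z u n hn
    have hn' : n ∈ ((B ⊔ M : Subgroup F) : Set F) := hn
    rw [Subgroup.mul_normal B M] at hn'
    obtain ⟨b, hb, m, hm, rfl⟩ := hn'
    change f z (u * (b * m)) = f z u
    rw [← mul_assoc, hMinv z _ m hm, hBinv z _ b hb]
  set N := B ⊔ M with hNdef
  have hfinQ : Finite (F ⧸ N) := ON.finite hN
  have hQp : IsPGroup p (F ⧸ N) := ON.isPGroup hF.pindex hN
  have hWp : IsPGroup p (RegularWreathProduct P (F ⧸ N)) := by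
    obtain ⟨a, ha⟩ := hP.exists_card_eq
    obtain ⟨b, hb⟩ := hQp.exists_card_eq
    refine IsPGroup.of_card (n := a * Nat.card (F ⧸ N) + b) ?_
    rw [RegularWreathProduct.card, ha, pow_add, pow_mul, ← hb]
  -- the functions on the quotient
  let fq : X → (F ⧸ N) → P := fun z q => f z q.out
  have hfq : ∀ z a, fq z (QuotientGroup.mk a) = f z a := by
    intro z a
    obtain ⟨n, hn⟩ := QuotientGroup.mk_out_eq_mul N a
    change f z (QuotientGroup.mk a : F ⧸ N).out = f z a
    rw [hn, hNinv z a n n.2]
  obtain ⟨φ, hφo, hφ⟩ := hF.univ' (RegularWreathProduct P (F ⧸ N)) hWp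
    (fun z => ⟨fq z, QuotientGroup.mk (ι z)⟩) (by
      refine (hfin.union (hF.conv N hN)).subset ?_
      intro z hz
      by_contra hcon
      apply hz
      rw [Set.mem_union, not_or] at hcon
      have h1 : f z = 1 := by
        by_contra h2
        exact hcon.1 h2
      have h2 : ι z ∈ N := by
        by_contra h3
        exact hcon.2 h3
      ext q
      · change f z q.out = 1
        rw [h1]
        rfl
      · exact (QuotientGroup.eq_one_iff _).2 h2)
  have hright : RegularWreathProduct.rightHom.comp φ = QuotientGroup.mk' N := by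
    refine hF.hom_ext _ _ ?_ ?_ ?_
    · refine Subgroup.isOpen_mono ?_ hφo
      intro x hx
      rw [MonoidHom.mem_ker] at hx ⊢
      rw [MonoidHom.comp_apply, hx, map_one]
    · rw [QuotientGroup.ker_mk']
      exact hN.2
    · intro z
      rw [MonoidHom.comp_apply, hφ z]
      rfl
  have hr : ∀ g, (φ g).right = QuotientGroup.mk g := fun g => DFunLike.congr_fun hright g
  refine ⟨fun g a => (φ g).left (QuotientGroup.mk a), ⟨?_, ?_, ?_⟩, ?_⟩
  · intro g g' a
    rw [map_mul, RegularWreathProduct.mul_left, hr g]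
    rfl
  · intro g a b hb
    congr 1
    exact (QuotientGroup.eq.2 (by
      rw [inv_mul_cancel_left]
      exact Subgroup.mem_sup_left hb)).symm
  · obtain ⟨K, hK, hKle⟩ := exists_ON_le hφo
    refine ⟨K ⊓ N, hK.inf hN, ?_, ?_⟩
    · intro g a n hn
      congr 1
      exact (QuotientGroup.eq.2 (by
        rw [inv_mul_cancel_left]
        exact hn.2)).symm
    · intro n hn a
      have h1 : φ n = 1 := hKle hn.1
      change (φ n).left _ = 1
      rw [h1]
      rfl
  · intro z
    funext a
    change (φ (ι z)).left (QuotientGroup.mk a) = f z a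
    rw [hφ z]
    exact hfq z a

end Pool.Agent.Helper64.FS
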