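import Pool.Agent.Helper64.FS.Defs
import Pool.Agent.Helper64.FS.A1
import Pool.Agent.Helper64.FS.A2

set_option autoImplicit false

namespace Pool.Agent.Helper64.FS

universe u v

variable {F : Type u} [Group F] [TopologicalSpace F] [IsTopologicalGroup F] [CompactSpace F]
  [T2Space F] [TotallyDisconnectedSpace F]

variable {B : Subgroup F} {P : Type} [Group P] {G G' : F → F → P}

theorem IsX.one (hG : IsX B G) (a : F) : G 1 a = 1 := by
  have h := hG.mul 1 1 a
  rw [one_mul, inv_one, one_mul] at h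
  exact left_eq_mul.1 h

theorem IsX.lc (hG : IsX B G) (g : F) : LCf B (G g) := by
  obtain ⟨N, hN, h1, -⟩ := hG.cont
  exact ⟨⟨N, hN, fun u n hn => h1 g u n hn⟩, fun u b hb => hG.inv g u b hb⟩

/-- `b ↦ G b 1` is a homomorphism on `B`. -/
theorem IsX.hom (hG : IsX B G) {b b' : F} (hb : b ∈ B) (hb' : b' ∈ B) :
    G (b * b') 1 = G b 1 * G b' 1 := by
  have h := hG.mul b b' 1
  rw [mul_one] at h
  have h2 := hG.inv b' 1 b⁻¹ (B.inv_mem hb)
  rw [one_mul] at h2
  rw [h, h2]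

/-- `1 = G (a⁻¹ a) 1 = G a⁻¹ 1 * G a a` and `G (a⁻¹ b a) 1 = G a⁻¹ 1 * G b a * G a (b⁻¹ a)`, where
`b⁻¹ a = a (a⁻¹ b⁻¹ a)` with `a⁻¹ b⁻¹ a ∈ B`. -/
theorem IsX.conj' [B.Normal] (hG : IsX B G) {b : F} (hb : b ∈ B) (a : F) :
    G (a⁻¹ * b * a) 1 = G a⁻¹ 1 * G b a * (G a⁻¹ 1)⁻¹ := by
  have h1 : G a⁻¹ 1 * G a a = 1 := by
    have h := hG.mul a⁻¹ a 1
    rw [inv_mul_cancel, inv_inv, mul_one, hG.one] at h
    exact h.symm
  have h2 : G (a⁻¹ * b * a) 1 = G a⁻¹ 1 * (G b a * G a (b⁻¹ * a)) := by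
    have h := hG.mul a⁻¹ (b * a) 1
    rw [inv_inv, mul_one, hG.mul b a a, ← mul_assoc a⁻¹ b a] at h
    exact h
  have h3 : G a (b⁻¹ * a) = G a a := by
    have hB : a⁻¹ * b⁻¹ * a ∈ B := by
      have := (inferInstance : B.Normal).conj_mem b⁻¹ (B.inv_mem hb) a⁻¹
      rwa [inv_inv] at this
    have h := hG.inv a a _ hB
    rwa [show a * (a⁻¹ * b⁻¹ * a) = b⁻¹ * a by group] at h
  rw [h2, h3, ← mul_assoc, eq_inv_of_mul_eq_one_right h1]

/-- The commutative case of `IsX.conj'` (for non-commutative `P` a conjugation by `G a⁻¹ 1` is needed). -/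
theorem IsX.conj {P : Type} [CommGroup P] {G : F → F → P} [B.Normal] (hG : IsX B G) {b : F}
    (hb : b ∈ B) (a : F) : G b a = G (a⁻¹ * b * a) 1 := by
  rw [hG.conj' hb a, mul_comm (G a⁻¹ 1) (G b a), mul_inv_cancel_right]

theorem IsX.map {P' : Type} [Group P'] (φ : P →* P') (hG : IsX B G) :
    IsX B (fun g a => φ (G g a)) := by
  obtain ⟨N, hN, h1, h2⟩ := hG.cont
  refine ⟨fun g g' a => ?_, fun g a b hb => ?_, N, hN, fun g a n hn => ?_, fun n hn a => ?_⟩
  · rw [hG.mul, map_mul]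
  · rw [hG.inv g a b hb]
  · rw [h1 g a n hn]
  · rw [h2 n hn a, map_one]

theorem IsX.mul_central (hG : IsX B G) (hG' : IsX B G')
    (h : ∀ g a, G' g a ∈ Subgroup.center P) : IsX B (fun g a => G g a * G' g a) := by
  obtain ⟨N, hN, h1, h2⟩ := hG.cont
  obtain ⟨N', hN', h1', h2'⟩ := hG'.cont
  refine ⟨fun g g' a => ?_, fun g a b hb => ?_, N ⊓ N', hN.inf hN', fun g a n hn => ?_,
    fun n hn a => ?_⟩
  · have hc := Subgroup.mem_center_iff.1 (h g a) (G g' (g⁻¹ * a))
    rw [hG.mul, hG'.mul]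
    calc G g a * G g' (g⁻¹ * a) * (G' g a * G' g' (g⁻¹ * a))
        = G g a * (G g' (g⁻¹ * a) * G' g a) * G' g' (g⁻¹ * a) := by group
      _ = G g a * (G' g a * G g' (g⁻¹ * a)) * G' g' (g⁻¹ * a) := by rw [hc]
      _ = G g a * G' g a * (G g' (g⁻¹ * a) * G' g' (g⁻¹ * a)) := by group
  · rw [hG.inv g a b hb, hG'.inv g a b hb]
  · rw [h1 g a n hn.1, h1' g a n hn.2]
  · rw [h2 n hn.1 a, h2' n hn.2 a, one_mul]

theorem IsX.translate [B.Normal] (hG : IsX B G) (c : F) : IsX B (fun g a => G g (a * c)) := by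
  obtain ⟨N, hN, h1, h2⟩ := hG.cont
  refine ⟨fun g g' a => ?_, fun g a b hb => ?_, N, hN, fun g a n hn => ?_, fun n hn a => ?_⟩
  · rw [hG.mul, mul_assoc]
  · have hB : c⁻¹ * b * c ∈ B := by
      have := (inferInstance : B.Normal).conj_mem b hb c⁻¹
      rwa [inv_inv] at this
    have h := hG.inv g (a * c) _ hB
    rwa [show a * c * (c⁻¹ * b * c) = a * b * c by group] at h
  · have hB : c⁻¹ * n * c ∈ N := by
      have := hN.1.conj_mem n hn c⁻¹
      rwa [inv_inv] at this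
    have h := h1 g (a * c) _ hB
    rwa [show a * c * (c⁻¹ * n * c) = a * n * c by group] at h
  · exact h2 n hn (a * c)

/-- The values of `G` at an inverse. -/
theorem IsX.inv_apply (hG : IsX B G) (g a : F) : G g⁻¹ a = (G g (g * a))⁻¹ := by
  have h := hG.mul g g⁻¹ (g * a)
  rw [mul_inv_cancel, hG.one, inv_mul_cancel_left] at h
  exact eq_inv_of_mul_eq_one_right h.symm

/-- `{g | G g = G' g}` is a subgroup and contains an open subgroup, so it is closed. -/
theorem IsX.ext {X : Type v} {ι : X → F}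
    (hgen : (Subgroup.closure (Set.range ι)).topologicalClosure = ⊤) (hG : IsX B G)
    (hG' : IsX B G') (h : ∀ z, G (ι z) = G' (ι z)) : G = G' := by
  let S : Subgroup F :=
    { carrier := {g | G g = G' g}
      one_mem' := by
        funext a
        rw [hG.one, hG'.one]
      mul_mem' := by
        intro g g' hg hg'
        funext a
        have e1 : G g = G' g := hg
        have e2 : G g' = G' g' := hg'
        rw [hG.mul, hG'.mul, e1, e2]
      inv_mem' := by
        intro g hg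
        funext a
        have e1 : G g = G' g := hg
        rw [hG.inv_apply, hG'.inv_apply, e1] }
  obtain ⟨N, hN, -, h2⟩ := hG.cont
  obtain ⟨N', hN', -, h2'⟩ := hG'.cont
  have hle : N ⊓ N' ≤ S := by
    intro n hn
    show G n = G' n
    funext a
    rw [h2 n hn.1, h2' n hn.2]
  have hcl : IsClosed (S : Set F) := isClosed_of_ON_le (hN.inf hN') hle
  have htop : (⊤ : Subgroup F) ≤ S := by
    rw [← hgen]
    refine Subgroup.topologicalClosure_minimal _ ?_ hcl
    rw [Subgroup.closure_le]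
    rintro _ ⟨z, rfl⟩
    exact h z
  funext g
  exact htop (Subgroup.mem_top g)

/-- `{g | ∀ a, G g a = π g}` is a subgroup which contains an open subgroup. -/
theorem IsX.const {X : Type v} {ι : X → F} {Y : Set X} (hG : IsX B G) (π : F →* P)
    (hπ : IsOpen (π.ker : Set F)) (h : ∀ y ∈ Y, ∀ a, G (ι y) a = π (ι y)) :
    ∀ w ∈ clS ι Y, ∀ a, G w a = π w := by
  let S : Subgroup F :=
    { carrier := {g | ∀ a, G g a = π g}
      one_mem' := by
        intro a
        rw [hG.one, map_one]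
      mul_mem' := by
        intro g g' hg hg' a
        rw [hG.mul, hg a, hg' (g⁻¹ * a), map_mul]
      inv_mem' := by
        intro g hg a
        rw [hG.inv_apply, hg (g * a), map_inv] }
  obtain ⟨N, hN, -, h2⟩ := hG.cont
  have hker : ON π.ker := ⟨inferInstance, hπ⟩
  have hle : N ⊓ π.ker ≤ S := by
    intro n hn a
    rw [h2 n hn.1, MonoidHom.mem_ker.1 hn.2]
  have hcl : IsClosed (S : Set F) := isClosed_of_ON_le (hN.inf hker) hle
  have hS : clS ι Y ≤ S := clS_le hcl h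
  intro w hw
  exact hS hw

/-- `{g ∈ B | ∀ a, G g a = 1}` is a normal subgroup, the intersection of the closed subgroup `B` with an
open subgroup. -/
theorem IsX.ker [B.Normal] (hB : IsClosed (B : Set F)) (hG : IsX B G) {r : F} (hr : r ∈ B)
    (h : ∀ a, G r a = 1) : ∀ w ∈ ncl r, ∀ a, G w a = 1 := by
  let S : Subgroup F :=
    { carrier := {g | ∀ a, G g a = 1}
      one_mem' := by
        intro a
        rw [hG.one]
      mul_mem' := by
        intro g g' hg hg' a
        rw [hG.mul, hg a, hg' (g⁻¹ * a), one_mul]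
      inv_mem' := by
        intro g hg a
        rw [hG.inv_apply, hg (g * a), inv_one] }
  obtain ⟨N, hN, -, h2⟩ := hG.cont
  have hle : N ≤ S := fun n hn => h2 n hn
  have hclS : IsClosed (S : Set F) := isClosed_of_ON_le hN hle
  have hcl : IsClosed ((B ⊓ S : Subgroup F) : Set F) := hB.inter hclS
  have hnorm : (B ⊓ S).Normal := by
    refine ⟨fun b hb g => ⟨(inferInstance : B.Normal).conj_mem b hb.1 g, fun a => ?_⟩⟩
    have hb2 : ∀ a, G b a = 1 := hb.2
    have hBm : (g⁻¹ * a)⁻¹ * b⁻¹ * (g⁻¹ * a) ∈ B := by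
      have := (inferInstance : B.Normal).conj_mem b⁻¹ (B.inv_mem hb.1) (g⁻¹ * a)⁻¹
      rwa [inv_inv] at this
    have h3 := hG.inv g⁻¹ (g⁻¹ * a) _ hBm
    have e : g⁻¹ * a * ((g⁻¹ * a)⁻¹ * b⁻¹ * (g⁻¹ * a)) = b⁻¹ * (g⁻¹ * a) := by group
    rw [e] at h3
    have h4 := hG.mul g g⁻¹ a
    rw [mul_inv_cancel, hG.one] at h4
    rw [mul_assoc, hG.mul, hG.mul, hb2, one_mul, h3, ← h4]
  have hS : ncl r ≤ B ⊓ S := ncl_le hnorm hcl ⟨hr, h⟩
  intro w hw
  exact (hS hw).2

end Pool.Agent.Helper64.FS
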