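import Pool.Agent.Helper64.FS.Defs
import Pool.Agent.Helper64.FS.B1
import Pool.Agent.Helper64.FS.B2

set_option autoImplicit false

namespace Pool.Agent.Helper64.FS

universe u v

variable {F : Type u} [Group F] [TopologicalSpace F] [IsTopologicalGroup F] [CompactSpace F]
  [T2Space F] [TotallyDisconnectedSpace F]

/-- The operator `h ↦ H s`, where `H` is the crossed homomorphism with `H (ι z) = h` and `H (ι z') = 0` for
`z' ≠ z` (`exists_X` for `P = Multiplicative (ZMod p)`). It is additive and equivariant by the uniqueness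
`IsX.ext` (`IsX.mul_central`, `IsX.translate`), so linear on `V p B`; extend it to all functions
(`LinearMap.exists_extend`). -/
theorem exists_T {p : ℕ} [Fact p.Prime] {X : Type v} {ι : X → F} (hF : IsFree p ι)
    (B : Subgroup F) [B.Normal] (z : X) (s : F) :
    ∃ T : (F → ZMod p) →ₗ[ZMod p] (F → ZMod p), (∀ h ∈ V p B, T h ∈ V p B) ∧
      (∀ g, ∀ h ∈ V p B, T (rho p g h) = rho p g (T h)) ∧
      ∀ h ∈ V p B, ∃ G : F → F → Multiplicative (ZMod p), IsX B G ∧
        (∀ a, G (ι z) a = Multiplicative.ofAdd (h a)) ∧ (∀ z', z' ≠ z → ∀ a, G (ι z') a = 1) ∧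
        ∀ a, G s a = Multiplicative.ofAdd (T h a) := by
  classical
  have hP : IsPGroup p (Multiplicative (ZMod p)) := by
    refine IsPGroup.of_card (n := 1) ?_
    rw [Nat.card_congr Multiplicative.toAdd, Nat.card_zmod, pow_one]
  have ex : ∀ h ∈ V p B, ∃ G : F → F → Multiplicative (ZMod p), IsX B G ∧
      ∀ z', G (ι z') = if z' = z then (fun a => Multiplicative.ofAdd (h a)) else 1 := by
    intro h hh
    refine exists_X hF B hP
      (fun z' => if z' = z then (fun a => Multiplicative.ofAdd (h a)) else 1) ?_ ?_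
    · refine (Set.finite_singleton z).subset ?_
      intro z' hz'
      by_contra hne
      exact hz' (if_neg hne)
    · intro z'
      by_cases hz : z' = z
      · simp only [if_pos hz]
        rw [mem_V] at hh
        obtain ⟨⟨N, hN, h1⟩, h2⟩ := hh
        exact ⟨⟨N, hN, fun u n hn => by beta_reduce; rw [h1 u n hn]⟩, fun u b hb => by beta_reduce; rw [h2 u b hb]⟩
      · simp only [if_neg hz]
        exact ⟨⟨⊤, ON_top, fun _ _ _ => rfl⟩, fun _ _ _ => rfl⟩
  choose! G hG hGz using ex
  have uniq : ∀ h ∈ V p B, ∀ G' : F → F → Multiplicative (ZMod p), IsX B G' →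
      (∀ z', G' (ι z') = if z' = z then (fun a => Multiplicative.ofAdd (h a)) else 1) →
      G' = G h := fun h hh G' hG' h' =>
    IsX.ext hF.gen hG' (hG h hh) (fun z' => by rw [h', hGz h hh])
  have hrho : ∀ g, ∀ h ∈ V p B, rho p g h ∈ V p B := by
    intro g h hh
    rw [mem_V] at hh ⊢
    obtain ⟨⟨N, hN, h1⟩, h2⟩ := hh
    refine ⟨⟨N, hN, fun u n hn => ?_⟩, fun u b hb => ?_⟩
    · have hNn := hN.1
      have h3 : g⁻¹ * n * g ∈ N := by
        have := hNn.conj_mem n hn g⁻¹
        rwa [inv_inv] at this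
      rw [rho_apply, rho_apply, ← h1 (u * g) _ h3]
      congr 1
      group
    · have h3 : g⁻¹ * b * g ∈ B := by
        have := (inferInstance : B.Normal).conj_mem b hb g⁻¹
        rwa [inv_inv] at this
      rw [rho_apply, rho_apply, ← h2 (u * g) _ h3]
      congr 1
      group
  have hadd : ∀ h ∈ V p B, ∀ h' ∈ V p B, ∀ a,
      (G (h + h') s a).toAdd = (G h s a).toAdd + (G h' s a).toAdd := by
    intro h hh h' hh' a
    have h1 := uniq (h + h') (Submodule.add_mem _ hh hh') (fun g a => G h g a * G h' g a)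
      (IsX.mul_central (hG h hh) (hG h' hh')
        (fun g a => Subgroup.mem_center_iff.2 fun x => mul_comm _ _)) (by
      intro z'
      funext a
      simp only [hGz h hh, hGz h' hh']
      by_cases hz : z' = z
      · simp only [if_pos hz]
        rfl
      · simp only [if_neg hz, Pi.one_apply, mul_one])
    rw [← h1]
    rfl
  let T0 : V p B →+ (F → ZMod p) := AddMonoidHom.mk' (fun h a => (G h.1 s a).toAdd) (by
    intro h h'
    funext a
    exact hadd h.1 h.2 h'.1 h'.2 a)
  obtain ⟨T, hT⟩ := LinearMap.exists_extend (T0.toZModLinearMap p)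
  have hTh : ∀ h ∈ V p B, T h = fun a => (G h s a).toAdd := by
    intro h hh
    exact DFunLike.congr_fun hT ⟨h, hh⟩
  refine ⟨T, ?_, ?_, ?_⟩
  · intro h hh
    rw [hTh h hh, mem_V]
    obtain ⟨⟨N, hN, h1⟩, h2⟩ := (hG h hh).lc s
    exact ⟨⟨N, hN, fun u n hn => by beta_reduce; rw [h1 u n hn]⟩, fun u b hb => by beta_reduce; rw [h2 u b hb]⟩
  · intro g h hh
    have h1 := uniq (rho p g h) (hrho g h hh) (fun g' a => G h g' (a * g))
      (IsX.translate (hG h hh) g) (by
      intro z'
      funext a
      simp only [hGz h hh]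
      by_cases hz : z' = z
      · simp only [if_pos hz]
        rfl
      · simp only [if_neg hz]
        rfl)
    rw [hTh _ (hrho g h hh), hTh h hh, ← h1]
    rfl
  · intro h hh
    refine ⟨G h, hG h hh, ?_, ?_, ?_⟩
    · intro a
      rw [hGz h hh, if_pos rfl]
    · intro z' hz' a
      rw [hGz h hh, if_neg hz']
      rfl
    · intro a
      rw [hTh h hh]
      rfl

end Pool.Agent.Helper64.FS
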