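import Pool.Agent.Helper64.FS.Defs
import Pool.Agent.Helper64.FS.B5

set_option autoImplicit false

namespace Pool.Agent.Helper64.FS

universe u v

variable {F : Type u} [Group F] [TopologicalSpace F] [IsTopologicalGroup F] [CompactSpace F]
  [T2Space F] [TotallyDisconnectedSpace F]

omit [IsTopologicalGroup F] [T2Space F] [TotallyDisconnectedSpace F] [CompactSpace F] in
private theorem b6_one {p : ℕ} (B : Subgroup F) :
    IsX B (fun (_ _ : F) => (1 : Multiplicative (ZMod p))) where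
  mul _ _ _ := (mul_one 1).symm
  inv _ _ _ _ := rfl
  cont := ⟨⊤, ON_top, fun _ _ _ _ => rfl, fun _ _ _ => rfl⟩

private theorem b6_mem {p : ℕ} {B : Subgroup F} {G : F → F → Multiplicative (ZMod p)}
    (hG : IsX B G) (g : F) : (fun a => Multiplicative.toAdd (G g a)) ∈ V p B := by
  obtain ⟨⟨N, hN, h1⟩, h2⟩ := IsX.lc hG g
  exact ⟨⟨N, hN, fun u n hn => by simp only [h1 u n hn]⟩, fun u b hb => by simp only [h2 u b hb]⟩

private theorem b6_prod {p : ℕ} {B : Subgroup F} {X : Type v} (S : Finset X)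
    (H : X → F → F → Multiplicative (ZMod p)) (hH : ∀ z, IsX B (H z)) :
    IsX B (fun g a => ∏ z ∈ S, H z g a) := by
  classical
  induction S using Finset.induction_on with
  | empty => simpa using b6_one B
  | insert z S hz ih =>
    have h := IsX.mul_central (hH z) ih (fun g a => by
      rw [CommGroup.center_eq_top]
      exact Subgroup.mem_top _)
    have e : (fun g a => ∏ z ∈ insert z S, H z g a) = (fun g a => H z g a * ∏ z ∈ S, H z g a) := by
      funext g a
      rw [Finset.prod_insert hz]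
    rw [e]
    exact h

/-- Immediate from `exists_T` and `Good`: `G₀ (ι z) = ofAdd ∘ h₀` with `h₀ ∈ V p B` (`IsX.lc`), and `G₀` is the
crossed homomorphism attached to `h₀` (`IsX.ext`), so `T h₀ ≠ 0`. -/
theorem surj_one {p : ℕ} [Fact p.Prime] {X : Type v} {ι : X → F} (hF : IsFree p ι)
    (B : Subgroup F) [B.Normal] (hgood : Good p B) (z : X) (s : F)
    (G₀ : F → F → Multiplicative (ZMod p)) (h₀ : IsX B G₀) (h₁ : ∀ z', z' ≠ z → ∀ a, G₀ (ι z') a = 1)
    (h₂ : ∃ a, G₀ s a ≠ 1) : ∀ f ∈ V p B, ∃ G : F → F → Multiplicative (ZMod p), IsX B G ∧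
      (∀ z', z' ≠ z → ∀ a, G (ι z') a = 1) ∧ ∀ a, G s a = Multiplicative.ofAdd (f a) := by
  obtain ⟨T, hT1, hT2, hT3⟩ := exists_T hF B z s
  have hmem := b6_mem h₀ (ι z)
  have hTne : T (fun a => Multiplicative.toAdd (G₀ (ι z) a)) ≠ 0 := by
    obtain ⟨G, hG, e1, e2, e3⟩ := hT3 _ hmem
    have hGG : G = G₀ := by
      apply IsX.ext hF.gen hG h₀
      intro z'
      funext a
      by_cases hz : z' = z
      · rw [hz, e1]
        rfl
      · rw [e2 z' hz, h₁ z' hz]
    intro h0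
    obtain ⟨a, ha⟩ := h₂
    apply ha
    rw [← hGG, e3, h0]
    rfl
  have hsurj := hgood T hT1 hT2 ⟨_, hmem, hTne⟩
  intro f hf
  obtain ⟨f', hf', hTf⟩ := hsurj f hf
  obtain ⟨G, hG, e1, e2, e3⟩ := hT3 f' hf'
  exact ⟨G, hG, e2, fun a => by rw [e3, hTf]⟩

/-- `G₀ (ι z) ≠ 1` only for finitely many `z` (`IsX.cont`, `hF.conv`). `G₀` is the product over these `z` of the
crossed homomorphisms `H_z` with `H_z (ι z) = G₀ (ι z)`, `H_z (ι z') = 1` (`IsX.ext`), so `H_z s ≠ 1` for some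
`z`; apply `surj_one`. -/
theorem surj_all {p : ℕ} [Fact p.Prime] {X : Type v} {ι : X → F} (hF : IsFree p ι)
    (B : Subgroup F) [B.Normal] (hgood : Good p B) (s : F)
    (G₀ : F → F → Multiplicative (ZMod p)) (h₀ : IsX B G₀) (h₂ : ∃ a, G₀ s a ≠ 1) :
    ∀ f ∈ V p B, ∃ G : F → F → Multiplicative (ZMod p), IsX B G ∧
      ∀ a, G s a = Multiplicative.ofAdd (f a) := by
  classical
  obtain ⟨N, hN, -, hN1⟩ := h₀.cont
  have hfin := hF.conv N hN
  have hex : ∀ z : X, ∃ H : F → F → Multiplicative (ZMod p), IsX B H ∧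
      (∀ a, H (ι z) a = G₀ (ι z) a) ∧ ∀ z', z' ≠ z → ∀ a, H (ι z') a = 1 := by
    intro z
    obtain ⟨T, hT1, hT2, hT3⟩ := exists_T hF B z s
    obtain ⟨G, hG, e1, e2, e3⟩ := hT3 _ (b6_mem h₀ (ι z))
    exact ⟨G, hG, fun a => by rw [e1]; rfl, e2⟩
  choose H hH1 hH2 hH3 using hex
  have hprod := b6_prod (p := p) (B := B) hfin.toFinset H hH1
  have hEq : (fun g a => ∏ z ∈ hfin.toFinset, H z g a) = G₀ := by
    apply IsX.ext hF.gen hprod h₀
    intro z'
    funext a
    by_cases hz : ι z' ∈ N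
    · rw [hN1 _ hz]
      apply Finset.prod_eq_one
      intro z hzS
      rw [Set.Finite.mem_toFinset, Set.mem_ofPred_eq] at hzS
      apply hH3
      rintro rfl
      exact hzS hz
    · rw [Finset.prod_eq_single z']
      · exact hH2 z' a
      · intro z _ hne
        exact hH3 z z' hne.symm a
      · intro h
        exfalso
        apply h
        rw [Set.Finite.mem_toFinset, Set.mem_ofPred_eq]
        exact hz
  obtain ⟨a, ha⟩ := h₂
  rw [← hEq] at ha
  obtain ⟨z, hz, hza⟩ := Finset.exists_ne_one_of_prod_ne_one ha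
  intro f hf
  obtain ⟨G, hG, -, e⟩ := surj_one hF B hgood z s (H z) (hH1 z) (hH3 z) ⟨a, hza⟩ f hf
  exact ⟨G, hG, e⟩

end Pool.Agent.Helper64.FS
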