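import Pool.Agent.Helper64.FS.Defs
import Pool.Agent.Helper64.FS.A1
import Pool.Agent.Helper64.FS.A2
import Pool.Agent.Helper64.FS.B3
import Pool.Agent.Helper64.FS.B4
import Pool.Agent.Helper64.FS.B6

set_option autoImplicit false

namespace Pool.Agent.Helper64.FS

universe u v

variable {F : Type u} [Group F] [TopologicalSpace F] [IsTopologicalGroup F] [CompactSpace F]
  [T2Space F] [TotallyDisconnectedSpace F]

/-- (2.3) `exists_chi` (`C = frat p B`), `shapiro` (`K = N`), `surj_all`, and `γ b = G b 1`: `G s a = G (a⁻¹ s a) 1`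
by `IsX.conj`, `IsX.hom`. -/
theorem exists_gamma {p : ℕ} [Fact p.Prime] {X : Type v} {ι : X → F} (hF : IsFree p ι)
    (B : Subgroup F) [B.Normal] (hBc : IsClosed (B : Set F)) (hgood : Good p B) {s : F}
    (hs : s ∈ B) (hs' : s ∉ frat p B) :
    ∀ f ∈ V p B, ∃ γ : F → ZMod p, IsH B ⊥ γ ∧ ∀ a, γ (a⁻¹ * s * a) = f a := by
  intro f hf
  obtain ⟨N, hN, χ, hχ, hχ0, hχs⟩ := exists_chi (p := p) (B := B) (C := frat p B) inferInstance
    (frat_normal p B) (frat_closed p B) (frat_le_self hBc) (fun b hb => pow_mem_frat p hb)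
    (fun b hb b' hb' => comm_mem_frat p hb hb') hs hs'
  obtain ⟨G₀, hG₀, hG₀1, -⟩ := shapiro B (P := Multiplicative (ZMod p))
    (fun b => Multiplicative.ofAdd (χ b))
    (fun b hb b' hb' => by rw [hχ b hb b' hb', ofAdd_add]) N hN.2 (by
      intro g k hk hgk
      have hn := hN.1
      rw [hχ0 _ hgk (Subgroup.mem_sup_right (hn.conj_mem k hk g)), ofAdd_zero])
  obtain ⟨G, hG, hGs⟩ := surj_all hF B hgood s G₀ hG₀ ⟨1, by
    rw [hG₀1 s hs]
    intro h
    exact hχs (by simpa using h)⟩ f hf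
  have h11 : G 1 1 = 1 := by
    have h := hG.mul 1 1 1
    rw [mul_one, inv_one, mul_one] at h
    exact left_eq_mul.mp h
  have hinv : ∀ g, ∀ b ∈ B, G g b = G g 1 := by
    intro g b hb
    have h := hG.inv g 1 b hb
    rw [one_mul] at h
    exact h
  refine ⟨fun b => Multiplicative.toAdd (G b 1), ⟨?_, ?_, ?_⟩, ?_⟩
  · intro b hb b' hb'
    have h := hG.mul b b' 1
    rw [mul_one, hinv b' b⁻¹ (B.inv_mem hb)] at h
    change Multiplicative.toAdd (G (b * b') 1) = _
    rw [h, toAdd_mul]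
  · intro c hc
    rw [Subgroup.mem_bot] at hc
    change Multiplicative.toAdd (G c 1) = 0
    rw [hc, h11, toAdd_one]
  · obtain ⟨M, hM, -, hM'⟩ := hG.cont
    refine ⟨M, hM, fun b _ hbM => ?_⟩
    change Multiplicative.toAdd (G b 1) = 0
    rw [hM' b hbM 1, toAdd_one]
  · intro a
    have e1 : G (a⁻¹ * s * a) 1 = G s a := by
      have h1 := hG.mul a⁻¹ (s * a) 1
      have h2 := hG.mul s a a
      have h3 := hG.mul a⁻¹ a 1
      rw [inv_inv, mul_one] at h1 h3
      rw [inv_mul_cancel, h11] at h3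
      have hBn : B.Normal := inferInstance
      have h4 : G a (s⁻¹ * a) = G a a := by
        have h5 := hG.inv a a (a⁻¹ * s⁻¹ * a) (by
          have := hBn.conj_mem s⁻¹ (B.inv_mem hs) a⁻¹
          rwa [inv_inv] at this)
        rw [← h5]
        congr 1
        group
      rw [mul_assoc, h1, h2, h4, mul_comm (G s a) (G a a), ← mul_assoc, ← h3, one_mul]
    change Multiplicative.toAdd (G (a⁻¹ * s * a) 1) = f a
    rw [e1, hGs a, toAdd_ofAdd]

end Pool.Agent.Helper64.FS
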