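import Pool.Agent.Helper64.FS.Defs
import Pool.Agent.Helper85.PF.Defs
import Pool.Agent.Helper85.PF.St.A2

set_option autoImplicit false

namespace Pool.Agent.Helper64.FS

universe u

open Filter Topology

variable {X F : Type u} [Group F] [TopologicalSpace F] [IsTopologicalGroup F]

theorem ncl_eq_RN (r : F) : ncl r = Pool.Agent.Helper85.PF.RN r := rfl

theorem clS_eq_FY (ι : X → F) (Y : Set X) : clS ι Y = Pool.Agent.Helper85.PF.FY ι Y := rfl

theorem isFree_of_PF {p : ℕ} [Fact p.Prime] {ι : X → F}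
    (hF : Pool.Agent.Helper85.PF.IsFreeProP p ι) : IsFree p ι := by
  have := hF.isProP.compact
  have := hF.isProP.totDisc
  refine ⟨fun N hN => hF.isProP.index N hN.1 hN.2, fun N hN => ?_, ?_, ?_⟩
  · have h1 : (N : Set F) ∈ 𝓝 (1 : F) := hN.2.mem_nhds N.one_mem
    have h2 := hF.conv h1
    rw [mem_map, mem_cofinite] at h2
    exact h2
  · have h1 := Pool.Agent.Helper85.PF.FY_univ hF
    rw [Pool.Agent.Helper85.PF.FY, Set.image_univ] at h1
    exact h1
  · intro P _ _ hP f hf
    let _ : TopologicalSpace (ULift.{u} P) := ⊥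
    have : DiscreteTopology (ULift.{u} P) := ⟨rfl⟩
    have : IsTopologicalGroup (ULift.{u} P) := inferInstance
    have hPP : Pool.Agent.Helper85.PF.IsProP p (ULift.{u} P) := by
      refine ⟨inferInstance, inferInstance, fun U _ _ => ?_⟩
      have hP' : IsPGroup p (ULift.{u} P) := IsPGroup.of_equiv hP MulEquiv.ulift.symm
      obtain ⟨n, hn⟩ := (IsPGroup.iff_card.mp hP')
      have h3 : U.index ∣ p ^ n := by
        rw [← hn]
        exact U.index_dvd_card
      obtain ⟨k, -, hk⟩ := (Nat.dvd_prime_pow (Fact.out : p.Prime)).mp h3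
      exact ⟨k, hk⟩
    have hconv : Tendsto (fun x => (⟨f x⟩ : ULift.{u} P)) cofinite (𝓝 1) := by
      rw [nhds_discrete, tendsto_pure, eventually_cofinite]
      refine hf.subset ?_
      intro x hx hx'
      apply hx
      rw [hx']
      rfl
    obtain ⟨φ, ⟨hφ, hφx⟩, -⟩ := hF.univ (ULift.{u} P) hPP _ hconv
    refine ⟨MulEquiv.ulift.toMonoidHom.comp φ, ?_, fun x => ?_⟩
    · have h4 : ((MulEquiv.ulift.toMonoidHom.comp φ).ker : Set F) = φ ⁻¹' {1} := by
        ext g
        simp [MonoidHom.mem_ker]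
      rw [h4]
      exact (isOpen_discrete _).preimage hφ
    · simp only [MonoidHom.comp_apply, hφx x]
      rfl

end Pool.Agent.Helper64.FS
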