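import Pool.Agent.Helper64.FS.Defs
import Pool.Agent.Helper64.FS.A1
import Pool.Agent.Helper64.FS.A2
import Pool.Agent.Helper64.FS.A5

set_option autoImplicit false

namespace Pool.Agent.Helper64.FS

universe u v

variable {F : Type u} [Group F] [TopologicalSpace F] [IsTopologicalGroup F] [CompactSpace F]
  [T2Space F] [TotallyDisconnectedSpace F]

/-- Step 8. `s ∈ clS ι X'` and `t ∈ clS ι {x}ᶜ` are associated to `r`. Let `φ` be the continuous endomorphism
(`IsFree.exists_endo`) with `φ (ι z) = ι z` for `z ∈ X'`, `= 1` otherwise. `φ` is the identity on `clS ι X'`, `t₀ = φ t` is in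
`clS ι (X' \ {x})`. `s ∈ ncl t` gives `s = φ s ∈ ncl t₀` (the preimage of `ncl t₀` under `φ` is a closed normal subgroup
containing `t`), and `t ∈ ncl s` gives `t₀ ∈ ncl (φ s) = ncl s`. -/
theorem exists_assoc {p : ℕ} [Fact p.Prime] {X : Type v} {ι : X → F} (hF : IsFree p ι) {r : F}
    {X' : Set X} {x : X} (hs : ∃ s ∈ clS ι X', ncl s = ncl r)
    (ht : ∃ t ∈ clS ι {x}ᶜ, ncl t = ncl r) : ∃ t ∈ clS ι (X' \ {x}), ncl t = ncl r := by
  classical
  obtain ⟨s, hsX, hsr⟩ := hs
  obtain ⟨t, htX, htr⟩ := ht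
  obtain ⟨φ, hφ, hφι⟩ := hF.exists_endo (fun z => if z ∈ X' then ι z else 1) (fun N hN => by
    refine (hF.conv N hN).subset fun z hz => ?_
    simp only [Set.mem_setOf_eq] at hz ⊢
    split_ifs at hz with hzX
    · exact hz
    · exact absurd N.one_mem hz)
  have hid : ∀ g ∈ clS ι X', φ g = g := by
    let S : Subgroup F :=
      { carrier := {g | φ g = g}
        mul_mem' := by
          intro a b ha hb
          simp only [Set.mem_setOf_eq] at ha hb ⊢
          rw [map_mul, ha, hb]
        one_mem' := map_one φ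
        inv_mem' := by
          intro a ha
          simp only [Set.mem_setOf_eq] at ha ⊢
          rw [map_inv, ha] }
    have hScl : IsClosed (S : Set F) := isClosed_eq hφ continuous_id
    have : clS ι X' ≤ S := clS_le hScl fun y hy => by
      change φ (ι y) = ι y
      rw [hφι, if_pos hy]
    exact fun g hg => this hg
  have hφt : φ t ∈ clS ι (X' \ {x}) := by
    have hcl : IsClosed (((clS ι (X' \ {x})).comap φ : Subgroup F) : Set F) :=
      (clS_closed ι (X' \ {x})).preimage hφ
    have : clS ι {x}ᶜ ≤ (clS ι (X' \ {x})).comap φ := clS_le hcl fun y hy => by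
      rw [Subgroup.mem_comap, hφι]
      by_cases hyX : y ∈ X'
      · rw [if_pos hyX]
        exact mem_clS ι ⟨hyX, hy⟩
      · rw [if_neg hyX]
        exact Subgroup.one_mem _
    exact this htX
  have hncl : ∀ a : F, ncl a ≤ (ncl (φ a)).comap φ := by
    intro a
    have hn : (ncl (φ a)).Normal := ncl_normal (φ a)
    exact ncl_le (hn.comap φ) ((ncl_closed (φ a)).preimage hφ) (mem_ncl (φ a))
  refine ⟨φ t, hφt, ?_⟩
  have h1 : s ∈ ncl (φ t) := by
    have : s ∈ ncl t := by
      rw [htr, ← hsr]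
      exact mem_ncl s
    have := hncl t this
    rwa [Subgroup.mem_comap, hid s hsX] at this
  have h2 : φ t ∈ ncl s := by
    have : t ∈ ncl s := by
      rw [hsr, ← htr]
      exact mem_ncl t
    have := hncl s this
    rwa [Subgroup.mem_comap, hid s hsX] at this
  rw [← hsr]
  exact le_antisymm (ncl_le (ncl_normal s) (ncl_closed s) h2)
    (ncl_le (ncl_normal _) (ncl_closed _) h1)

/-- For a minimal `X'` and `x ∈ X'` no element of `clS ι {x}ᶜ` is associated to `r`. -/
theorem no_assoc {p : ℕ} [Fact p.Prime] {X : Type v} {ι : X → F} (hF : IsFree p ι) {r : F}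
    {X' : Set X} (hX' : Minimal (fun Y : Set X => ∃ s ∈ clS ι Y, ncl s = ncl r) X') {x : X}
    (hx : x ∈ X') : ∀ t ∈ clS ι {x}ᶜ, ncl t ≠ ncl r := by
  intro t ht htr
  have h := exists_assoc hF hX'.1 ⟨t, ht, htr⟩
  have h2 := hX'.2 h (fun z hz => hz.1)
  exact (h2 hx).2 rfl

end Pool.Agent.Helper64.FS
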