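import Pool.Agent.Helper64.FS.Defs

set_option autoImplicit false

namespace Pool.Agent.Helper64.FS

universe u v

variable {F : Type u} [Group F] [TopologicalSpace F]

variable {p : ℕ} {B C : Subgroup F}

theorem lam_zero {f : F → ZMod p} : f ∈ Lam p B C 0 ↔ f = 0 := by
  exact Submodule.mem_bot _

theorem lam_succ {j : ℕ} {f : F → ZMod p} :
    f ∈ Lam p B C (j + 1) ↔ f ∈ V p C ∧ ∀ b ∈ B, Df p b f ∈ Lam p B C j := by
  exact Iff.rfl

theorem lam_le_V (j : ℕ) : Lam p B C j ≤ V p C := by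
  intro f hf
  cases j with
  | zero =>
    rw [lam_zero.1 hf]
    exact Submodule.zero_mem _
  | succ j => exact hf.1

theorem lam_mono {i j : ℕ} (h : i ≤ j) : Lam p B C i ≤ Lam p B C j := by
  have hstep : ∀ j, Lam p B C j ≤ Lam p B C (j + 1) := by
    intro j
    induction j with
    | zero =>
      intro f hf
      rw [lam_zero.1 hf]
      exact Submodule.zero_mem _
    | succ j ih =>
      intro f hf
      exact ⟨hf.1, fun b hb => ih (hf.2 b hb)⟩
  exact monotone_nat_of_le_succ hstep h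

theorem lam_one (hCB : C ≤ B) {f : F → ZMod p} : f ∈ Lam p B C 1 ↔ f ∈ V p B := by
  constructor
  · intro hf
    refine ⟨hf.1.1, fun u b hb => ?_⟩
    have h := congrFun (lam_zero.1 (hf.2 b hb)) u
    rw [Df_apply] at h
    exact sub_eq_zero.1 h
  · intro hf
    refine ⟨⟨hf.1, fun u c hc => hf.2 u c (hCB hc)⟩, fun b hb => ?_⟩
    rw [lam_zero]
    funext u
    rw [Df_apply, hf.2 u b hb, sub_self]
    rfl

theorem V_mono (hCB : C ≤ B) : V p B ≤ V p C := by
  intro f hf
  exact ⟨hf.1, fun u c hc => hf.2 u c (hCB hc)⟩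

theorem V_rho [C.Normal] (g : F) {f : F → ZMod p} (hf : f ∈ V p C) : rho p g f ∈ V p C := by
  obtain ⟨⟨N, hN, h1⟩, h2⟩ := hf
  have hnorm : ∀ (S : Subgroup F), S.Normal → ∀ n ∈ S, g⁻¹ * n * g ∈ S := by
    intro S hS n hn
    simpa using hS.conj_mem n hn g⁻¹
  refine ⟨⟨N, hN, fun u n hn => ?_⟩, fun u c hc => ?_⟩
  · rw [rho_apply, rho_apply]
    have := h1 (u * g) (g⁻¹ * n * g) (hnorm N hN.1 n hn)
    rw [← this]
    congr 1
    group
  · rw [rho_apply, rho_apply]
    have := h2 (u * g) (g⁻¹ * c * g) (hnorm C inferInstance c hc)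
    rw [← this]
    congr 1
    group

theorem V_Df [C.Normal] (g : F) {f : F → ZMod p} (hf : f ∈ V p C) : Df p g f ∈ V p C := by
  have : Df p g f = rho p g f - f := rfl
  rw [this]
  exact Submodule.sub_mem _ (V_rho g hf) hf

theorem Df_rho (n g : F) (f : F → ZMod p) :
    Df p n (rho p g f) = rho p g (Df p (g⁻¹ * n * g) f) := by
  funext u
  simp only [Df_apply, rho_apply]
  congr 2
  group

theorem Df_mul (b b' : F) (f : F → ZMod p) :
    Df p (b * b') f = Df p b f + Df p b' f + Df p b (Df p b' f) := by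
  funext u
  simp only [Df_apply, Pi.add_apply, mul_assoc]
  ring

theorem Df_comm (hcomm : ∀ b ∈ B, ∀ b' ∈ B, b * b' * b⁻¹ * b'⁻¹ ∈ C) {f : F → ZMod p}
    (hf : f ∈ V p C) {b b' : F} (hb : b ∈ B) (hb' : b' ∈ B) :
    Df p b (Df p b' f) = Df p b' (Df p b f) := by
  funext u
  have h : f (u * b * b') = f (u * b' * b) := by
    have hc : b⁻¹ * b'⁻¹ * (b⁻¹)⁻¹ * (b'⁻¹)⁻¹ ∈ C := hcomm _ (B.inv_mem hb) _ (B.inv_mem hb')
    rw [← hf.2 (u * b' * b) _ hc]
    congr 1
    group
  simp only [Df_apply]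
  rw [h]
  ring

theorem lam_rho [B.Normal] [C.Normal] (g : F) {j : ℕ} {f : F → ZMod p} (hf : f ∈ Lam p B C j) :
    rho p g f ∈ Lam p B C j := by
  induction j generalizing f with
  | zero =>
    rw [lam_zero.1 hf, map_zero]
    exact Submodule.zero_mem _
  | succ j ih =>
    refine ⟨V_rho g hf.1, fun b hb => ?_⟩
    rw [Df_rho]
    apply ih
    apply hf.2
    have hB : B.Normal := inferInstance
    simpa using hB.conj_mem b hb g⁻¹

theorem lam_Df {j : ℕ} {f : F → ZMod p} (hf : f ∈ Lam p B C (j + 1)) {b : F} (hb : b ∈ B) :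
    Df p b f ∈ Lam p B C j := by
  exact hf.2 b hb

/-- For `f ∈ Lam (j + 2)` the map `b ↦ Df b f` is additive modulo `Lam j`. -/
theorem lam_add {j : ℕ} {f : F → ZMod p} (hf : f ∈ Lam p B C (j + 2)) {b b' : F} (hb : b ∈ B)
    (hb' : b' ∈ B) : Df p (b * b') f - Df p b f - Df p b' f ∈ Lam p B C j := by
  rw [Df_mul]
  have h : Df p b f + Df p b' f + Df p b (Df p b' f) - Df p b f - Df p b' f
      = Df p b (Df p b' f) := by abel
  rw [h]
  exact lam_Df (lam_Df hf hb') hb

theorem lam_subgroup {j : ℕ} {f : F → ZMod p} (hf : f ∈ Lam p B C (j + 2)) :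
    ∃ S : Subgroup F, ∀ b, b ∈ S ↔ b ∈ B ∧ Df p b f ∈ Lam p B C j := by
  refine ⟨{ carrier := {b | b ∈ B ∧ Df p b f ∈ Lam p B C j}
            mul_mem' := ?_
            one_mem' := ?_
            inv_mem' := ?_ }, fun b => Iff.rfl⟩
  · rintro b b' ⟨hb, hbf⟩ ⟨hb', hbf'⟩
    refine ⟨B.mul_mem hb hb', ?_⟩
    rw [Df_mul]
    exact Submodule.add_mem _ (Submodule.add_mem _ hbf hbf') (lam_Df (lam_Df hf hb') hb)
  · refine ⟨B.one_mem, ?_⟩
    have h1 : Df p (1 : F) f = 0 := by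
      funext u
      simp [Df_apply]
    rw [h1]
    exact Submodule.zero_mem _
  · rintro b ⟨hb, hbf⟩
    refine ⟨B.inv_mem hb, ?_⟩
    have h1 : Df p (1 : F) f = 0 := by
      funext u
      simp [Df_apply]
    have h2 := Df_mul (p := p) b⁻¹ b f
    rw [inv_mul_cancel, h1] at h2
    have h3 : Df p b⁻¹ f = -(Df p b f + Df p b⁻¹ (Df p b f)) := by
      rw [eq_neg_iff_add_eq_zero, h2]
      abel
    rw [h3]
    exact Submodule.neg_mem _
      (Submodule.add_mem _ hbf (lam_Df (lam_Df hf hb) (B.inv_mem hb)))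

theorem lam_pow {j : ℕ} {f : F → ZMod p} (hf : f ∈ Lam p B C (j + 2)) {b : F} (hb : b ∈ B) :
    Df p (b ^ p) f ∈ Lam p B C j := by
  have key : ∀ n : ℕ, Df p (b ^ n) f - n • Df p b f ∈ Lam p B C j := by
    intro n
    induction n with
    | zero =>
      have h1 : Df p (b ^ 0) f = 0 := by
        funext u
        simp [Df_apply]
      rw [h1, zero_smul, sub_zero]
      exact Submodule.zero_mem _
    | succ n ih =>
      have h := lam_add hf (B.pow_mem hb n) hb
      have h2 : Df p (b ^ (n + 1)) f - (n + 1) • Df p b f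
          = (Df p (b ^ n * b) f - Df p (b ^ n) f - Df p b f) + (Df p (b ^ n) f - n • Df p b f) := by
        rw [pow_succ, add_smul, one_smul]
        abel
      rw [h2]
      exact Submodule.add_mem _ h ih
  have hp : (p : ℕ) • Df p b f = 0 := by
    funext u
    rw [Pi.smul_apply, nsmul_eq_mul, ZMod.natCast_self, zero_mul]
    rfl
  have := key p
  rwa [hp, sub_zero] at this

theorem T_Df {T : (F → ZMod p) →ₗ[ZMod p] (F → ZMod p)}
    (hT : ∀ g, ∀ f ∈ V p C, T (rho p g f) = rho p g (T f)) (g : F) {f : F → ZMod p}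
    (hf : f ∈ V p C) : T (Df p g f) = Df p g (T f) := by
  have h1 : ∀ f' : F → ZMod p, Df p g f' = rho p g f' - f' := fun _ => rfl
  rw [h1, h1, map_sub, hT g f hf]

theorem T_lam {T : (F → ZMod p) →ₗ[ZMod p] (F → ZMod p)} (hTV : ∀ f ∈ V p C, T f ∈ V p C)
    (hT : ∀ g, ∀ f ∈ V p C, T (rho p g f) = rho p g (T f)) {κ : ℕ}
    (hκ : ∀ f ∈ Lam p B C κ, T f = 0) : ∀ j, ∀ f ∈ Lam p B C (j + κ), T f ∈ Lam p B C j := by
  intro j
  induction j with
  | zero =>
    intro f hf
    rw [zero_add] at hf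
    rw [hκ f hf]
    exact Submodule.zero_mem _
  | succ j ih =>
    intro f hf
    have hf' : f ∈ Lam p B C (j + κ + 1) := by
      have h : j + 1 + κ = j + κ + 1 := by omega
      rwa [h] at hf
    refine ⟨hTV f hf'.1, fun b hb => ?_⟩
    rw [← T_Df hT b hf'.1]
    exact ih _ (hf'.2 b hb)

end Pool.Agent.Helper64.FS
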