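import Pool.Agent.Helper64.FS.Defs
import Pool.Agent.Helper64.FS.A1
import Pool.Agent.Helper64.FS.E0

set_option autoImplicit false

namespace Pool.Agent.Helper64.FS

universe u v

variable {F : Type u} [Group F] [TopologicalSpace F] [IsTopologicalGroup F] [CompactSpace F]
  [T2Space F] [TotallyDisconnectedSpace F]

/-- For `h` right invariant under the open normal `N` the function `(a, b) ↦ h (a * b)` is a finite combination of
products `1_q (a) * 1_q' (b)` of indicator functions of cosets of `N`, so functionals can be interchanged. -/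
theorem interchange {p : ℕ} (C : Subgroup F) [C.Normal] (μ ν : (F → ZMod p) →ₗ[ZMod p] ZMod p)
    {h : F → ZMod p} (hh : h ∈ V p C) :
    μ (fun a => ν (fun b => h (a * b))) = ν (fun b => μ (fun a => h (a * b))) := by
  classical
  obtain ⟨⟨N, hN, hinv⟩, -⟩ := hh
  haveI := hN.finite
  haveI : Fintype (F ⧸ N) := Fintype.ofFinite _
  set ind : (F ⧸ N) → F → ZMod p := fun q b => if (QuotientGroup.mk b : F ⧸ N) = q then 1 else 0 with hind
  have key : ∀ a b : F, h (a * b) = h (a * (QuotientGroup.mk b : F ⧸ N).out) := by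
    intro a b
    obtain ⟨n, hn⟩ := QuotientGroup.mk_out_eq_mul N b
    rw [hn, ← mul_assoc, hinv _ _ n.2]
  have dec : ∀ g : F → ZMod p, (∀ b, g b = g (QuotientGroup.mk b : F ⧸ N).out) →
      g = ∑ q : F ⧸ N, g q.out • ind q := by
    intro g hg
    funext b
    rw [Finset.sum_apply, hg b]
    simp [hind]
  have h1 : ∀ a, ν (fun b => h (a * b)) = ∑ q : F ⧸ N, h (a * q.out) * ν (ind q) := by
    intro a
    rw [dec (fun b => h (a * b)) (fun b => key a b), map_sum]
    simp [smul_eq_mul]
  have h2 : (fun a => ν (fun b => h (a * b))) = ∑ q : F ⧸ N, ν (ind q) • (fun a => h (a * q.out)) := by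
    funext a
    rw [h1, Finset.sum_apply]
    refine Finset.sum_congr rfl fun q _ => ?_
    simp [mul_comm]
  have h3 : ∀ b, μ (fun a => h (a * b)) = μ (fun a => h (a * (QuotientGroup.mk b : F ⧸ N).out)) := by
    intro b
    congr 1
    funext a
    exact key a b
  rw [h2, dec (fun b => μ (fun a => h (a * b))) h3, map_sum, map_sum]
  refine Finset.sum_congr rfl fun q _ => ?_
  rw [map_smul, map_smul, smul_eq_mul, smul_eq_mul, mul_comm]

/-- Let `μ * ν = 0`. `T h b = μ (fun a => h (a * b))` is linear, maps `V p C` to itself and commutes with `rho`, and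
`ν (T h) = 0` (`interchange`). If `T = 0` on `V p C` then `μ h = T h 1 = 0`; otherwise `T` is surjective and `ν = 0`. -/
theorem nozd_of_good {p : ℕ} [Fact p.Prime] (C : Subgroup F) [C.Normal] (h : Good p C) :
    NoZD p C := by
  intro μ ν hμν
  let T : (F → ZMod p) →ₗ[ZMod p] (F → ZMod p) :=
    { toFun := fun f b => μ (fun a => f (a * b))
      map_add' := by
        intro f g
        funext b
        simp only [Pi.add_apply]
        rw [← map_add]
        rfl
      map_smul' := by
        intro c f
        funext b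
        simp only [Pi.smul_apply, RingHom.id_apply]
        rw [← map_smul]
        rfl }
  have hT : ∀ f b, T f b = μ (fun a => f (a * b)) := fun _ _ => rfl
  have hV : ∀ f ∈ V p C, T f ∈ V p C := by
    rintro f ⟨⟨N, hN, h1⟩, h2⟩
    refine ⟨⟨N, hN, fun u n hn => ?_⟩, fun u b hb => ?_⟩
    · rw [hT, hT]
      congr 1
      funext a
      rw [← mul_assoc, h1 _ _ hn]
    · rw [hT, hT]
      congr 1
      funext a
      rw [← mul_assoc, h2 _ _ hb]
  have hrho : ∀ g, ∀ f ∈ V p C, T (rho p g f) = rho p g (T f) := by
    intro g f _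
    funext b
    rw [rho_apply, hT, hT]
    congr 1
    funext a
    rw [rho_apply, mul_assoc]
  have hν : ∀ f ∈ V p C, ν (T f) = 0 := by
    intro f hf
    have := interchange C μ ν hf
    rw [hμν f hf] at this
    exact this.symm
  by_cases hne : ∃ f ∈ V p C, T f ≠ 0
  · right
    intro f hf
    obtain ⟨f', hf', rfl⟩ := h T hV hrho hne f hf
    exact hν f' hf'
  · left
    push Not at hne
    intro f hf
    have := congrFun (hne f hf) 1
    rw [hT] at this
    simpa using this

/-- Let `T` be given, not surjective; there is a functional `ν` which is non-zero on `V p C` and kills `T (V p C)`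
(`Submodule.exists_le_ker_of_lt_top` or `Submodule.exists_dual_map_eq_bot…`, vector spaces). Put `μ h = T h 1` on `V p C`. As
`T h b = (rho b (T h)) 1 = T (rho b h) 1`, `(μ * ν) h = ν (T h) = 0`. -/
theorem good_of_nozd {p : ℕ} [Fact p.Prime] (C : Subgroup F) [C.Normal] (h : NoZD p C) :
    Good p C := by
  intro T hV hrho hne f hf
  by_contra hcon
  push Not at hcon
  have hnot : f ∉ (V p C).map T := by
    rintro ⟨f', hf', hf''⟩
    exact hcon f' hf' hf''
  obtain ⟨ν, hν, hν'⟩ := Submodule.exists_dual_map_eq_bot_of_notMem hnot inferInstance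
  have hνT : ∀ g ∈ V p C, ν (T g) = 0 := by
    intro g hg
    have : ν (T g) ∈ ((V p C).map T).map ν := ⟨T g, ⟨g, hg, rfl⟩, rfl⟩
    rw [hν'] at this
    simpa using this
  let μ : (F → ZMod p) →ₗ[ZMod p] ZMod p := (LinearMap.proj (1 : F)).comp T
  have hμ : ∀ g, μ g = T g 1 := fun _ => rfl
  have hTb : ∀ g ∈ V p C, ∀ b, T g b = μ (fun a => g (a * b)) := by
    intro g hg b
    have h1 := congrFun (hrho b g hg) 1
    rw [rho_apply, one_mul] at h1
    rw [hμ, ← h1]
    rfl
  have hconv : ∀ g ∈ V p C, μ (fun a => ν (fun b => g (a * b))) = 0 := by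
    intro g hg
    rw [interchange C μ ν hg]
    have : (fun b => μ (fun a => g (a * b))) = T g := by
      funext b
      exact (hTb g hg b).symm
    rw [this]
    exact hνT g hg
  rcases h μ ν hconv with h1 | h1
  · obtain ⟨g, hg, hgne⟩ := hne
    apply hgne
    funext b
    rw [hTb g hg b]
    exact h1 _ (V_rho b hg)
  · exact hν (h1 f hf)

end Pool.Agent.Helper64.FS
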