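import Pool.Agent.Helper64.FS.Defs
import Pool.Agent.Helper64.FS.A1

set_option autoImplicit false

namespace Pool.Agent.Helper64.FS

universe u v

variable {F : Type u} [Group F] [TopologicalSpace F] [IsTopologicalGroup F] [CompactSpace F]
  [T2Space F] [TotallyDisconnectedSpace F]

/-- A non-trivial normal subgroup of a finite `p`-group contains a central element of order `p`. -/
private theorem exists_central {p : ℕ} [Fact p.Prime] {Q : Type*} [Group Q] [Finite Q]
    (hQ : IsPGroup p Q) (M : Subgroup Q) [M.Normal] (hM : M ≠ ⊥) :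
    ∃ z ∈ M, z ≠ 1 ∧ z ^ p = 1 ∧ ∀ g, g * z = z * g := by
  have hp := (Fact.out : p.Prime)
  have hMp : IsPGroup p M := hQ.to_subgroup _
  have hdvd : p ∣ Nat.card M := by
    rcases hMp.card_eq_or_dvd with h | h
    · exact absurd (Subgroup.card_eq_one.1 h) hM
    · exact h
  have hCQ : IsPGroup p (ConjAct Q) := hQ.of_equiv ConjAct.toConjAct
  obtain ⟨b, hb, hb1⟩ := hCQ.exists_fixed_point_of_prime_dvd_card_of_fixed_point (α := M) hdvd
    (a := 1) (fun g => smul_one g)
  have hbc : ∀ g : Q, g * (b : Q) = b * g := by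
    intro g
    have h1 := congrArg (Subtype.val) (hb (ConjAct.toConjAct g))
    rw [ConjAct.Subgroup.val_conj_smul, ConjAct.toConjAct_smul] at h1
    exact mul_inv_eq_iff_eq_mul.1 h1
  have hbne : (b : Q) ≠ 1 := fun h => hb1 (Subtype.ext h.symm)
  obtain ⟨k, hk⟩ := hQ (b : Q)
  have hex : ∃ k : ℕ, (b : Q) ^ p ^ k = 1 := ⟨k, hk⟩
  classical
  have h0 : Nat.find hex ≠ 0 := by
    intro h
    have h2 := Nat.find_spec hex
    rw [h, pow_zero, pow_one] at h2
    exact hbne h2
  obtain ⟨m, hm⟩ := Nat.exists_eq_succ_of_ne_zero h0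
  refine ⟨(b : Q) ^ p ^ m, M.pow_mem b.2 _, ?_, ?_, ?_⟩
  · exact Nat.find_min hex (by rw [hm]; exact Nat.lt_succ_self m)
  · have h2 := Nat.find_spec hex
    rw [hm, Nat.succ_eq_add_one, pow_succ, pow_mul] at h2
    exact h2
  · intro g
    exact (Commute.pow_right (hbc g) _).eq

/-- Take `T < N` maximal among the normal subgroups of `P` properly contained in `N` (finiteness).
`N / T` is a non-trivial normal subgroup of the `p`-group `P / T`, so it meets the centre non-trivially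
(count fixed points of the conjugation action, `IsPGroup.card_modEq_card_fixedPoints`). By maximality
(`T < T' ≤ N` normal gives `T' = N`) `N / T` is central, and it is generated by any element `≠ 1`; take an
element of order `p`. Equivalently: for `z ∈ N ∖ T` central modulo `T` with `z ^ p ∈ T`, the subgroup
`T ⊔ zpowers z` is normal, so it is `N`. -/
theorem pgroup_step {p : ℕ} [Fact p.Prime] {P : Type*} [Group P] [Finite P] (hP : IsPGroup p P)
    (N : Subgroup P) [N.Normal] (hN : N ≠ ⊥) :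
    ∃ T : Subgroup P, T.Normal ∧ T < N ∧ (∀ n ∈ N, ∀ g, n * g * n⁻¹ * g⁻¹ ∈ T) ∧
      ∀ n ∈ N, n ^ p ∈ T := by
  have hp := (Fact.out : p.Prime)
  obtain ⟨T, ⟨hTn, hTN⟩, hmin⟩ := (measure (fun T : Subgroup P => T.index)).wf.has_min
    {T : Subgroup P | T.Normal ∧ T < N} ⟨⊥, inferInstance, bot_lt_iff_ne_bot.2 hN⟩
  have hQ : IsPGroup p (P ⧸ T) := hP.to_quotient T
  obtain ⟨z, hzN, hz1, hzp, hzc⟩ := exists_central hQ (N.map (QuotientGroup.mk' T))
    (by
      intro h
      rw [Subgroup.map_eq_bot_iff, QuotientGroup.ker_mk'] at h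
      exact absurd hTN (not_lt_of_ge h))
  have hzn : (Subgroup.zpowers z).Normal := by
    refine ⟨fun x hx g => ?_⟩
    obtain ⟨i, rfl⟩ := Subgroup.mem_zpowers_iff.1 hx
    have h2 : Commute g (z ^ i) := Commute.zpow_right (hzc g) i
    rw [h2.eq, mul_inv_cancel_right]
    exact hx
  have hTT' : T < (Subgroup.zpowers z).comap (QuotientGroup.mk' T) := by
    refine lt_of_le_of_ne (fun g hg => ?_) (fun h => ?_)
    · rw [Subgroup.mem_comap]
      have : QuotientGroup.mk' T g = 1 := (QuotientGroup.eq_one_iff g).2 hg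
      rw [this]
      exact Subgroup.one_mem _
    · obtain ⟨g, hg⟩ := QuotientGroup.mk'_surjective T z
      have h2 : g ∈ (Subgroup.zpowers z).comap (QuotientGroup.mk' T) := by
        rw [Subgroup.mem_comap, hg]
        exact Subgroup.mem_zpowers _
      rw [← h] at h2
      exact hz1 (by rw [← hg]; exact (QuotientGroup.eq_one_iff g).2 h2)
  have hT'N : (Subgroup.zpowers z).comap (QuotientGroup.mk' T) ≤ N := by
    intro g hg
    rw [Subgroup.mem_comap] at hg
    have h2 : QuotientGroup.mk' T g ∈ N.map (QuotientGroup.mk' T) :=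
      (Subgroup.zpowers_le.2 hzN) hg
    obtain ⟨n, hn, hng⟩ := h2
    have h3 : n⁻¹ * g ∈ T := QuotientGroup.eq.1 hng
    have h4 := N.mul_mem hn (hTN.le h3)
    rwa [mul_inv_cancel_left] at h4
  have hNT' : N ≤ (Subgroup.zpowers z).comap (QuotientGroup.mk' T) := by
    by_contra h
    exact hmin _ ⟨hzn.comap _, lt_of_le_of_ne hT'N (fun h' => h h'.ge)⟩
      (Subgroup.index_strictAnti hTT')
  refine ⟨T, hTn, hTN, fun n hn g => ?_, fun n hn => ?_⟩
  · obtain ⟨i, hi⟩ := Subgroup.mem_zpowers_iff.1 (Subgroup.mem_comap.1 (hNT' hn))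
    rw [← QuotientGroup.eq_one_iff]
    change QuotientGroup.mk' T (n * g * n⁻¹ * g⁻¹) = 1
    rw [map_mul, map_mul, map_mul, map_inv, map_inv, ← hi]
    have h2 : Commute (QuotientGroup.mk' T g) (z ^ i) := Commute.zpow_right (hzc _) i
    rw [← h2.eq, mul_inv_cancel_right, mul_inv_cancel]
  · obtain ⟨i, hi⟩ := Subgroup.mem_zpowers_iff.1 (Subgroup.mem_comap.1 (hNT' hn))
    rw [← QuotientGroup.eq_one_iff]
    change QuotientGroup.mk' T (n ^ p) = 1
    rw [map_pow, ← hi, ← zpow_natCast, ← zpow_mul, mul_comm, zpow_mul, zpow_natCast, hzp, one_zpow]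

/-- Take `g ∈ R ∖ S`, `N` open normal with `g ∉ S ⊔ N`, and apply `pgroup_step` to the image of `R` in
`F ⧸ (S ⊔ N)` (`ON.isPGroup`, `ON.finite`, `ON.sup`); `T` is the preimage (it contains the open subgroup
`S ⊔ N`). -/
theorem exists_step {p : ℕ} [Fact p.Prime] (hp : PIndex p F) {S R : Subgroup F} (hSn : S.Normal)
    (hRn : R.Normal) (hS : IsClosed (S : Set F)) (hSR : S ≤ R) (hne : S ≠ R) :
    ∃ T : Subgroup F, ON T ∧ S ≤ T ∧ ¬ R ≤ T ∧ (∀ n ∈ R, ∀ g, n * g * n⁻¹ * g⁻¹ ∈ T) ∧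
      ∀ n ∈ R, n ^ p ∈ T := by
  have hRS : ¬ R ≤ S := fun h => hne (le_antisymm hSR h)
  obtain ⟨g, hgR, hgS⟩ := Set.not_subset.1 hRS
  obtain ⟨N, hN, hgN⟩ := exists_ON_not_mem hS hgS
  have hSN : ON (S ⊔ N) := ON.sup hSn hN
  have := hSN.1
  have := hSN.finite
  have hP : IsPGroup p (F ⧸ (S ⊔ N)) := hSN.isPGroup hp
  set π := QuotientGroup.mk' (S ⊔ N) with hπ
  have hπs : Function.Surjective π := QuotientGroup.mk'_surjective _
  have hRn' : (R.map π).Normal := hRn.map π hπs
  obtain ⟨T, hTn, hTR, hc, hpw⟩ := pgroup_step hP (R.map π) (by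
    intro h
    rw [Subgroup.map_eq_bot_iff, hπ, QuotientGroup.ker_mk'] at h
    exact hgN (h hgR))
  have hle : S ⊔ N ≤ T.comap π := by
    intro x hx
    rw [Subgroup.mem_comap]
    have h2 : π x = 1 := (QuotientGroup.eq_one_iff x).2 hx
    rw [h2]
    exact T.one_mem
  refine ⟨T.comap π, ⟨hTn.comap π, Subgroup.isOpen_mono hle hSN.2⟩, le_sup_left.trans hle,
    fun h => ?_, fun n hn g => ?_, fun n hn => ?_⟩
  · refine absurd hTR (not_lt_of_ge ?_)
    rw [Subgroup.map_le_iff_le_comap]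
    exact h
  · rw [Subgroup.mem_comap, map_mul, map_mul, map_mul, map_inv, map_inv]
    exact hc _ (Subgroup.mem_map_of_mem π hn) _
  · rw [Subgroup.mem_comap, map_pow]
    exact hpw _ (Subgroup.mem_map_of_mem π hn)

end Pool.Agent.Helper64.FS
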