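import Pool.Agent.Helper64.FS.Defs
import Pool.Agent.Helper64.FS.A1
import Pool.Agent.Helper64.FS.A2
import Pool.Agent.Helper64.FS.A3

set_option autoImplicit false

namespace Pool.Agent.Helper64.FS

universe u v

variable {F : Type u} [Group F] [TopologicalSpace F] [IsTopologicalGroup F] [CompactSpace F]
  [T2Space F] [TotallyDisconnectedSpace F]

omit [IsTopologicalGroup F] [CompactSpace F] [TotallyDisconnectedSpace F] in
private theorem bot_closed : IsClosed ((⊥ : Subgroup F) : Set F) := by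
  rw [Subgroup.coe_bot]
  exact isClosed_singleton

/-- `exists_step` with `S = ⊥`. -/
theorem cder_ne {p : ℕ} [Fact p.Prime] (hp : PIndex p F) {B : Subgroup F} (hn : B.Normal)
    (hB : B ≠ ⊥) : cder B ≠ B := by
  intro h
  obtain ⟨T, hT, _, hBT, hc, _⟩ := exists_step hp (S := ⊥) (R := B) inferInstance hn bot_closed
    bot_le (Ne.symm hB)
  apply hBT
  rw [← h]
  exact cder_le (isClosed_of_ON_le hT le_rfl) fun a ha b _ => hc a ha b

/-- `exists_step`: `T` contains `S` and `cder B` and is closed. -/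
theorem eq_of_le_closure {p : ℕ} [Fact p.Prime] (hp : PIndex p F) {S B : Subgroup F}
    (hSn : S.Normal) (hBn : B.Normal) (hS : IsClosed (S : Set F)) (hSB : S ≤ B)
    (h : B ≤ (S ⊔ cder B).topologicalClosure) : S = B := by
  by_contra hne
  obtain ⟨T, hT, hST, hBT, hc, _⟩ := exists_step hp hSn hBn hS hSB hne
  have hTc : IsClosed (T : Set F) := isClosed_of_ON_le hT le_rfl
  apply hBT
  refine h.trans (Subgroup.topologicalClosure_minimal _ (sup_le hST ?_) hTc)
  exact cder_le hTc fun a ha b _ => hc a ha b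

/-- `exists_step` with `S = ⊥`, `R = ncl r`: `T` contains `fratF p (ncl r)` but not `r`. -/
theorem not_mem_fratF {p : ℕ} [Fact p.Prime] (hp : PIndex p F) {r : F} (hr : r ≠ 1) :
    r ∉ fratF p (ncl r) := by
  intro h
  have hne : (⊥ : Subgroup F) ≠ ncl r := by
    intro h1
    have h2 := mem_ncl r
    rw [← h1, Subgroup.mem_bot] at h2
    exact hr h2
  obtain ⟨T, hT, _, hBT, hc, hpw⟩ := exists_step hp (S := ⊥) (R := ncl r) inferInstance
    (ncl_normal r) bot_closed bot_le hne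
  have hTc : IsClosed (T : Set F) := isClosed_of_ON_le hT le_rfl
  exact hBT (ncl_le hT.1 hTc (fratF_le hTc hc hpw h))

omit [CompactSpace F] [T2Space F] [TotallyDisconnectedSpace F] in
private theorem ncl_sub {p : ℕ} [Fact p.Prime] {r s : F} (hs : s ∈ ncl r) :
    ∃ k : ℕ, k < p ∧ (r ^ k)⁻¹ * s ∈ fratF p (ncl r) := by
  have hp0 : 0 < p := (Fact.out : p.Prime).pos
  have hn := ncl_normal r
  have hΦ : (fratF p (ncl r)).Normal := fratF_normal p (ncl r)
  have hrp : r ^ p ∈ fratF p (ncl r) := pow_mem_fratF p (mem_ncl r)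
  have key : ∀ g : F, g ∈ Subgroup.zpowers r ⊔ fratF p (ncl r) ↔
      ∃ k : ℕ, k < p ∧ (r ^ k)⁻¹ * g ∈ fratF p (ncl r) := by
    intro g
    constructor
    · intro hg
      have hg' : g ∈ ((Subgroup.zpowers r ⊔ fratF p (ncl r) : Subgroup F) : Set F) := hg
      rw [Subgroup.mul_normal] at hg'
      obtain ⟨y, hy, z, hz, rfl⟩ := Set.mem_mul.1 hg'
      obtain ⟨i, rfl⟩ := Subgroup.mem_zpowers_iff.1 hy
      have hp0' : (p : ℤ) ≠ 0 := by exact_mod_cast hp0.ne'
      refine ⟨(i % p).toNat, ?_, ?_⟩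
      · have h1 := Int.emod_lt_of_pos i (show (0 : ℤ) < p by exact_mod_cast hp0)
        have h2 := Int.emod_nonneg i hp0'
        omega
      · have h2 := Int.emod_nonneg i hp0'
        have h3 : r ^ (i % p).toNat = r ^ (i % p) := by
          rw [← zpow_natCast, Int.toNat_of_nonneg h2]
        have h4 : (r ^ (i % p))⁻¹ * (r ^ i * z) = (r ^ p) ^ (i / p) * z := by
          rw [← mul_assoc, ← zpow_neg, ← zpow_add, ← zpow_natCast r p, ← zpow_mul]
          congr 2
          have := Int.emod_add_mul_ediv i p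
          omega
        rw [h3, h4]
        exact Subgroup.mul_mem _ (Subgroup.zpow_mem _ hrp _) hz
    · rintro ⟨k, _, hk⟩
      have h1 : g = r ^ k * ((r ^ k)⁻¹ * g) := by group
      rw [h1]
      exact Subgroup.mul_mem_sup (Subgroup.pow_mem _ (Subgroup.mem_zpowers r) k) hk
  have hcl : IsClosed ((Subgroup.zpowers r ⊔ fratF p (ncl r) : Subgroup F) : Set F) := by
    have h1 : ((Subgroup.zpowers r ⊔ fratF p (ncl r) : Subgroup F) : Set F) =
        ⋃ k ∈ Finset.range p, (fun g : F => (r ^ k)⁻¹ * g) ⁻¹' (fratF p (ncl r) : Set F) := by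
      ext g
      rw [SetLike.mem_coe, key g]
      simp only [Set.mem_iUnion, Finset.mem_range, Set.mem_preimage, SetLike.mem_coe, exists_prop]
    rw [h1]
    exact isClosed_biUnion_finset fun k _ =>
      (fratF_closed p (ncl r)).preimage (continuous_const_mul _)
  have hle : ncl r ≤ Subgroup.zpowers r ⊔ fratF p (ncl r) := by
    refine ncl_le_of_conj hcl fun a => ?_
    have h1 : a⁻¹ * r * a = r * (r⁻¹ * a⁻¹ * (r⁻¹)⁻¹ * (a⁻¹)⁻¹) := by group
    rw [h1]
    exact Subgroup.mul_mem_sup (Subgroup.mem_zpowers r)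
      (comm_mem_fratF p ((ncl r).inv_mem (mem_ncl r)) a⁻¹)
  exact (key s).1 (hle hs)

/-- `Φ = fratF p (ncl r)`. The set of all `g` with `∃ k : ℕ, g ∈ r ^ k Φ` is a subgroup `U` (as `r ^ p ∈ Φ`),
closed (`U = ⋃_{k < p}` of closed cosets) and contains all conjugates of `r` (`r^g ∈ r Φ`), so it contains
`ncl r`. So `s = r ^ k φ`, `p ∤ k` (else `s ∈ Φ`), and with `k k' ≡ 1 mod p`: `r ∈ s ^ k' Φ`. If
`ncl s ≠ ncl r` take `T` of `exists_step` for `S = ncl s`, `R = ncl r`: `s ∈ T`, `Φ ≤ T`, so `r ∈ T`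
and `ncl r ≤ T`, a contradiction. -/
theorem ncl_eq_of_not_mem_fratF {p : ℕ} [Fact p.Prime] (hp : PIndex p F) {r s : F}
    (hs : s ∈ ncl r) (h : s ∉ fratF p (ncl r)) : ncl s = ncl r := by
  by_contra hne
  have hpp := (Fact.out : p.Prime)
  obtain ⟨k, hk, hks⟩ := ncl_sub (p := p) hs
  have hk0 : k ≠ 0 := by
    rintro rfl
    apply h
    rwa [pow_zero, inv_one, one_mul] at hks
  have hsr : ncl s ≤ ncl r := ncl_le (ncl_normal r) (ncl_closed r) hs
  obtain ⟨T, hT, hST, hRT, hc, hpw⟩ := exists_step hp (ncl_normal s) (ncl_normal r)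
    (ncl_closed s) hsr hne
  have hTc : IsClosed (T : Set F) := isClosed_of_ON_le hT le_rfl
  have hΦT : fratF p (ncl r) ≤ T := fratF_le hTc hc hpw
  have hsT : s ∈ T := hST (mem_ncl s)
  have hrk : r ^ k ∈ T := by
    have h1 := T.mul_mem hsT (T.inv_mem (hΦT hks))
    have h2 : s * ((r ^ k)⁻¹ * s)⁻¹ = r ^ k := by group
    rwa [h2] at h1
  have hrp : r ^ p ∈ T := hpw r (mem_ncl r)
  have := hT.1
  have e1 : ((r : F) : F ⧸ T) ^ k = 1 := by
    rw [← QuotientGroup.mk_pow]
    exact (QuotientGroup.eq_one_iff _).2 hrk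
  have e2 : ((r : F) : F ⧸ T) ^ p = 1 := by
    rw [← QuotientGroup.mk_pow]
    exact (QuotientGroup.eq_one_iff _).2 hrp
  have e3 := pow_gcd_eq_one.2 ⟨e1, e2⟩
  have hg : Nat.gcd k p = 1 := by
    have h1 : Nat.Coprime p k := (Nat.Prime.coprime_iff_not_dvd hpp).2 fun hd =>
      absurd (Nat.le_of_dvd (Nat.pos_of_ne_zero hk0) hd) (not_le.2 hk)
    exact h1.symm
  rw [hg, pow_one] at e3
  exact hRT (ncl_le hT.1 hTc ((QuotientGroup.eq_one_iff _).1 e3))

end Pool.Agent.Helper64.FS
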