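import Pool.Agent.Helper64.FS.Defs
import Pool.Agent.Helper64.FS.B1
import Pool.Agent.Helper64.FS.B2

set_option autoImplicit false

namespace Pool.Agent.Helper64.FS

universe u v

variable {F : Type u} [Group F] [TopologicalSpace F] [IsTopologicalGroup F] [CompactSpace F]
  [T2Space F] [TotallyDisconnectedSpace F]

/-- Induction on `Nat.card P`. If `P` is trivial take `G = 1`. Otherwise take a central subgroup `Z` of
order `p` (`IsPGroup.center_nontrivial`, Cauchy), the solution `G'` for `P ⧸ Z` and `π` composed with `P → P ⧸ Z`.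
Choose a section `σ : P ⧸ Z → P` of the quotient map with `σ 1 = 1`; `exists_X` gives `G₁` with `G₁ (ι x) = σ ∘ G' (ι x)`,
`G₁ (ι y) = π (ι y)` constant (`≠ 1` only for finitely many `y`: `π.ker` is open normal). Modulo `Z` it is `G'`
(`IsX.ext`), so `G₁ r` has values in `Z`. With an isomorphism `Z ≃ Multiplicative (ZMod p)` and `hS` we get a crossed
homomorphism `H` with values in `Z`, `H (ι y) = 1` for `y ≠ x`, `H r = (G₁ r)⁻¹`. Take `G₁ * H`
(`IsX.mul_central`). -/
theorem lift_all {p : ℕ} [Fact p.Prime] {X : Type v} {ι : X → F} (hF : IsFree p ι)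
    (R : Subgroup F) [R.Normal] (x : X) (r : F)
    (hS : ∀ f ∈ V p R, ∃ G : F → F → Multiplicative (ZMod p), IsX R G ∧
      (∀ z, z ≠ x → ∀ a, G (ι z) a = 1) ∧ ∀ a, G r a = Multiplicative.ofAdd (f a)) :
    ∀ (P : Type) [Group P] [Finite P], IsPGroup p P → ∀ π : F →* P, IsOpen (π.ker : Set F) →
      ∃ G : F → F → P, IsX R G ∧ (∀ z, z ≠ x → ∀ a, G (ι z) a = π (ι z)) ∧ ∀ a, G r a = 1 := by
  classical
  intro P0 _ _ hP0 π0 hπ0
  -- strong induction on the order
  have main : ∀ (n : ℕ) (P : Type) [Group P] [Finite P], Nat.card P = n → IsPGroup p P →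
      ∀ π : F →* P, IsOpen (π.ker : Set F) →
        ∃ G : F → F → P, IsX R G ∧ (∀ z, z ≠ x → ∀ a, G (ι z) a = π (ι z)) ∧ ∀ a, G r a = 1 := by
    intro n
    induction n using Nat.strong_induction_on with
    | _ n ih =>
    intro P _ _ hcard hP π hπ
    rcases subsingleton_or_nontrivial P with hsub | hnt
    · refine ⟨fun _ _ => 1, ⟨fun _ _ _ => by simp, fun _ _ _ _ => rfl,
        ⟨⊤, ON_top, fun _ _ _ _ => rfl, fun _ _ _ => rfl⟩⟩, fun z _ a => Subsingleton.elim _ _,
        fun _ => rfl⟩
    · -- a central element of order p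
      have hZnt : Nontrivial (Subgroup.center P) := hP.center_nontrivial
      have hZp : IsPGroup p (Subgroup.center P) := hP.to_subgroup _
      obtain ⟨k, hk⟩ := hZp.exists_card_eq
      have hk0 : k ≠ 0 := by
        rintro rfl
        rw [pow_zero, Nat.card_eq_one_iff_unique] at hk
        exact not_subsingleton _ hk.1
      have hdvd : p ∣ Nat.card (Subgroup.center P) := by
        rw [hk]; exact dvd_pow_self p hk0
      obtain ⟨c0, hc0⟩ := exists_prime_orderOf_dvd_card' p hdvd
      set c : P := (c0 : P) with hc
      have hcc : c ∈ Subgroup.center P := c0.2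
      have hco : orderOf c = p := by
        rw [hc, Subgroup.orderOf_coe]; exact hc0
      have hc1 : c ≠ 1 := by
        intro h
        rw [h, orderOf_one] at hco
        exact (Fact.out : p.Prime).one_lt.ne hco
      let Z : Subgroup P := Subgroup.zpowers c
      have hZc : Z ≤ Subgroup.center P := by
        rw [Subgroup.zpowers_le]; exact hcc
      haveI hZn : Z.Normal := by
        constructor
        intro y hy g
        have := Subgroup.mem_center_iff.1 (hZc hy) g
        rw [this, mul_assoc, mul_inv_cancel, mul_one]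
        exact hy
      -- the quotient
      have hlt : Nat.card (P ⧸ Z) < n := by
        rw [← hcard]
        have h1 := Subgroup.card_eq_card_quotient_mul_card_subgroup Z
        have h2 : Nat.card Z = p := by
          show Nat.card (Subgroup.zpowers c) = p
          rw [Nat.card_zpowers, hco]
        have h3 : 0 < Nat.card (P ⧸ Z) := Nat.card_pos
        have h4 := (Fact.out : p.Prime).two_le
        rw [h1, h2]
        nlinarith
      have hker : IsOpen ((((QuotientGroup.mk' Z).comp π).ker : Subgroup F) : Set F) := by
        apply Subgroup.isOpen_mono (H₁ := π.ker) _ hπ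
        intro y hy
        rw [MonoidHom.mem_ker] at hy ⊢
        rw [MonoidHom.comp_apply, hy, map_one]
      obtain ⟨G', hG', hG'1, hG'r⟩ := ih _ hlt (P ⧸ Z) rfl (hP.to_quotient Z)
        ((QuotientGroup.mk' Z).comp π) hker
      -- section
      let σ : P ⧸ Z → P := fun q => if q = 1 then 1 else Quotient.out q
      have hσ1 : σ 1 = 1 := if_pos rfl
      have hσ : ∀ q, (QuotientGroup.mk' Z) (σ q) = q := by
        intro q
        by_cases hq : q = 1
        · rw [hq, hσ1, map_one]
        · show (QuotientGroup.mk' Z) (if q = 1 then 1 else Quotient.out q) = q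
          rw [if_neg hq]
          exact QuotientGroup.out_eq' q
      let f : X → F → P := fun z => if z = x then fun a => σ (G' (ι x) a) else fun _ => π (ι z)
      have hfx : f x = fun a => σ (G' (ι x) a) := if_pos rfl
      have hfz : ∀ z, z ≠ x → f z = fun _ => π (ι z) := fun z hz => if_neg hz
      have hπN : ON π.ker := ⟨inferInstance, hπ⟩
      have hfin : {z | f z ≠ 1}.Finite := by
        apply ((hF.conv π.ker hπN).union (Set.finite_singleton x)).subset
        intro z hz
        by_cases hzx : z = x
        · right; exact hzx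
        · left
          intro hmem
          apply hz
          rw [hfz z hzx]
          funext a
          exact hmem
      have hlc : ∀ z, LCf R (f z) := by
        intro z
        by_cases hzx : z = x
        · subst hzx
          rw [hfx]
          obtain ⟨⟨N, hN, h1⟩, h2⟩ := hG'.lc (ι z)
          refine ⟨⟨N, hN, fun u n hn => ?_⟩, fun u b hb => ?_⟩
          · show σ _ = σ _
            rw [h1 u n hn]
          · show σ _ = σ _
            rw [h2 u b hb]
        · rw [hfz z hzx]
          exact ⟨⟨⊤, ON_top, fun _ _ _ => rfl⟩, fun _ _ _ => rfl⟩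
      obtain ⟨G₁, hG₁, hG₁f⟩ := exists_X hF R hP f hfin hlc
      -- modulo Z
      have hmod : (fun g a => (QuotientGroup.mk' Z) (G₁ g a)) = G' := by
        apply IsX.ext hF.gen (hG₁.map (QuotientGroup.mk' Z)) hG'
        intro z
        funext a
        show (QuotientGroup.mk' Z) (G₁ (ι z) a) = G' (ι z) a
        rw [hG₁f z]
        by_cases hzx : z = x
        · subst hzx
          rw [hfx]
          exact hσ _
        · rw [hfz z hzx, hG'1 z hzx a]
          rfl
      have hrZ : ∀ a, G₁ r a ∈ Z := by
        intro a
        have h1 : (QuotientGroup.mk' Z) (G₁ r a) = 1 := by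
          have := congrFun (congrFun hmod r) a
          rw [← hG'r a, ← this]
        rwa [← MonoidHom.mem_ker, QuotientGroup.ker_mk'] at h1
      -- the isomorphism
      haveI : NeZero p := ⟨(Fact.out : p.Prime).ne_zero⟩
      let θ : Multiplicative (ZMod p) →* P :=
        { toFun := fun k => c ^ (Multiplicative.toAdd k).val
          map_one' := by
            show c ^ (0 : ZMod p).val = 1
            rw [ZMod.val_zero, pow_zero]
          map_mul' := by
            intro a b
            show c ^ (Multiplicative.toAdd a + Multiplicative.toAdd b).val = _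
            rw [ZMod.val_add, ← pow_add]
            conv_rhs => rw [← pow_mod_orderOf, hco] }
      have hθ : ∀ y ∈ Z, ∃ k : ZMod p, θ (Multiplicative.ofAdd k) = y := by
        intro y hy
        obtain ⟨m, hm⟩ := (mem_powers_iff_mem_zpowers.2 hy : y ∈ Submonoid.powers c)
        refine ⟨(m : ZMod p), ?_⟩
        show c ^ (m : ZMod p).val = y
        have hm' : c ^ m = y := hm
        rw [ZMod.val_natCast, ← hm', ← pow_mod_orderOf c m, hco]
      let lg : P → ZMod p := fun y => if h : ∃ k : ZMod p, θ (Multiplicative.ofAdd k) = y then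
        h.choose else 0
      have hlg : ∀ y ∈ Z, θ (Multiplicative.ofAdd (lg y)) = y := by
        intro y hy
        show θ (Multiplicative.ofAdd (if h : ∃ k : ZMod p, θ (Multiplicative.ofAdd k) = y then
          h.choose else 0)) = y
        rw [dif_pos (hθ y hy)]
        exact (hθ y hy).choose_spec
      have hfV : (fun a => lg ((G₁ r a)⁻¹)) ∈ V p R := by
        rw [mem_V]
        obtain ⟨⟨N, hN, h1⟩, h2⟩ := hG₁.lc r
        refine ⟨⟨N, hN, fun u n hn => ?_⟩, fun u b hb => ?_⟩
        · show lg _ = lg _
          rw [h1 u n hn]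
        · show lg _ = lg _
          rw [h2 u b hb]
      obtain ⟨H₀, hH₀, hH₀z, hH₀r⟩ := hS _ hfV
      refine ⟨fun g a => G₁ g a * θ (H₀ g a), hG₁.mul_central (hH₀.map θ) ?_, ?_, ?_⟩
      · intro g a
        exact Subgroup.pow_mem _ hcc _
      · intro z hz a
        show G₁ (ι z) a * θ (H₀ (ι z) a) = _
        rw [hH₀z z hz a, map_one, mul_one, hG₁f z, hfz z hz]
      · intro a
        show G₁ r a * θ (H₀ r a) = 1
        rw [hH₀r a, hlg _ (Z.inv_mem (hrZ a)), mul_inv_cancel]
  exact main _ P0 rfl hP0 π0 hπ0


end Pool.Agent.Helper64.FS
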