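import Pool.Agent.Helper64.FS.Defs
import Pool.Agent.Helper64.FS.A4
import Pool.Agent.Helper64.FS.A5
import Pool.Agent.Helper64.FS.B3
import Pool.Agent.Helper64.FS.B4
import Pool.Agent.Helper64.FS.B6
import Pool.Agent.Helper64.FS.B8

set_option autoImplicit false

namespace Pool.Agent.Helper64.FS

universe u v

variable {F : Type u} [Group F] [TopologicalSpace F] [IsTopologicalGroup F] [CompactSpace F]
  [T2Space F] [TotallyDisconnectedSpace F]

/-- Theorem II. `R = ncl r`; `r ≠ 1` (otherwise `t = 1`), `r ∉ Φ = fratF p R` (`not_mem_fratF`), and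
`clS ι {x}ᶜ ⊓ R ≤ Φ` by `ncl_eq_of_not_mem_fratF` and `hno`. `exists_chi` (`B = R`, `C = Φ`) gives `N`, `χ`; by
`exists_ON_inf_le` (`B = R`, `C = clS ι {x}ᶜ`, `D = Φ ⊔ N`) there is `N'` with `R ⊓ (clS ι {x}ᶜ ⊔ N') ≤ Φ ⊔ N`.
`shapiro` with `K = clS ι {x}ᶜ ⊔ N'`, `α = ofAdd ∘ χ` (conjugates of `k ∈ K ⊓ R ≤ Φ ⊔ N` stay in the normal
subgroup `Φ ⊔ N`) gives `G₀` with `G₀ r 1 ≠ 1` and `G₀ (ι z) = 1` for `z ≠ x`; `surj_one` gives the hypothesis of
`lift_all`. If `w ∈ clS ι {x}ᶜ ⊓ R`, `w ≠ 1`, take `M` open normal with `w ∉ M` (`exists_ON_not_mem` with `C = ⊥`), `P`, `π` of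
`exists_type_quot` and `G` of `lift_all`: `G w = 1` by `IsX.ker` and `G w = π w` by `IsX.const`. -/
theorem freiheit_of_good {p : ℕ} [Fact p.Prime] {X : Type v} {ι : X → F} (hF : IsFree p ι)
    (r : F) (x : X) (hgood : Good p (ncl r)) (hno : ∀ t ∈ clS ι {x}ᶜ, ncl t ≠ ncl r) :
    clS ι {x}ᶜ ⊓ ncl r = ⊥ := by
  have hp := hF.pindex
  have hRn : (ncl r).Normal := ncl_normal r
  have hr1 : r ≠ 1 := by
    rintro rfl
    exact hno 1 (Subgroup.one_mem _) rfl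
  have hrR : r ∈ ncl r := mem_ncl r
  have hΦn : (fratF p (ncl r)).Normal := fratF_normal p _
  have hrΦ : r ∉ fratF p (ncl r) := not_mem_fratF hp hr1
  have hYΦ : ncl r ⊓ clS ι {x}ᶜ ≤ fratF p (ncl r) := by
    intro s hs
    by_contra hsΦ
    exact hno s hs.2 (ncl_eq_of_not_mem_fratF hp hs.1 hsΦ)
  obtain ⟨N, hN, χ, hχ, hχ0, hχr⟩ := exists_chi (p := p) (B := ncl r) (C := fratF p (ncl r)) hRn hΦn
    (fratF_closed p _) (fratF_le_self hRn (ncl_closed r)) (fun b hb => pow_mem_fratF p hb)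
    (fun b hb b' _ => comm_mem_fratF p hb b') hrR hrΦ
  have hΦN : ON (fratF p (ncl r) ⊔ N) := ON.sup hΦn hN
  obtain ⟨N', hN', hle⟩ := exists_ON_inf_le (B := ncl r) (C := clS ι {x}ᶜ)
    (D := fratF p (ncl r) ⊔ N) (ncl_closed r) (clS_closed ι _) hΦN.2 (hYΦ.trans le_sup_left)
  have hKo : IsOpen ((clS ι {x}ᶜ ⊔ N' : Subgroup F) : Set F) :=
    Subgroup.isOpen_mono le_sup_right hN'.2
  obtain ⟨G₀, hG₀, hG₀1, hG₀2⟩ := shapiro (ncl r) (P := Multiplicative (ZMod p))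
    (fun b => Multiplicative.ofAdd (χ b))
    (fun b hb b' hb' => by rw [hχ b hb b' hb', ofAdd_add]) (clS ι {x}ᶜ ⊔ N') hKo (by
      intro g k hk hgk
      have h1 : k ∈ ncl r := by
        have h2 := hRn.conj_mem _ hgk g⁻¹
        have h3 : g⁻¹ * (g * k * g⁻¹) * g⁻¹⁻¹ = k := by group
        rwa [h3] at h2
      have h2 : k ∈ fratF p (ncl r) ⊔ N := hle ⟨h1, hk⟩
      have h3 := hΦN.1.conj_mem _ h2 g
      have h4 := hχ0 _ hgk h3
      simp only [h4, ofAdd_zero])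
  have hS : ∀ f ∈ V p (ncl r), ∃ G : F → F → Multiplicative (ZMod p), IsX (ncl r) G ∧
      (∀ z, z ≠ x → ∀ a, G (ι z) a = 1) ∧ ∀ a, G r a = Multiplicative.ofAdd (f a) := by
    apply surj_one hF (ncl r) hgood x r G₀ hG₀
    · intro z hz a
      exact hG₀2 _ (Subgroup.mem_sup_left (mem_clS ι (by simpa using hz))) a
    · refine ⟨1, ?_⟩
      rw [hG₀1 r hrR]
      intro h
      exact hχr (by simpa using h)
  have hlift := lift_all hF (ncl r) x r hS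
  rw [eq_bot_iff]
  intro w hw
  by_contra hw1
  have hbot : IsClosed ((⊥ : Subgroup F) : Set F) := by
    rw [Subgroup.coe_bot]
    exact isClosed_singleton
  obtain ⟨M, hM, hwM⟩ := exists_ON_not_mem hbot hw1
  rw [bot_sup_eq] at hwM
  obtain ⟨P, _, _, π, hP, hπ⟩ := exists_type_quot hp hM
  have hπo : IsOpen (π.ker : Set F) := by rw [hπ]; exact hM.2
  obtain ⟨G, hG, hG1, hG2⟩ := hlift P hP π hπo
  have h1 : G w 1 = 1 := IsX.ker (ncl_closed r) hG hrR hG2 w hw.2 1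
  have h2 : G w 1 = π w := IsX.const hG π hπo (fun y hy a => hG1 y (by simpa using hy) a) w hw.1 1
  apply hwM
  rw [← hπ, MonoidHom.mem_ker, ← h2, h1]

end Pool.Agent.Helper64.FS
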