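import Pool.Agent.Helper64.FS.Defs
import Pool.Agent.Helper64.FS.A1
import Pool.Agent.Helper64.FS.A2
import Pool.Agent.Helper64.FS.B1
import Pool.Agent.Helper64.FS.B2
import Pool.Agent.Helper64.FS.B3

set_option autoImplicit false

namespace Pool.Agent.Helper64.FS

universe u v

variable {F : Type u} [Group F] [TopologicalSpace F] [IsTopologicalGroup F] [CompactSpace F]
  [T2Space F] [TotallyDisconnectedSpace F]

private theorem c1_one {B C : Subgroup F} {A : Type} [AddCommGroup A] {x : F → A}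
    (hx : IsH B C x) : x 1 = 0 := by
  have h := hx.1 1 B.one_mem 1 B.one_mem
  rw [mul_one] at h
  exact left_eq_add.mp h

private theorem c1_inv {B C : Subgroup F} {A : Type} [AddCommGroup A] {x : F → A}
    (hx : IsH B C x) {b : F} (hb : b ∈ B) : x b⁻¹ = -x b := by
  have h := hx.1 b hb b⁻¹ (B.inv_mem hb)
  rw [mul_inv_cancel, c1_one hx] at h
  exact (neg_eq_of_add_eq_zero_right h.symm).symm

/-- The kernel of `x` on `B`. -/
private def c1_ker {B C : Subgroup F} {A : Type} [AddCommGroup A] {x : F → A}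
    (hx : IsH B C x) : Subgroup F where
  carrier := {b | b ∈ B ∧ x b = 0}
  one_mem' := ⟨B.one_mem, c1_one hx⟩
  mul_mem' := by
    rintro a b ⟨ha, ha'⟩ ⟨hb, hb'⟩
    exact ⟨B.mul_mem ha hb, by rw [hx.1 a ha b hb, ha', hb', add_zero]⟩
  inv_mem' := by
    rintro a ⟨ha, ha'⟩
    exact ⟨B.inv_mem ha, by rw [c1_inv hx ha, ha', neg_zero]⟩

private theorem c1_mem_ker {B C : Subgroup F} {A : Type} [AddCommGroup A] {x : F → A}
    (hx : IsH B C x) (b : F) : b ∈ c1_ker hx ↔ b ∈ B ∧ x b = 0 := Iff.rfl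

private theorem c1_closed {B C : Subgroup F} (hB : IsClosed (B : Set F)) {A : Type}
    [AddCommGroup A] {x : F → A} (hx : IsH B C x) : IsClosed (c1_ker hx : Set F) := by
  obtain ⟨N, hN, hN'⟩ := hx.2.2
  have hNn := hN.1
  have h1 : c1_ker hx = B ⊓ (c1_ker hx ⊔ N) := by
    apply le_antisymm
    · intro b hb
      exact ⟨hb.1, Subgroup.mem_sup_left hb⟩
    · rintro b ⟨hb, hb'⟩
      obtain ⟨s, hs, n, hn, rfl⟩ := Subgroup.mem_sup_of_normal_right.1 hb'
      have hnB : n ∈ B := by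
        have h2 := B.mul_mem (B.inv_mem hs.1) hb
        rwa [inv_mul_cancel_left] at h2
      exact ⟨hb, by rw [hx.1 s hs.1 n hnB, hs.2, hN' n hnB hn, add_zero]⟩
  rw [h1, Subgroup.coe_inf]
  exact hB.inter (isClosed_of_ON_le hN le_sup_right)

/-- `{b ∈ B | x b = 0} = B ⊓ (S ⊔ N)` is closed, so it contains `cder B`. -/
theorem IsH.cder {B : Subgroup F} (hB : IsClosed (B : Set F)) {A : Type} [AddCommGroup A]
    {x : F → A} (hx : IsH B ⊥ x) : IsH B (cder B) x := by
  refine ⟨hx.1, fun c hc => ?_, hx.2.2⟩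
  have h1 : FS.cder B ≤ c1_ker hx := by
    refine cder_le (c1_closed hB hx) fun a ha b hb => ?_
    refine ⟨B.mul_mem (B.mul_mem (B.mul_mem ha hb) (B.inv_mem ha)) (B.inv_mem hb), ?_⟩
    rw [hx.1 _ (B.mul_mem (B.mul_mem ha hb) (B.inv_mem ha)) _ (B.inv_mem hb),
      hx.1 _ (B.mul_mem ha hb) _ (B.inv_mem ha), hx.1 _ ha _ hb, c1_inv hx ha, c1_inv hx hb]
    abel
  exact (h1 hc).2

/-- Same argument: if `x` vanishes on `C` then it vanishes on the closure. -/
theorem IsH.closure {B C : Subgroup F} (hB : IsClosed (B : Set F)) (hCB : C ≤ B) {A : Type}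
    [AddCommGroup A] {x : F → A} (hx : IsH B C x) : IsH B C.topologicalClosure x := by
  refine ⟨hx.1, fun c hc => ?_, hx.2.2⟩
  have h1 : C.topologicalClosure ≤ c1_ker hx :=
    Subgroup.topologicalClosure_minimal _ (fun c hc => ⟨hCB hc, hx.2.1 c hc⟩) (c1_closed hB hx)
  exact (h1 hc).2

/-- `shapiro` for `P = Multiplicative (ZMod (p ^ e))` (`K` = open normal with `x = 0` on `B ∩ K`) gives a crossed
homomorphism `G` with `G b 1 = x b`. Lift the functions `G (ι z)` to `ZMod (p ^ (e + 1))` (a section `σ` with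
`σ 0 = 0`), `exists_X` gives `G'`; modulo `p ^ e` it is `G` (`IsX.ext`, `IsX.map`); `x' b = G' b 1` (`IsX.hom`). -/
theorem lift_hom {p : ℕ} [Fact p.Prime] {X : Type v} {ι : X → F} (hF : IsFree p ι)
    (B : Subgroup F) [B.Normal] (e : ℕ) (x : F → ZMod (p ^ e)) (hx : IsH B ⊥ x) :
    ∃ x' : F → ZMod (p ^ (e + 1)), IsH B ⊥ x' ∧
      ∀ b ∈ B, ZMod.castHom (pow_dvd_pow p (Nat.le_succ e)) (ZMod (p ^ e)) (x' b) = x b := by
  have hp : 0 < p := (Fact.out : p.Prime).pos
  have hne0 : NeZero (p ^ e) := ⟨(pow_pos hp e).ne'⟩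
  have hne1 : NeZero (p ^ (e + 1)) := ⟨(pow_pos hp (e + 1)).ne'⟩
  obtain ⟨N, hN, hN'⟩ := hx.2.2
  have hNn := hN.1
  obtain ⟨G, hG, hG1, -⟩ := shapiro B (fun b => Multiplicative.ofAdd (x b))
    (fun b hb b' hb' => by rw [hx.1 b hb b' hb', ofAdd_add]) N hN.2
    (fun g k hk hgk => by rw [hN' _ hgk (hNn.conj_mem k hk g), ofAdd_zero])
  set c : ZMod (p ^ (e + 1)) →+* ZMod (p ^ e) :=
    ZMod.castHom (pow_dvd_pow p (Nat.le_succ e)) (ZMod (p ^ e)) with hc
  set σ : ZMod (p ^ e) → ZMod (p ^ (e + 1)) := fun y => ((y.val : ℕ) : ZMod (p ^ (e + 1))) with hσ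
  have hσ0 : σ 0 = 0 := by simp [hσ]
  have hcσ : ∀ y, c (σ y) = y := by
    intro y
    simp only [hσ]
    rw [map_natCast, ZMod.natCast_zmod_val]
  set f : X → F → Multiplicative (ZMod (p ^ (e + 1))) :=
    fun z a => Multiplicative.ofAdd (σ (Multiplicative.toAdd (G (ι z) a))) with hf
  obtain ⟨N1, hN1, -, hN1'⟩ := hG.cont
  have hfin : {z | f z ≠ 1}.Finite := by
    refine (hF.conv N1 hN1).subset fun z hz hz' => hz ?_
    funext a
    show Multiplicative.ofAdd (σ (Multiplicative.toAdd (G (ι z) a))) = 1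
    rw [hN1' _ hz' a, toAdd_one, hσ0, ofAdd_zero]
  have hlc : ∀ z, LCf B (f z) := by
    intro z
    obtain ⟨⟨M, hM, h1⟩, h2⟩ := hG.lc (ι z)
    exact ⟨⟨M, hM, fun u n hn => by simp only [hf]; rw [h1 u n hn]⟩,
      fun u b hb => by simp only [hf]; rw [h2 u b hb]⟩
  have hP : IsPGroup p (Multiplicative (ZMod (p ^ (e + 1)))) := by
    apply IsPGroup.of_card (n := e + 1)
    rw [Nat.card_congr Multiplicative.toAdd, Nat.card_zmod]
  have : Finite (Multiplicative (ZMod (p ^ (e + 1)))) :=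
    Finite.of_equiv (ZMod (p ^ (e + 1))) Multiplicative.ofAdd
  obtain ⟨G', hG', hG'1⟩ := exists_X hF B hP f hfin hlc
  set φ : Multiplicative (ZMod (p ^ (e + 1))) →* Multiplicative (ZMod (p ^ e)) :=
    AddMonoidHom.toMultiplicative c.toAddMonoidHom with hφ
  have hφa : ∀ y, φ y = Multiplicative.ofAdd (c (Multiplicative.toAdd y)) := fun y => rfl
  have hGG : (fun g a => φ (G' g a)) = G := by
    refine IsX.ext hF.gen (hG'.map φ) hG fun z => ?_
    funext a
    show φ (G' (ι z) a) = G (ι z) a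
    rw [hG'1 z, hφa]
    show Multiplicative.ofAdd (c (σ (Multiplicative.toAdd (G (ι z) a)))) = _
    rw [hcσ, ofAdd_toAdd]
  obtain ⟨N2, hN2, -, hN2'⟩ := hG'.cont
  refine ⟨fun b => Multiplicative.toAdd (G' b 1), ⟨fun b hb b' hb' => ?_, fun c hc => ?_,
    N2, hN2, fun b _ hb => ?_⟩, fun b hb => ?_⟩
  · show Multiplicative.toAdd (G' (b * b') 1) = _
    rw [hG'.hom hb hb', toAdd_mul]
  · rw [Subgroup.mem_bot] at hc
    subst hc
    show Multiplicative.toAdd (G' 1 1) = 0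
    rw [hG'.one, toAdd_one]
  · show Multiplicative.toAdd (G' b 1) = 0
    rw [hN2' b hb, toAdd_one]
  · have h1 : φ (G' b 1) = G b 1 := congrFun (congrFun hGG b) 1
    rw [hG1 b hb, hφa] at h1
    exact Multiplicative.ofAdd.injective h1

end Pool.Agent.Helper64.FS
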