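import Pool.Agent.Helper64.FS.Defs
import Pool.Agent.Helper64.FS.A1
import Pool.Agent.Helper64.FS.A2
import Pool.Agent.Helper64.FS.C1
import Pool.Agent.Helper64.FS.C2

set_option autoImplicit false

namespace Pool.Agent.Helper64.FS

universe u v

private theorem exists_mulpe (p : ℕ) [Fact p.Prime] (e : ℕ) :
    ∃ m : ZMod p →+ ZMod (p ^ (e + 1)),
      (∀ k, ZMod.castHom (pow_dvd_pow p (Nat.le_succ e)) (ZMod (p ^ e)) (m k) = 0) ∧
      ∀ y, ZMod.castHom (pow_dvd_pow p (Nat.le_succ e)) (ZMod (p ^ e)) y = 0 → ∃ k, m k = y := by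
  have hp : p.Prime := Fact.out
  have : NeZero (p ^ (e + 1)) := ⟨pow_ne_zero _ hp.ne_zero⟩
  have : NeZero (p ^ e) := ⟨pow_ne_zero _ hp.ne_zero⟩
  let f : ℤ →+ ZMod (p ^ (e + 1)) :=
    (AddMonoidHom.mulLeft ((p : ZMod (p ^ (e + 1))) ^ e)).comp (Int.castAddHom _)
  have hf : ∀ n : ℤ, f n = (p : ZMod (p ^ (e + 1))) ^ e * (n : ZMod (p ^ (e + 1))) :=
    fun n => rfl
  have hfp : f p = 0 := by
    rw [hf]
    have : ((p ^ (e + 1) : ℕ) : ZMod (p ^ (e + 1))) = 0 := ZMod.natCast_self _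
    rw [pow_succ, Nat.cast_mul, Nat.cast_pow] at this
    rw [Int.cast_natCast]
    exact this
  refine ⟨ZMod.lift p ⟨f, hfp⟩, fun k => ?_, fun y hy => ?_⟩
  · obtain ⟨n, rfl⟩ := ZMod.intCast_surjective k
    have h1 : (ZMod.lift p ⟨f, hfp⟩) (n : ZMod p) = f n := ZMod.lift_coe p ⟨f, hfp⟩ n
    rw [h1, hf, map_mul, map_pow, map_natCast, ← Nat.cast_pow, ZMod.natCast_self, zero_mul]
  · have h1 : y = ((y.val : ℕ) : ZMod (p ^ (e + 1))) := (ZMod.natCast_zmod_val y).symm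
    rw [h1, map_natCast, ZMod.natCast_eq_zero_iff] at hy
    obtain ⟨q, hq⟩ := hy
    refine ⟨((q : ℤ) : ZMod p), ?_⟩
    have h2 : (ZMod.lift p ⟨f, hfp⟩) ((q : ℤ) : ZMod p) = f q := ZMod.lift_coe p ⟨f, hfp⟩ q
    rw [h2, hf, h1, hq, Nat.cast_mul, Nat.cast_pow, Int.cast_natCast]

section

variable {F : Type u} [Group F] [TopologicalSpace F] {B C : Subgroup F} {A : Type}
  [AddCommGroup A] {x : F → A}

private theorem IsH.one' (hx : IsH B C x) : x 1 = 0 := by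
  have h := hx.1 1 B.one_mem 1 B.one_mem
  rw [mul_one] at h
  simpa using h

private theorem IsH.inv' (hx : IsH B C x) {b : F} (hb : b ∈ B) : x b⁻¹ = - x b := by
  have h := hx.1 b⁻¹ (B.inv_mem hb) b hb
  rw [inv_mul_cancel, hx.one'] at h
  exact eq_neg_of_add_eq_zero_left h.symm

/-- the kernel as a subgroup -/
private def IsH.ker' (hx : IsH B C x) : Subgroup F where
  carrier := {b | b ∈ B ∧ x b = 0}
  mul_mem' := fun {a b} ha hb => ⟨B.mul_mem ha.1 hb.1, by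
    rw [hx.1 a ha.1 b hb.1, ha.2, hb.2, add_zero]⟩
  one_mem' := ⟨B.one_mem, hx.one'⟩
  inv_mem' := fun {a} ha => ⟨B.inv_mem ha.1, by rw [hx.inv' ha.1, ha.2, neg_zero]⟩

private theorem IsH.of_le {C' : Subgroup F} (hx : IsH B C x) (h : C' ≤ hx.ker') :
    IsH B C' x := ⟨hx.1, fun c hc => (h hc).2, hx.2.2⟩

private theorem IsH.bot' (hx : IsH B C x) : IsH B ⊥ x :=
  ⟨hx.1, fun _ hc => by rw [Subgroup.mem_bot.mp hc]; exact hx.one', hx.2.2⟩

end

variable {F : Type u} [Group F] [TopologicalSpace F] [IsTopologicalGroup F] [CompactSpace F]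
  [T2Space F] [TotallyDisconnectedSpace F]

/-- `lift_hom` and `IsH.cder`. -/
theorem TF_cder {p : ℕ} [Fact p.Prime] {X : Type v} {ι : X → F} (hF : IsFree p ι)
    (B : Subgroup F) [B.Normal] (hBc : IsClosed (B : Set F)) : TF p B (cder B) := by
  intro e x hx
  obtain ⟨x', hx', h⟩ := lift_hom hF B e x hx.bot'
  exact ⟨x', hx'.cder hBc, h⟩

/-- Let `x` be given, `x'` its lift of `lift_hom`. As `x (a⁻¹ s a) = 0`, `x' (a⁻¹ s a) = p ^ e * f a` for a function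
`f : F → ZMod p`, which is in `V p B` (`x' ((a b)⁻¹ s (a b)) = x' (a⁻¹ s a)` for `b ∈ B` since `x'` is a homomorphism on
`B` to a commutative group; locally constant: for `n` in the open normal `N` of `x'` the commutator of `n` and
`a⁻¹ s a` is in `B ∩ N`). Subtract `p ^ e * γ`, `γ` of `exists_gamma` (multiplication by `p ^ e` is a well defined
additive map `ZMod p → ZMod (p ^ (e + 1))`). The result kills all `a⁻¹ s a`, hence `ncl s` (closed kernel, cf.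
`IsH.closure`, `ncl_le_of_conj`), and `cder B`. -/
theorem TF_sup {p : ℕ} [Fact p.Prime] {X : Type v} {ι : X → F} (hF : IsFree p ι)
    (B : Subgroup F) [B.Normal] (hBc : IsClosed (B : Set F)) (hgood : Good p B) {s : F}
    (hs : s ∈ B) (hs' : s ∉ frat p B) : TF p B (ncl s ⊔ cder B).topologicalClosure := by
  classical
  intro e x hx
  have hBn : B.Normal := inferInstance
  obtain ⟨x', hx', hlift⟩ := lift_hom hF B e x hx.bot'
  obtain ⟨m, hm0, hm1⟩ := exists_mulpe p e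
  -- conjugates of `s`
  have hsB : ∀ a : F, a⁻¹ * s * a ∈ B := fun a => by
    have := hBn.conj_mem s hs a⁻¹
    rwa [inv_inv] at this
  have hsC : ∀ a : F, a⁻¹ * s * a ∈ (ncl s ⊔ cder B).topologicalClosure := fun a => by
    apply Subgroup.le_topologicalClosure
    apply Subgroup.mem_sup_left
    have := (ncl_normal s).conj_mem s (mem_ncl s) a⁻¹
    rwa [inv_inv] at this
  have hcast : ∀ a : F, ZMod.castHom (pow_dvd_pow p (Nat.le_succ e)) (ZMod (p ^ e))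
      (x' (a⁻¹ * s * a)) = 0 := fun a => by
    rw [hlift _ (hsB a)]
    exact hx.2.1 _ (hsC a)
  -- the function `f`
  let g : ZMod (p ^ (e + 1)) → ZMod p := fun y =>
    if h : ZMod.castHom (pow_dvd_pow p (Nat.le_succ e)) (ZMod (p ^ e)) y = 0 then
      (hm1 y h).choose else 0
  have hg : ∀ y, ZMod.castHom (pow_dvd_pow p (Nat.le_succ e)) (ZMod (p ^ e)) y = 0 →
      m (g y) = y := fun y h => by
    simp only [g, dif_pos h]
    exact (hm1 y h).choose_spec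
  obtain ⟨N, hN, hN0⟩ := hx'.2.2
  have hNn : N.Normal := hN.1
  have hfV : (fun a => g (x' (a⁻¹ * s * a))) ∈ V p B := by
    refine ⟨⟨N, hN, fun u n hn => ?_⟩, fun u b hb => ?_⟩
    · have h1 : (u * n)⁻¹ * s * (u * n) =
          (u⁻¹ * s * u) * ((u⁻¹ * s * u)⁻¹ * n⁻¹ * (u⁻¹ * s * u) * n) := by group
      have h2 : (u⁻¹ * s * u)⁻¹ * n⁻¹ * (u⁻¹ * s * u) * n ∈ N := by
        apply N.mul_mem _ hn
        have := hNn.conj_mem n⁻¹ (N.inv_mem hn) (u⁻¹ * s * u)⁻¹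
        rwa [inv_inv] at this
      have h3 : (u⁻¹ * s * u)⁻¹ * n⁻¹ * (u⁻¹ * s * u) * n ∈ B := by
        have h4 : (u⁻¹ * s * u)⁻¹ * n⁻¹ * (u⁻¹ * s * u) * n =
          (u⁻¹ * s * u)⁻¹ * (n⁻¹ * (u⁻¹ * s * u) * n⁻¹⁻¹) := by group
        rw [h4]
        exact B.mul_mem (B.inv_mem (hsB u)) (hBn.conj_mem _ (hsB u) n⁻¹)
      show g (x' ((u * n)⁻¹ * s * (u * n))) = g (x' (u⁻¹ * s * u))
      rw [h1, hx'.1 _ (hsB u) _ h3, hN0 _ h3 h2, add_zero]
    · show g (x' ((u * b)⁻¹ * s * (u * b))) = g (x' (u⁻¹ * s * u))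
      have h1 : (u * b)⁻¹ * s * (u * b) = b⁻¹ * ((u⁻¹ * s * u) * b) := by group
      rw [h1, hx'.1 _ (B.inv_mem hb) _ (B.mul_mem (hsB u) hb), hx'.1 _ (hsB u) _ hb,
        hx'.inv' hb]
      congr 1
      abel
  obtain ⟨γ, hγ, hγs⟩ := exists_gamma hF B hBc hgood hs hs' _ hfV
  -- the corrected lift
  have hx'' : IsH B ⊥ (fun b => x' b - m (γ b)) := by
    refine ⟨fun b hb b' hb' => ?_, fun c hc => ?_, ?_⟩
    · show x' (b * b') - m (γ (b * b')) = (x' b - m (γ b)) + (x' b' - m (γ b'))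
      rw [hx'.1 b hb b' hb', hγ.1 b hb b' hb', map_add]
      abel
    · rw [Subgroup.mem_bot.mp hc]
      show x' 1 - m (γ 1) = 0
      rw [hx'.one', hγ.one', map_zero, sub_zero]
    · obtain ⟨M, hM, hM0⟩ := hγ.2.2
      exact ⟨N ⊓ M, hN.inf hM, fun b hb hbN => by
        show x' b - m (γ b) = 0
        rw [hN0 b hb hbN.1, hM0 b hb hbN.2, map_zero, sub_zero]⟩
  have h1 : IsH B (Subgroup.normalClosure {s}) (fun b => x' b - m (γ b)) := by
    refine hx''.of_le ?_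
    rw [Subgroup.normalClosure, Subgroup.closure_le]
    intro c hc
    rw [Group.mem_conjugatesOfSet_iff] at hc
    obtain ⟨a, ha, hac⟩ := hc
    rw [Set.mem_singleton_iff.mp ha] at hac
    obtain ⟨g', hg'⟩ := isConj_iff.mp hac
    have h2 : c = (g'⁻¹)⁻¹ * s * g'⁻¹ := by rw [inv_inv, hg']
    rw [h2]
    refine ⟨hsB _, ?_⟩
    show x' ((g'⁻¹)⁻¹ * s * g'⁻¹) - m (γ ((g'⁻¹)⁻¹ * s * g'⁻¹)) = 0
    rw [hγs, hg _ (hcast _), sub_self]
  have h2 : Subgroup.normalClosure {s} ≤ B :=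
    Subgroup.normalClosure_le_normal (Set.singleton_subset_iff.mpr hs)
  have h3 : IsH B (ncl s) (fun b => x' b - m (γ b)) := h1.closure hBc h2
  have h4 : IsH B (cder B) (fun b => x' b - m (γ b)) := hx''.cder hBc
  have h5 : ncl s ≤ B := ncl_le hBn hBc hs
  have h6 : cder B ≤ B := cder_le_self hBc
  have h7 : IsH B (ncl s ⊔ cder B) (fun b => x' b - m (γ b)) := by
    refine hx''.of_le (sup_le (fun c hc => ⟨h5 hc, h3.2.1 c hc⟩) (fun c hc => ⟨h6 hc, h4.2.1 c hc⟩))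
  refine ⟨_, h7.closure hBc (sup_le h5 h6), fun b hb => ?_⟩
  rw [map_sub, hm0, sub_zero, hlift b hb]

end Pool.Agent.Helper64.FS
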