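import Pool.Agent.Helper64.FS.Defs
import Pool.Agent.Helper64.FS.A1
import Pool.Agent.Helper64.FS.A2

set_option autoImplicit false

namespace Pool.Agent.Helper64.FS

universe u v

variable {F : Type u} [Group F] [TopologicalSpace F] [IsTopologicalGroup F] [CompactSpace F]
  [T2Space F] [TotallyDisconnectedSpace F]

/-- The decomposition `r = s ^ p ^ j * c`. Let `E j = {g | ∃ b ∈ B, g * (b ^ p ^ j)⁻¹ ∈ cder B}`. It is the image of a
compact set under a continuous map, so closed. (1) `⋂ j, E j ≤ cder B`: if `r ∉ cder B`, take `N` open normal with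
`r ∉ cder B ⊔ N` and `k` with `g ^ p ^ k ∈ N` for all `g` (`ON.pow_mem`): then `r ∉ E k`. (2) So there is a maximal `j` with
`r ∈ E j` (`r ∈ E 0`; `E (j+1) ⊆ E j`). If `s ∈ frat p B` then `s ∈ b ^ p * cder B` for some `b ∈ B` (the set of these
elements is a closed subgroup) and `s ^ p ^ j ∈ b ^ p ^ (j+1) cder B` (`B / cder B` is commutative),
so `r ∈ E (j+1)`. -/
theorem exists_root {p : ℕ} [Fact p.Prime] (hp : PIndex p F) (B : Subgroup F) [B.Normal]
    (hBc : IsClosed (B : Set F)) {r : F} (hr : r ∈ B) (hr' : r ∉ cder B) :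
    ∃ s ∈ B, ∃ j : ℕ, s ∉ frat p B ∧ r * (s ^ p ^ j)⁻¹ ∈ cder B := by
  classical
  have hn : (cder B).Normal := cder_normal B
  have hmk : ∀ g h : F, g * h⁻¹ ∈ cder B ↔
      (QuotientGroup.mk g : F ⧸ cder B) = QuotientGroup.mk h := by
    intro g h
    rw [← QuotientGroup.eq_one_iff, QuotientGroup.mk_mul, QuotientGroup.mk_inv, mul_inv_eq_one]
  have hcomm : ∀ a ∈ B, ∀ b ∈ B, Commute (QuotientGroup.mk a : F ⧸ cder B) (QuotientGroup.mk b) := by
    intro a ha b hb
    have h1 := comm_mem_cder ha hb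
    have h2 : a * b * a⁻¹ * b⁻¹ = (a * b) * (b * a)⁻¹ := by
      rw [mul_inv_rev, mul_assoc (a * b)]
    rw [h2, hmk, QuotientGroup.mk_mul, QuotientGroup.mk_mul] at h1
    exact h1
  -- the closed subgroup of the elements `b ^ p * c`
  let S : Subgroup F :=
    { carrier := {g | ∃ b ∈ B, g * (b ^ p)⁻¹ ∈ cder B}
      mul_mem' := by
        rintro g g' ⟨b, hb, h⟩ ⟨b', hb', h'⟩
        refine ⟨b * b', B.mul_mem hb hb', ?_⟩
        rw [hmk] at h h' ⊢
        rw [QuotientGroup.mk_mul, h, h', QuotientGroup.mk_pow, QuotientGroup.mk_pow,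
          QuotientGroup.mk_pow, QuotientGroup.mk_mul, (hcomm b hb b' hb').mul_pow]
      one_mem' := ⟨1, B.one_mem, by rw [one_pow, inv_one, mul_one]; exact (cder B).one_mem⟩
      inv_mem' := by
        rintro g ⟨b, hb, h⟩
        refine ⟨b⁻¹, B.inv_mem hb, ?_⟩
        rw [hmk] at h ⊢
        rw [QuotientGroup.mk_inv, h, inv_pow, QuotientGroup.mk_inv] }
  have hSc : IsClosed (S : Set F) := by
    have h1 : (S : Set F) = (fun x : F × F => x.2 * x.1 ^ p) '' ((B : Set F) ×ˢ (cder B : Set F)) := by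
      ext g
      constructor
      · rintro ⟨b, hb, h⟩
        refine ⟨(b, g * (b ^ p)⁻¹), ⟨hb, h⟩, ?_⟩
        change g * (b ^ p)⁻¹ * b ^ p = g
        rw [inv_mul_cancel_right]
      · rintro ⟨⟨b, c⟩, ⟨hb, hc⟩, rfl⟩
        refine ⟨b, hb, ?_⟩
        change c * b ^ p * (b ^ p)⁻¹ ∈ cder B
        rw [mul_inv_cancel_right]
        exact hc
    rw [h1]
    refine (IsCompact.image (hBc.isCompact.prod (cder_closed B).isCompact) ?_).isClosed
    exact continuous_snd.mul (continuous_fst.pow p)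
  have hfr : frat p B ≤ S := by
    refine frat_le hSc ?_ ?_
    · intro a ha b hb
      refine ⟨1, B.one_mem, ?_⟩
      rw [one_pow, inv_one, mul_one]
      exact comm_mem_cder ha hb
    · intro a ha
      refine ⟨a, ha, ?_⟩
      rw [mul_inv_cancel]
      exact (cder B).one_mem
  have hex : ∃ k : ℕ, ¬ ∃ b ∈ B, r * (b ^ p ^ k)⁻¹ ∈ cder B := by
    obtain ⟨N, hN, hrN⟩ := exists_ON_not_mem (cder_closed B) hr'
    obtain ⟨k, hk⟩ := ON.pow_mem hp hN
    refine ⟨k, ?_⟩
    rintro ⟨b, hb, h⟩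
    apply hrN
    have h1 : r = r * (b ^ p ^ k)⁻¹ * b ^ p ^ k := by rw [inv_mul_cancel_right]
    rw [h1]
    exact Subgroup.mul_mem _ (Subgroup.mem_sup_left h) (Subgroup.mem_sup_right (hk b))
  have hfind := Nat.find_spec hex
  have hmin := fun m (hm : m < Nat.find hex) => Nat.find_min hex hm
  cases hk : Nat.find hex with
  | zero =>
    exfalso
    rw [hk] at hfind
    apply hfind
    refine ⟨r, hr, ?_⟩
    rw [pow_zero, pow_one, mul_inv_cancel]
    exact (cder B).one_mem
  | succ j =>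
    rw [hk] at hfind
    have h1 := hmin j (by rw [hk]; exact Nat.lt_succ_self j)
    rw [not_not] at h1
    obtain ⟨s, hs, h⟩ := h1
    refine ⟨s, hs, j, ?_, h⟩
    intro hsf
    obtain ⟨b, hb, h2⟩ := hfr hsf
    apply hfind
    refine ⟨b, hb, ?_⟩
    rw [hmk] at h h2 ⊢
    rw [h, QuotientGroup.mk_pow, h2, QuotientGroup.mk_pow, QuotientGroup.mk_pow, ← pow_mul,
      pow_succ, mul_comm]

end Pool.Agent.Helper64.FS
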