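import Pool.Agent.Helper64.FS.Defs
import Pool.Agent.Helper64.FS.A1
import Pool.Agent.Helper64.FS.E0

set_option autoImplicit false

namespace Pool.Agent.Helper64.FS

universe u v

variable {F : Type u} [Group F] [TopologicalSpace F] [IsTopologicalGroup F] [CompactSpace F]
  [T2Space F] [TotallyDisconnectedSpace F]

/-- `V p ⊤` consists of the constant functions. -/
theorem good_top (p : ℕ) [Fact p.Prime] : Good p (⊤ : Subgroup F) := by
  intro T hTV hT hne f hf
  obtain ⟨f₀, hf₀, hTf₀⟩ := hne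
  have hconst : ∀ g ∈ V p (⊤ : Subgroup F), g = fun _ => g 1 := by
    intro g hg
    funext u
    have := hg.2 1 u (Subgroup.mem_top _)
    rw [one_mul] at this
    exact this
  have h1 := hconst (T f₀) (hTV f₀ hf₀)
  have h2 := hconst f hf
  have hd : (T f₀) 1 ≠ 0 := by
    intro h0
    apply hTf₀
    rw [h1, h0]
    rfl
  refine ⟨(f 1 * ((T f₀) 1)⁻¹) • f₀, Submodule.smul_mem _ _ hf₀, ?_⟩
  rw [map_smul, h1, h2]
  funext u
  simp only [Pi.smul_apply, smul_eq_mul]
  rw [mul_assoc, inv_mul_cancel₀ hd, mul_one]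

/-- `f` is right invariant under the open normal subgroup `sInf c ⊔ N`, which contains some `B ∈ c` by
`exists_le_of_chain`. -/
theorem V_sInf {p : ℕ} {c : Set (Subgroup F)} (hne : c.Nonempty) (hc : IsChain (· ≤ ·) c)
    (h : ∀ B ∈ c, B.Normal ∧ IsClosed (B : Set F)) {f : F → ZMod p} (hf : f ∈ V p (sInf c)) :
    ∃ B ∈ c, f ∈ V p B := by
  obtain ⟨⟨N, hN, hfN⟩, hfc⟩ := hf
  let D : Subgroup F :=
    { carrier := {g | ∀ u, f (u * g) = f u}
      mul_mem' := by
        intro a b ha hb u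
        rw [← mul_assoc, hb (u * a), ha u]
      one_mem' := by
        intro u
        rw [mul_one]
      inv_mem' := by
        intro a ha u
        have := ha (u * a⁻¹)
        rw [inv_mul_cancel_right] at this
        exact this.symm }
  have hND : N ≤ D := fun n hn u => hfN u n hn
  have hDo : IsOpen (D : Set F) := Subgroup.isOpen_mono hND hN.2
  have hle : sInf c ≤ D := fun b hb u => hfc u b hb
  obtain ⟨B, hB, hBD⟩ := exists_le_of_chain hne hc (fun B hB => (h B hB).2) hDo hle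
  exact ⟨B, hB, ⟨N, hN, hfN⟩, fun u b hb => hBD hb u⟩

/-- `T` maps `V p B` (the functions fixed by `rho b`, `b ∈ B`) to itself, `B ∈ c`. It is non-zero on `V p B₀` for some
`B₀ ∈ c`, hence on `V p B` for `B ≤ B₀`; for `f ∈ V p (sInf c)` take `B ∈ c` with `f ∈ V p B`, `B ≤ B₀`. -/
theorem good_sInf {p : ℕ} [Fact p.Prime] {c : Set (Subgroup F)} (hne : c.Nonempty)
    (hc : IsChain (· ≤ ·) c) (h : ∀ B ∈ c, B.Normal ∧ IsClosed (B : Set F) ∧ Good p B) :
    Good p (sInf c) := by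
  intro T hTV hT hTne f hf
  obtain ⟨f₀, hf₀, hTf₀⟩ := hTne
  have h' : ∀ B ∈ c, B.Normal ∧ IsClosed (B : Set F) := fun B hB => ⟨(h B hB).1, (h B hB).2.1⟩
  obtain ⟨B₀, hB₀, hfB₀⟩ := V_sInf hne hc h' hf₀
  obtain ⟨B₁, hB₁, hfB₁⟩ := V_sInf hne hc h' hf
  have key : ∃ B ∈ c, f₀ ∈ V p B ∧ f ∈ V p B := by
    rcases hc.total hB₀ hB₁ with hle | hle
    · exact ⟨B₀, hB₀, hfB₀, V_mono hle hfB₁⟩
    · exact ⟨B₁, hB₁, V_mono hle hfB₀, hfB₁⟩
  obtain ⟨B, hB, hf0B, hfB⟩ := key
  have hle : sInf c ≤ B := sInf_le hB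
  have hTB : ∀ g ∈ V p B, T g ∈ V p B := by
    intro g hg
    have h1 := hTV g (V_mono hle hg)
    refine ⟨h1.1, fun u b hb => ?_⟩
    have h2 := hT b g (V_mono hle hg)
    have h3 : rho p b g = g := by
      funext u
      exact hg.2 u b hb
    rw [h3] at h2
    exact (congrFun h2 u).symm
  obtain ⟨f', hf', hTf'⟩ := (h B hB).2.2 T hTB (fun g g' hg' => hT g g' (V_mono hle hg'))
    ⟨f₀, hf0B, hTf₀⟩ f hfB
  exact ⟨f', V_mono hle hf', hTf'⟩

/-- Zorn. -/
theorem exists_minimal_good (p : ℕ) [Fact p.Prime] (r : F) :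
    ∃ B : Subgroup F, B.Normal ∧ IsClosed (B : Set F) ∧ r ∈ B ∧ Good p B ∧
      ∀ B' : Subgroup F, B'.Normal → IsClosed (B' : Set F) → r ∈ B' → Good p B' → B' ≤ B →
        B' = B := by
  let S : Set (Subgroup F)ᵒᵈ := {B | (OrderDual.ofDual B).Normal ∧
    IsClosed ((OrderDual.ofDual B : Subgroup F) : Set F) ∧ r ∈ OrderDual.ofDual B ∧
      Good p (OrderDual.ofDual B)}
  have htop : OrderDual.toDual (⊤ : Subgroup F) ∈ S :=
    ⟨inferInstanceAs (⊤ : Subgroup F).Normal, isClosed_univ, Subgroup.mem_top _, good_top p⟩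
  have hz := zorn_le_nonempty₀ S (fun c hcS hc y hy => by
    let c' : Set (Subgroup F) := {B | OrderDual.toDual B ∈ c}
    have hne : c'.Nonempty := ⟨OrderDual.ofDual y, hy⟩
    have hc' : IsChain (· ≤ ·) c' := by
      intro a ha b hb hab
      rcases hc ha hb (fun h => hab (OrderDual.toDual.injective h)) with h | h
      · exact Or.inr h
      · exact Or.inl h
    have hS' : ∀ B ∈ c', B.Normal ∧ IsClosed (B : Set F) ∧ r ∈ B ∧ Good p B := fun B hB => hcS hB
    refine ⟨OrderDual.toDual (sInf c'), ⟨?_, ?_, ?_, ?_⟩, ?_⟩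
    · refine ⟨fun n hn g => ?_⟩
      rw [OrderDual.ofDual_toDual, Subgroup.mem_sInf] at hn ⊢
      intro B hB
      exact (hS' B hB).1.conj_mem n (hn B hB) g
    · rw [OrderDual.ofDual_toDual, Subgroup.coe_sInf]
      exact isClosed_biInter fun B hB => (hS' B hB).2.1
    · rw [OrderDual.ofDual_toDual, Subgroup.mem_sInf]
      exact fun B hB => (hS' B hB).2.2.1
    · exact good_sInf hne hc' fun B hB => ⟨(hS' B hB).1, (hS' B hB).2.1, (hS' B hB).2.2.2⟩
    · intro z hz
      exact sInf_le (show OrderDual.ofDual z ∈ c' from hz)) _ htop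
  obtain ⟨m, -, hm⟩ := hz
  obtain ⟨h1, h2, h3, h4⟩ := hm.1
  refine ⟨OrderDual.ofDual m, h1, h2, h3, h4, fun B' h1' h2' h3' h4' hle => ?_⟩
  have := hm.2 (show OrderDual.toDual B' ∈ S from ⟨h1', h2', h3', h4'⟩) hle
  exact le_antisymm hle this

end Pool.Agent.Helper64.FS
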