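import Pool.Agent.Helper64.FS.Defs

set_option autoImplicit false

namespace Pool.Agent.Helper64.FS

universe u v

private theorem lex_aux {d : ℕ} {a L K K₀ : Fin d → ℕ} (h : toLex a < toLex L)
    (he : K + L = K₀ + a) : toLex K < toLex K₀ := by
  obtain ⟨i, hi, hlt⟩ := h
  refine ⟨i, fun j hj => ?_, ?_⟩
  · have h1 := congrFun he j
    have h2 := hi j hj
    simp only [Pi.add_apply] at h1
    change a j = L j at h2
    change K j = K₀ j
    omega
  · have h1 := congrFun he i
    simp only [Pi.add_apply] at h1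
    change a i < L i at hlt
    change K i < K₀ i
    omega

/-- Triangular system: solve from large `L` to small `L` with the unknown `f (K₀ + L)`, i.e.
`Finset.induction_on_min` over `Finset (Lex (Fin d → ℕ))`: for `U` a finite set of `L` with `∑ L = m` there is `f`,
such that the equations hold for `L ∈ U`; if `L₀ < L` for all `L ∈ U`, changing `f (K₀ + L₀)` does not change the
equations for `L ∈ U` (`K₀ + L₀ = K + L` implies `K < K₀`, so `T K = 0` on `E`), and in the equation `L₀` only the
term `K = K₀` changes. -/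
theorem triangular {A : Type*} [AddCommGroup A] (E : AddSubgroup A) {d κ m : ℕ}
    (T : (Fin d → ℕ) → A →+ A) (hT : ∀ K, ∑ i, K i = κ → ∀ f ∈ E, T K f ∈ E)
    (K₀ : Fin d → ℕ) (hK₀ : ∑ i, K₀ i = κ)
    (hlow : ∀ K, ∑ i, K i = κ → toLex K < toLex K₀ → ∀ f ∈ E, T K f = 0)
    (hsurj : ∀ g ∈ E, ∃ f ∈ E, T K₀ f = g) (g : (Fin d → ℕ) → A)
    (hg : ∀ L, ∑ i, L i = m → g L ∈ E) :
    ∃ f : (Fin d → ℕ) → A, (∀ M, f M ∈ E) ∧ ∀ L : Fin d → ℕ, ∑ i, L i = m →
      ∑ K ∈ Finset.piAntidiag Finset.univ κ, T K (f (K + L)) = g L := by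
  classical
  have hmem : ∀ K : Fin d → ℕ, K ∈ Finset.piAntidiag Finset.univ κ ↔ ∑ i, K i = κ := by
    intro K
    simp [Finset.mem_piAntidiag]
  have key : ∀ s : Finset (Lex (Fin d → ℕ)), (∀ L ∈ s, ∑ i, ofLex L i = m) →
      ∃ f : (Fin d → ℕ) → A, (∀ M, f M ∈ E) ∧ ∀ L ∈ s,
        ∑ K ∈ Finset.piAntidiag Finset.univ κ, T K (f (K + ofLex L)) = g (ofLex L) := by
    intro s
    induction s using Finset.induction_on_min with
    | empty => exact fun _ => ⟨fun _ => 0, fun _ => E.zero_mem, fun L hL => absurd hL (by simp)⟩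
    | insert a s has ih =>
      intro hs
      obtain ⟨f, hfE, hf⟩ := ih fun L hL => hs L (Finset.mem_insert_of_mem hL)
      have ha : ∑ i, ofLex a i = m := hs a (Finset.mem_insert_self a s)
      have hrest : g (ofLex a) - ∑ K ∈ (Finset.piAntidiag Finset.univ κ).erase K₀,
          T K (f (K + ofLex a)) ∈ E := by
        refine E.sub_mem (hg _ ha) (E.sum_mem fun K hK => ?_)
        exact hT K ((hmem K).1 (Finset.mem_of_mem_erase hK)) _ (hfE _)
      obtain ⟨h, hhE, hh⟩ := hsurj _ hrest
      refine ⟨Function.update f (K₀ + ofLex a) h, fun M => ?_, fun L hL => ?_⟩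
      · by_cases hM : M = K₀ + ofLex a
        · subst hM
          simpa using hhE
        · simpa [Function.update_of_ne hM] using hfE M
      · rcases Finset.mem_insert.1 hL with rfl | hL'
        · rw [← Finset.add_sum_erase _ _ ((hmem K₀).2 hK₀), Function.update_self, hh]
          have h1 : ∑ K ∈ (Finset.piAntidiag Finset.univ κ).erase K₀,
              T K (Function.update f (K₀ + ofLex L) h (K + ofLex L)) =
              ∑ K ∈ (Finset.piAntidiag Finset.univ κ).erase K₀, T K (f (K + ofLex L)) := by
            refine Finset.sum_congr rfl fun K hK => ?_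
            have hne : K + ofLex L ≠ K₀ + ofLex L := fun he =>
              (Finset.ne_of_mem_erase hK) (add_right_cancel he)
            rw [Function.update_of_ne hne]
          rw [h1]
          abel
        · rw [← hf L hL']
          refine Finset.sum_congr rfl fun K hK => ?_
          by_cases he : K + ofLex L = K₀ + ofLex a
          · have hlt : toLex K < toLex K₀ := lex_aux (has L hL') he
            have hκ := (hmem K).1 hK
            rw [he, Function.update_self, hlow K hκ hlt h hhE, hlow K hκ hlt _ (hfE _)]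
          · rw [Function.update_of_ne he]
  obtain ⟨f, hfE, hf⟩ := key ((Finset.piAntidiag Finset.univ m).map toLex.toEmbedding) (by
    intro L hL
    obtain ⟨K, hK, rfl⟩ := Finset.mem_map.1 hL
    simpa [Finset.mem_piAntidiag] using hK)
  refine ⟨f, hfE, fun L hL => ?_⟩
  exact hf (toLex L) (Finset.mem_map.2 ⟨L, by simp [Finset.mem_piAntidiag, hL], rfl⟩)

end Pool.Agent.Helper64.FS
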