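import Pool.Agent.Helper64.FS.Defs
import Pool.Agent.Helper64.FS.E0

set_option autoImplicit false

namespace Pool.Agent.Helper64.FS

universe u v

variable {F : Type u} [Group F] [TopologicalSpace F]

variable {p : ℕ} [Fact p.Prime] {B C : Subgroup F} {m d : ℕ} {n : Fin d → F}
  {χ : Fin d → F → ZMod p} {Br : (Fin d → ℕ) → ((F → ZMod p) →ₗ[ZMod p] (F → ZMod p))}

private theorem chi_one (hD : Data p B C m d n χ Br) (i : Fin d) : χ i 1 = 0 := by
  have h := hD.hom i 1 B.one_mem 1 B.one_mem
  rw [mul_one] at h
  simpa using h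

private theorem chi_inv (hD : Data p B C m d n χ Br) (i : Fin d) {b : F} (hb : b ∈ B) :
    χ i b⁻¹ = -χ i b := by
  have h := hD.hom i b⁻¹ (B.inv_mem hb) b hb
  rw [inv_mul_cancel, chi_one hD i] at h
  exact eq_neg_of_add_eq_zero_left h.symm

private theorem chi_pow (hD : Data p B C m d n χ Br) (i : Fin d) {b : F} (hb : b ∈ B) (k : ℕ) :
    χ i (b ^ k) = (k : ZMod p) * χ i b := by
  induction k with
  | zero => simp [chi_one hD i]
  | succ k ih =>
    rw [pow_succ, hD.hom i _ (B.pow_mem hb k) b hb, ih]
    push_cast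
    ring

/-- `b = (∏ n i ^ (χ i b).val) * b'` with `χ i b' = 0` for all `i`. -/
theorem Data.gen (hD : Data p B C m d n χ Br) (S : Subgroup F) (h1 : ∀ j, n j ∈ S)
    (h2 : ∀ b ∈ B, (∀ i, χ i b = 0) → b ∈ S) : B ≤ S := by
  classical
  have key : ∀ s : Finset (Fin d), ∀ b ∈ B, (∀ i, i ∉ s → χ i b = 0) → b ∈ S := by
    intro s
    induction s using Finset.induction_on with
    | empty =>
      intro b hb h
      exact h2 b hb fun i => h i (Finset.notMem_empty i)
    | insert a s ha ih =>
      intro b hb h
      have hcB : n a ^ (χ a b).val ∈ B := B.pow_mem (hD.nB a) _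
      have hcS : n a ^ (χ a b).val ∈ S := S.pow_mem (h1 a) _
      have hb' : (n a ^ (χ a b).val)⁻¹ * b ∈ B := B.mul_mem (B.inv_mem hcB) hb
      have hmem : (n a ^ (χ a b).val)⁻¹ * b ∈ S := by
        apply ih _ hb'
        intro i hi
        rw [hD.hom i _ (B.inv_mem hcB) b hb, chi_inv hD i hcB, chi_pow hD i (hD.nB a),
          hD.dual i a, ZMod.natCast_zmod_val]
        by_cases hia : i = a
        · subst hia
          rw [if_pos rfl, mul_one, neg_add_cancel]
        · rw [if_neg hia, mul_zero, neg_zero, zero_add]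
          apply h
          rw [Finset.mem_insert]
          rintro (h' | h')
          · exact hia h'
          · exact hi h'
      have := S.mul_mem hcS hmem
      rwa [mul_inv_cancel_left] at this
  intro b hb
  exact key Finset.univ b hb fun i hi => absurd (Finset.mem_univ i) hi

/-- Both sides are additive in `b` modulo `Lam (k - 1)` (`lam_add`), so `Data.gen` applies. For `k = 0` all
differences of `f ∈ Lam 1` vanish. -/
theorem Data.symbol (hD : Data p B C m d n χ Br) {k : ℕ} {f : F → ZMod p}
    (hf : LamW p B C χ k f) {b : F} (hb : b ∈ B) :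
    Df p b f - ∑ i, χ i b • Df p (n i) f ∈ Lam p B C (k - 1) := by
  classical
  cases k with
  | zero =>
    have h0 : ∀ c ∈ B, Df p c f = 0 := fun c hc => lam_zero.1 (hf.1.2 c hc)
    have h1 : Df p b f - ∑ i, χ i b • Df p (n i) f = 0 := by
      rw [h0 b hb, Finset.sum_eq_zero, sub_zero]
      intro i _
      rw [h0 _ (hD.nB i), smul_zero]
    rw [h1]
    exact Submodule.zero_mem _
  | succ j =>
    have hf1 : f ∈ Lam p B C (j + 2) := hf.1
    have hf2 : ∀ b ∈ B, (∀ i, χ i b = 0) → Df p b f ∈ Lam p B C j := hf.2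
    show Df p b f - ∑ i, χ i b • Df p (n i) f ∈ Lam p B C j
    have hadd : ∀ b ∈ B, ∀ b' ∈ B,
        (Df p (b * b') f - ∑ i, χ i (b * b') • Df p (n i) f)
          - (Df p b f - ∑ i, χ i b • Df p (n i) f)
          - (Df p b' f - ∑ i, χ i b' • Df p (n i) f) ∈ Lam p B C j := by
      intro b hb b' hb'
      have hs : ∑ i, χ i (b * b') • Df p (n i) f
          = ∑ i, χ i b • Df p (n i) f + ∑ i, χ i b' • Df p (n i) f := by
        rw [← Finset.sum_add_distrib]
        refine Finset.sum_congr rfl fun i _ => ?_
        rw [hD.hom i b hb b' hb', add_smul]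
      have h := lam_add hf1 hb hb'
      have h2 : (Df p (b * b') f - ∑ i, χ i (b * b') • Df p (n i) f)
          - (Df p b f - ∑ i, χ i b • Df p (n i) f)
          - (Df p b' f - ∑ i, χ i b' • Df p (n i) f)
          = Df p (b * b') f - Df p b f - Df p b' f := by
        rw [hs]
        abel
      rw [h2]
      exact h
    have hone : Df p (1 : F) f - ∑ i, χ i 1 • Df p (n i) f = 0 := by
      have h1 : Df p (1 : F) f = 0 := by
        funext u
        simp [Df_apply]
      rw [h1, Finset.sum_eq_zero, sub_zero]
      intro i _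
      rw [chi_one hD i, zero_smul]
    let S : Subgroup F :=
      { carrier := {b | b ∈ B ∧ Df p b f - ∑ i, χ i b • Df p (n i) f ∈ Lam p B C j}
        mul_mem' := by
          rintro a b ⟨ha, ha'⟩ ⟨hb, hb'⟩
          refine ⟨B.mul_mem ha hb, ?_⟩
          have h := Submodule.add_mem _ (Submodule.add_mem _ (hadd a ha b hb) ha') hb'
          have h2 : (Df p (a * b) f - ∑ i, χ i (a * b) • Df p (n i) f)
              - (Df p a f - ∑ i, χ i a • Df p (n i) f)
              - (Df p b f - ∑ i, χ i b • Df p (n i) f)
              + (Df p a f - ∑ i, χ i a • Df p (n i) f)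
              + (Df p b f - ∑ i, χ i b • Df p (n i) f)
              = Df p (a * b) f - ∑ i, χ i (a * b) • Df p (n i) f := by abel
          rwa [h2] at h
        one_mem' := by
          refine ⟨B.one_mem, ?_⟩
          rw [hone]
          exact Submodule.zero_mem _
        inv_mem' := by
          rintro a ⟨ha, ha'⟩
          refine ⟨B.inv_mem ha, ?_⟩
          have h := Submodule.neg_mem _
            (Submodule.add_mem _ (hadd a⁻¹ (B.inv_mem ha) a ha) ha')
          rw [inv_mul_cancel, hone] at h
          have h2 : -(0 - (Df p a⁻¹ f - ∑ i, χ i a⁻¹ • Df p (n i) f)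
              - (Df p a f - ∑ i, χ i a • Df p (n i) f)
              + (Df p a f - ∑ i, χ i a • Df p (n i) f))
              = Df p a⁻¹ f - ∑ i, χ i a⁻¹ • Df p (n i) f := by abel
          rwa [h2] at h }
    have hle : B ≤ S := by
      apply hD.gen S
      · intro j'
        refine ⟨hD.nB j', ?_⟩
        have h1 : Df p (n j') f - ∑ i, χ i (n j') • Df p (n i) f = 0 := by
          rw [Finset.sum_eq_single j']
          · rw [hD.dual j' j', if_pos rfl, one_smul, sub_self]
          · intro i _ hi
            rw [hD.dual i j', if_neg hi, zero_smul]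
          · intro h
            exact absurd (Finset.mem_univ j') h
        rw [h1]
        exact Submodule.zero_mem _
      · intro b hb h0
        refine ⟨hb, ?_⟩
        have h1 : ∑ i, χ i b • Df p (n i) f = 0 := by
          apply Finset.sum_eq_zero
          intro i _
          rw [h0 i, zero_smul]
        rw [h1, sub_zero]
        exact hf2 b hb h0
    exact (hle hb).2

private theorem Dw_append_one (l : List (Fin d)) (i : Fin d) (f : F → ZMod p) :
    Dw p n (l ++ [i]) f = Dw p n l (Df p (n i) f) := by
  induction l with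
  | nil => rfl
  | cons a l ih =>
    show Df p (n a) (Dw p n (l ++ [i]) f) = Df p (n a) (Dw p n l (Df p (n i) f))
    rw [ih]

/-- Induction on `k`: `f i = Df (n i) f` satisfies the hypotheses for `k - 1` (use `Df_comm`), so it is in
`Lam (k - 1)`, and `Data.symbol` gives `Df b f ∈ Lam (k - 1)` for all `b ∈ B`. -/
theorem Data.cprime [C.Normal] (hcomm : ∀ b ∈ B, ∀ b' ∈ B, b * b' * b⁻¹ * b'⁻¹ ∈ C)
    (hD : Data p B C m d n χ Br) (k : ℕ) (f : F → ZMod p) (hf : LamW p B C χ k f)
    (h : ∀ l : List (Fin d), l.length = k → Dw p n l f = 0) : f ∈ Lam p B C k := by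
  induction k generalizing f with
  | zero =>
    have h0 : f = 0 := h [] rfl
    rw [h0]
    exact Submodule.zero_mem _
  | succ k ih =>
    have hV : f ∈ V p C := lam_le_V _ hf.1
    have hfi : ∀ i, Df p (n i) f ∈ Lam p B C k := by
      intro i
      apply ih
      · refine ⟨lam_Df hf.1 (hD.nB i), fun b hb h0 => ?_⟩
        rw [Df_comm hcomm hV hb (hD.nB i)]
        have h1 : Df p b f ∈ Lam p B C k := hf.2 b hb h0
        cases k with
        | zero =>
          rw [lam_zero.1 h1, map_zero]
          exact Submodule.zero_mem _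
        | succ k' => exact lam_Df h1 (hD.nB i)
      · intro l hl
        rw [← Dw_append_one]
        apply h
        simp [hl]
    refine ⟨hV, fun b hb => ?_⟩
    have h1 : Df p b f - ∑ i, χ i b • Df p (n i) f ∈ Lam p B C k := hD.symbol hf hb
    have h2 : ∑ i, χ i b • Df p (n i) f ∈ Lam p B C k :=
      Submodule.sum_mem _ fun i _ => Submodule.smul_mem _ _ (hfi i)
    have h3 := Submodule.add_mem _ h1 h2
    rwa [sub_add_cancel] at h3

end Pool.Agent.Helper64.FS
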