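import Pool.Agent.Helper64.FS.Defs
import Pool.Agent.Helper64.FS.E0
import Pool.Agent.Helper64.FS.E8

set_option autoImplicit false

namespace Pool.Agent.Helper64.FS

universe u v

variable {F : Type u} [Group F] [TopologicalSpace F]

variable {p : ℕ} [Fact p.Prime] {B C : Subgroup F} {m d : ℕ} {n : Fin d → F}
  {χ : Fin d → F → ZMod p} {Br : (Fin d → ℕ) → ((F → ZMod p) →ₗ[ZMod p] (F → ZMod p))}

theorem Dw_append (n : Fin d → F) (l l' : List (Fin d)) (f : F → ZMod p) :
    Dw p n (l ++ l') f = Dw p n l (Dw p n l' f) := by
  induction l with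
  | nil => rfl
  | cons a l ih =>
    show Df p (n a) (Dw p n (l ++ l') f) = Df p (n a) (Dw p n l (Dw p n l' f))
    rw [ih]

theorem Dw_rho (n : Fin d → F) (l : List (Fin d)) (g : F) (f : F → ZMod p) :
    Dw p n l (rho p g f) = rho p g (Dw p (fun i => g⁻¹ * n i * g) l f) := by
  induction l with
  | nil => rfl
  | cons a l ih =>
    show Df p (n a) (Dw p n l (rho p g f))
      = rho p g (Df p (g⁻¹ * n a * g) (Dw p (fun i => g⁻¹ * n i * g) l f))
    rw [ih, Df_rho]

theorem lam_Dw (hn : ∀ j, n j ∈ B) (l : List (Fin d)) {j : ℕ} {f : F → ZMod p}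
    (hf : f ∈ Lam p B C (j + l.length)) : Dw p n l f ∈ Lam p B C j := by
  induction l generalizing j with
  | nil => exact hf
  | cons a l ih =>
    show Df p (n a) (Dw p n l f) ∈ Lam p B C j
    apply lam_Df _ (hn a)
    apply ih
    have h : j + (a :: l).length = j + 1 + l.length := by
      rw [List.length_cons]
      omega
    rwa [h] at hf

theorem Dw_kill (hn : ∀ j, n j ∈ B) (l : List (Fin d)) {j : ℕ} (hj : j ≤ l.length)
    {f : F → ZMod p} (hf : f ∈ Lam p B C j) : Dw p n l f = 0 := by
  have h1 : f ∈ Lam p B C (0 + l.length) := by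
    rw [zero_add]
    exact lam_mono hj hf
  exact lam_zero.1 (lam_Dw hn l h1)

theorem Dw_perm [C.Normal] (hcomm : ∀ b ∈ B, ∀ b' ∈ B, b * b' * b⁻¹ * b'⁻¹ ∈ C)
    (hn : ∀ j, n j ∈ B) {l l' : List (Fin d)} (h : cnt l = cnt l') {f : F → ZMod p}
    (hf : f ∈ V p C) : Dw p n l f = Dw p n l' f := by
  have hperm : l.Perm l' := List.perm_iff_count.2 fun a => congrFun h a
  clear h
  have hVD : ∀ l : List (Fin d), Dw p n l f ∈ V p C := by
    intro l
    induction l with
    | nil => exact hf
    | cons a l ih => exact V_Df (n a) ih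
  induction hperm with
  | nil => rfl
  | cons x _ ih =>
    show Df p (n x) _ = Df p (n x) _
    rw [ih]
  | swap x y l =>
    show Df p (n y) (Df p (n x) (Dw p n l f)) = Df p (n x) (Df p (n y) (Dw p n l f))
    exact Df_comm hcomm (hVD l) (hn y) (hn x)
  | trans _ _ ih1 ih2 => exact ih1.trans ih2

theorem cnt_wd (K : Fin d → ℕ) : cnt (wd K) = K := by
  funext i
  unfold cnt wd
  rw [List.count_flatMap, ← Fin.sum_univ_def]
  rw [Finset.sum_eq_single i]
  · simp
  · intro j _ hj
    simp only [Function.comp_apply]
    rw [List.count_replicate]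
    simp [hj]
  · intro h
    exact absurd (Finset.mem_univ i) h

theorem length_wd (K : Fin d → ℕ) : (wd K).length = ∑ i, K i := by
  unfold wd
  rw [List.length_flatMap, ← Fin.sum_univ_def]
  simp

theorem sum_cnt (l : List (Fin d)) : ∑ i, cnt l i = l.length := by
  induction l with
  | nil => simp [cnt]
  | cons a l ih =>
    have h : ∀ i, cnt (a :: l) i = cnt l i + if a = i then 1 else 0 := by
      intro i
      unfold cnt
      rw [List.count_cons]
      simp [beq_iff_eq]
    rw [Finset.sum_congr rfl fun i _ => h i, Finset.sum_add_distrib, ih]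
    simp

theorem Data.lamW (hD : Data p B C m d n χ Br) (K : Fin d → ℕ) (hK : ∑ i, K i ≤ m)
    {h : F → ZMod p} (hh : h ∈ V p B) : LamW p B C χ (∑ i, K i) (Br K h) := by
  exact ⟨hD.mem K hK h hh, fun b hb h0 => hD.brW K hK h hh b hb h0⟩

private theorem cnt_cons (a : Fin d) (l : List (Fin d)) : cnt (a :: l) = cnt l + Pi.single a 1 := by
  funext i
  unfold cnt
  rw [List.count_cons, Pi.add_apply, Pi.single_apply]
  by_cases h : a = i
  · simp [h]
  · have h' : ¬ i = a := fun h'' => h h''.symm
    simp [h, h']

private theorem cnt_snoc (a : Fin d) (l : List (Fin d)) :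
    cnt (l ++ [a]) = cnt l + Pi.single a 1 := by
  funext i
  unfold cnt
  rw [List.count_append, Pi.add_apply, Pi.single_apply]
  by_cases h : a = i
  · simp [h]
  · have h' : ¬ i = a := fun h'' => h h''.symm
    simp [h, h']

private theorem upd_add (K : Fin d → ℕ) (j : Fin d) (hj : K j ≠ 0) :
    Function.update K j (K j - 1) + Pi.single j 1 = K := by
  funext i
  rw [Pi.add_apply, Pi.single_apply]
  by_cases h : i = j
  · subst h
    simp
    omega
  · simp [h]

private theorem sum_upd (K : Fin d → ℕ) (j : Fin d) (hj : K j ≠ 0) :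
    ∑ i, Function.update K j (K j - 1) i + 1 = ∑ i, K i := by
  conv_rhs => rw [← upd_add K j hj]
  simp only [Pi.add_apply]
  rw [Finset.sum_add_distrib]
  simp

theorem Data.dw (hD : Data p B C m d n χ Br) (l : List (Fin d)) (K : Fin d → ℕ)
    (hK : ∑ i, K i ≤ m) {h : F → ZMod p} (hh : h ∈ V p B) :
    (cnt l ≤ K → Dw p n l (Br K h) = Br (K - cnt l) h) ∧
      (¬ cnt l ≤ K → Dw p n l (Br K h) = 0) := by
  induction l with
  | nil =>
    have h0 : cnt ([] : List (Fin d)) = 0 := by
      funext i
      simp [cnt]
    rw [h0]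
    refine ⟨fun _ => ?_, fun hh' => absurd (fun i => Nat.zero_le _) hh'⟩
    rw [tsub_zero]
    rfl
  | cons a l ih =>
    have hcons := cnt_cons a l
    constructor
    · intro hle
      have hle' : cnt l ≤ K := by
        intro i
        have := hle i
        rw [hcons, Pi.add_apply] at this
        exact le_trans (Nat.le_add_right _ _) this
      show Df p (n a) (Dw p n l (Br K h)) = _
      rw [ih.1 hle']
      have hs : ∑ i, (K - cnt l) i ≤ m :=
        le_trans (Finset.sum_le_sum fun i _ => by rw [Pi.sub_apply]; exact Nat.sub_le _ _) hK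
      rw [hD.brD _ hs h hh a]
      have ha : cnt l a + 1 ≤ K a := by
        have := hle a
        rwa [hcons, Pi.add_apply, Pi.single_eq_same] at this
      have hne : ¬ (K - cnt l) a = 0 := by
        show ¬ (K a - cnt l a = 0)
        omega
      rw [if_neg hne]
      congr 1
      congr 1
      funext i
      rw [hcons]
      by_cases hi : i = a
      · subst hi
        simp
        omega
      · simp [hi]
    · intro hle
      show Df p (n a) (Dw p n l (Br K h)) = 0
      by_cases hle' : cnt l ≤ K
      · rw [ih.1 hle']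
        have hs : ∑ i, (K - cnt l) i ≤ m :=
          le_trans (Finset.sum_le_sum fun i _ => by rw [Pi.sub_apply]; exact Nat.sub_le _ _) hK
        rw [hD.brD _ hs h hh a, if_pos]
        by_contra hne
        apply hle
        intro i
        rw [hcons]
        by_cases hi : i = a
        · subst hi
          have hne' : ¬ (K i - cnt l i = 0) := hne
          rw [Pi.add_apply, Pi.single_eq_same]
          show cnt l i + 1 ≤ K i
          omega
        · simpa [hi] using hle' i
      · rw [ih.2 hle', map_zero]

/-- Induction on `l` from the right (`List.reverseRecOn`, `Dw_append`), both statements together. With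
`b = g⁻¹ * n i * g`, `Data.symbol` for `Br K h` (`Data.lamW`) gives `Df b (Br K h)` as the sum of the
`χ i' b • Df (n i') (Br K h)` modulo `Lam (∑ K - 1)`, which is killed by the remaining word (`Dw_kill`). Here
`χ i' b = 0` for `i < i'`, `χ i b = 1` (`flag`, `diag`), and `Df (n i') (Br K h) = Br (K - e_i') h` or `0`. In
the lexicographic order `e_i ≤ e_i'` for `i' ≤ i`, and the order is compatible with addition
(`Pi.Lex.isOrderedCancelAddMonoid`). -/
theorem Data.dw_conj [B.Normal] (hD : Data p B C m d n χ Br) (g : F) (l : List (Fin d))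
    (K : Fin d → ℕ) (hK : ∑ i, K i ≤ m) (hl : l.length = ∑ i, K i) {h : F → ZMod p}
    (hh : h ∈ V p B) :
    (toLex K < toLex (cnt l) → Dw p (fun i => g⁻¹ * n i * g) l (Br K h) = 0) ∧
      (cnt l = K → Dw p (fun i => g⁻¹ * n i * g) l (Br K h) = h) := by
  classical
  have hn' : ∀ j, g⁻¹ * n j * g ∈ B := by
    intro j
    have hB : B.Normal := inferInstance
    simpa using hB.conj_mem (n j) (hD.nB j) g⁻¹
  have hsing : ∀ i i' : Fin d, i' < i →
      toLex (Pi.single i 1 : Fin d → ℕ) < toLex (Pi.single i' 1 : Fin d → ℕ) := by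
    intro i i' h
    refine ⟨i', fun j hj => ?_, ?_⟩
    · show (Pi.single i 1 : Fin d → ℕ) j = (Pi.single i' 1 : Fin d → ℕ) j
      rw [Pi.single_eq_of_ne (ne_of_lt (hj.trans h)), Pi.single_eq_of_ne (ne_of_lt hj)]
    · show (Pi.single i 1 : Fin d → ℕ) i' < (Pi.single i' 1 : Fin d → ℕ) i'
      rw [Pi.single_eq_of_ne (ne_of_lt h), Pi.single_eq_same]
      exact Nat.one_pos
  induction l using List.reverseRecOn generalizing K with
  | nil =>
    have h0 : cnt ([] : List (Fin d)) = 0 := by
      funext i
      simp [cnt]
    have hK0 : K = 0 := by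
      funext i
      have h1 : ∑ i, K i = 0 := hl.symm
      exact (Finset.sum_eq_zero_iff.1 h1) i (Finset.mem_univ i)
    rw [h0, hK0]
    refine ⟨fun hlt => absurd hlt (lt_irrefl _), fun _ => ?_⟩
    rw [hD.br0]
    rfl
  | append_singleton l i ih =>
    have hcnt := cnt_snoc i l
    have hlen : l.length + 1 = ∑ i, K i := by
      rw [← hl]
      simp
    have hW := hD.lamW K hK hh
    have hsym := hD.symbol hW (hn' i)
    have hkill := Dw_kill (C := C) (n := fun i => g⁻¹ * n i * g) hn' l
      (j := ∑ i, K i - 1) (by omega) hsym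
    rw [map_sub, sub_eq_zero, map_sum] at hkill
    have hterm : ∀ i', Dw p (fun i => g⁻¹ * n i * g) l (χ i' (g⁻¹ * n i * g) • Df p (n i') (Br K h))
        = if K i' = 0 then 0 else χ i' (g⁻¹ * n i * g) •
          Dw p (fun i => g⁻¹ * n i * g) l (Br (Function.update K i' (K i' - 1)) h) := by
      intro i'
      rw [map_smul, hD.brD K hK h hh i']
      by_cases h0 : K i' = 0
      · rw [if_pos h0, if_pos h0, map_zero, smul_zero]
      · rw [if_neg h0, if_neg h0]
    rw [Finset.sum_congr rfl fun i' _ => hterm i'] at hkill
    have hDl : Dw p (fun i => g⁻¹ * n i * g) (l ++ [i]) (Br K h)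
        = Dw p (fun i => g⁻¹ * n i * g) l (Df p (g⁻¹ * n i * g) (Br K h)) := by
      rw [Dw_append]
      rfl
    rw [hDl, hkill]
    have hIH : ∀ i', K i' ≠ 0 → ∑ j, Function.update K i' (K i' - 1) j ≤ m ∧
        l.length = ∑ j, Function.update K i' (K i' - 1) j := by
      intro i' h0
      have := sum_upd K i' h0
      constructor <;> omega
    have hle : ∀ i', i' ≤ i →
        toLex (Pi.single i 1 : Fin d → ℕ) ≤ toLex (Pi.single i' 1 : Fin d → ℕ) := by
      intro i' hi'
      rcases eq_or_lt_of_le hi' with rfl | hlt
      · exact le_rfl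
      · exact (hsing i i' hlt).le
    constructor
    · intro hlt
      rw [hcnt] at hlt
      apply Finset.sum_eq_zero
      intro i' _
      by_cases h0 : K i' = 0
      · rw [if_pos h0]
      · rw [if_neg h0]
        by_cases hi' : i < i'
        · rw [hD.flag g i' i hi', zero_smul]
        · have h1 := hle i' (not_lt.1 hi')
          have h2 : toLex (Function.update K i' (K i' - 1)) < toLex (cnt l) := by
            have h3 : toLex (Function.update K i' (K i' - 1)) + toLex (Pi.single i' 1 : Fin d → ℕ)
                < toLex (cnt l) + toLex (Pi.single i' 1 : Fin d → ℕ) := by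
              rw [← toLex_add, upd_add K i' h0]
              refine lt_of_lt_of_le hlt ?_
              rw [toLex_add]
              exact add_le_add_right h1 _
            exact lt_of_add_lt_add_right h3
          rw [(ih _ (hIH i' h0).1 (hIH i' h0).2).1 h2, smul_zero]
    · intro heq
      rw [hcnt] at heq
      have hKi : K i ≠ 0 := by
        rw [← heq, Pi.add_apply, Pi.single_eq_same]
        omega
      rw [Finset.sum_eq_single i]
      · rw [if_neg hKi, hD.diag g i, one_smul]
        apply (ih _ (hIH i hKi).1 (hIH i hKi).2).2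
        have := upd_add K i hKi
        rw [← heq] at this
        rw [← heq]
        exact (add_right_cancel this).symm
      · intro i' _ hne
        by_cases h0 : K i' = 0
        · rw [if_pos h0]
        · rw [if_neg h0]
          by_cases hi' : i < i'
          · rw [hD.flag g i' i hi', zero_smul]
          · have hlt : i' < i := lt_of_le_of_ne (not_lt.1 hi') hne
            have h1 := hsing i i' hlt
            have h2 : toLex (Function.update K i' (K i' - 1)) < toLex (cnt l) := by
              have h3 : toLex (Function.update K i' (K i' - 1))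
                  + toLex (Pi.single i' 1 : Fin d → ℕ)
                  < toLex (cnt l) + toLex (Pi.single i' 1 : Fin d → ℕ) := by
                rw [← toLex_add, upd_add K i' h0, ← heq, toLex_add]
                exact add_lt_add_right h1 _
              exact lt_of_add_lt_add_right h3
            rw [(ih _ (hIH i' h0).1 (hIH i' h0).2).1 h2, smul_zero]
      · intro h'
        exact absurd (Finset.mem_univ i) h'

end Pool.Agent.Helper64.FS
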