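import Pool.Agent.Helper64.FS.Defs
import Pool.Agent.Helper64.FS.E0
import Pool.Agent.Helper64.FS.E8
import Pool.Agent.Helper64.FS.E9
import Pool.Agent.Helper64.FS.E10

set_option autoImplicit false

namespace Pool.Agent.Helper64.FS

universe u v

variable {F : Type u} [Group F] [TopologicalSpace F]

variable {p : ℕ} [Fact p.Prime] {B C : Subgroup F} {m d : ℕ} {n : Fin d → F}
  {χ : Fin d → F → ZMod p} {Br : (Fin d → ℕ) → ((F → ZMod p) →ₗ[ZMod p] (F → ZMod p))}

theorem LamW.sub {k : ℕ} {f g : F → ZMod p} (hf : LamW p B C χ k f) (hg : LamW p B C χ k g) :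
    LamW p B C χ k (f - g) := by
  refine ⟨Submodule.sub_mem _ hf.1 hg.1, fun b hb hχ => ?_⟩
  rw [map_sub]
  exact Submodule.sub_mem _ (hf.2 b hb hχ) (hg.2 b hb hχ)

theorem LamW.sum {ι : Type*} (s : Finset ι) {k : ℕ} (f : ι → F → ZMod p)
    (hf : ∀ i ∈ s, LamW p B C χ k (f i)) : LamW p B C χ k (∑ i ∈ s, f i) := by
  refine ⟨Submodule.sum_mem _ fun i hi => (hf i hi).1, fun b hb hχ => ?_⟩
  rw [map_sum]
  exact Submodule.sum_mem _ fun i hi => (hf i hi).2 b hb hχ

/-- `Df_rho`, `lam_rho` and `Data.stab`. -/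
theorem Data.lamW_rho [B.Normal] [C.Normal] (hD : Data p B C m d n χ Br) (g : F) {k : ℕ}
    {f : F → ZMod p} (hf : LamW p B C χ k f) : LamW p B C χ k (rho p g f) := by
  refine ⟨lam_rho g hf.1, fun b hb hχ => ?_⟩
  rw [Df_rho]
  apply lam_rho
  apply hf.2
  · have h := (inferInstance : B.Normal).conj_mem b hb g⁻¹
    rwa [inv_inv] at h
  · exact hD.stab g b hb hχ

/-- The coefficients of `f ∈ LamW k` are in `V p B` (`lam_Dw`, `lam_one`). -/
theorem Data.coef_mem (hCB : C ≤ B) (hD : Data p B C m d n χ Br) {k : ℕ} {f : F → ZMod p}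
    (hf : LamW p B C χ k f) {l : List (Fin d)} (hl : l.length = k) : Dw p n l f ∈ V p B := by
  rw [← lam_one hCB]
  apply lam_Dw hD.nB
  rw [hl, add_comm]
  exact hf.1

/-- `Data.cprime` for the difference; its coefficients vanish by `Data.dw` and `Dw_perm`
(`cnt l ≤ K` with equal sums means `cnt l = K`). -/
theorem Data.expand [C.Normal] (hCB : C ≤ B)
    (hcomm : ∀ b ∈ B, ∀ b' ∈ B, b * b' * b⁻¹ * b'⁻¹ ∈ C) (hD : Data p B C m d n χ Br) {k : ℕ}
    (hk : k ≤ m) {f : F → ZMod p} (hf : LamW p B C χ k f) :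
    f - ∑ K ∈ Finset.piAntidiag Finset.univ k, Br K (Dw p n (wd K) f) ∈ Lam p B C k := by
  have hsumK : ∀ K ∈ Finset.piAntidiag (Finset.univ : Finset (Fin d)) k, ∑ i, K i = k :=
    fun K hK => (Finset.mem_piAntidiag.mp hK).1
  have hcoef : ∀ K ∈ Finset.piAntidiag (Finset.univ : Finset (Fin d)) k,
      Dw p n (wd K) f ∈ V p B := by
    intro K hK
    apply Data.coef_mem hCB hD hf
    rw [length_wd]
    exact hsumK K hK
  have hW : LamW p B C χ k (∑ K ∈ Finset.piAntidiag Finset.univ k, Br K (Dw p n (wd K) f)) := by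
    apply LamW.sum
    intro K hK
    have h1 := hsumK K hK
    have h2 := Data.lamW hD K (by rw [h1]; exact hk) (hcoef K hK)
    rwa [h1] at h2
  refine Data.cprime hcomm hD k _ (LamW.sub hf hW) ?_
  intro l hl
  have hcl : ∑ i, cnt l i = k := by rw [sum_cnt, hl]
  have hmem : cnt l ∈ Finset.piAntidiag (Finset.univ : Finset (Fin d)) k :=
    Finset.mem_piAntidiag.mpr ⟨hcl, fun i _ => Finset.mem_univ i⟩
  rw [map_sub, map_sum, Finset.sum_eq_single (cnt l)]
  · have h1 := (Data.dw hD l (cnt l) (by rw [hcl]; exact hk) (hcoef _ hmem)).1 le_rfl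
    rw [h1, tsub_self, hD.br0]
    have hfV : f ∈ V p C := lam_le_V _ hf.1
    have h2 := Dw_perm (p := p) (n := n) hcomm hD.nB (l := wd (cnt l)) (l' := l)
      (cnt_wd (cnt l)) hfV
    rw [h2, sub_self]
  · intro K hK hne
    have h1 := hsumK K hK
    refine (Data.dw hD l K (by rw [h1]; exact hk) (hcoef K hK)).2 ?_
    intro hle
    apply hne
    have h3 : ∀ i ∈ (Finset.univ : Finset (Fin d)), cnt l i ≤ K i := fun i _ => hle i
    have h4 := (Finset.sum_eq_sum_iff_of_le h3).mp (by rw [hcl, h1])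
    funext i
    exact (h4 i (Finset.mem_univ i)).symm
  · intro h
    exact absurd hmem h

end Pool.Agent.Helper64.FS
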