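import Pool.Agent.Helper64.FS.Defs
import Pool.Agent.Helper64.FS.E0
import Pool.Agent.Helper64.FS.E8
import Pool.Agent.Helper64.FS.E9
import Pool.Agent.Helper64.FS.E10
import Pool.Agent.Helper64.FS.E11

set_option autoImplicit false

namespace Pool.Agent.Helper64.FS

universe u v

variable {F : Type u} [Group F] [TopologicalSpace F]

variable {p : ℕ} [Fact p.Prime] {B C : Subgroup F} {m d κ : ℕ} {n : Fin d → F}
  {χ : Fin d → F → ZMod p} {Br : (Fin d → ℕ) → ((F → ZMod p) →ₗ[ZMod p] (F → ZMod p))}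
  {T : (F → ZMod p) →ₗ[ZMod p] (F → ZMod p)}

/-- `Br K h ∈ Lam (κ + 1)`, so `T (Br K h) ∈ Lam 1 = V p B` by `T_lam`. -/
theorem T_Br_mem (hCB : C ≤ B) (hD : Data p B C m d n χ Br) (hκm : κ ≤ m)
    (hTV : ∀ f ∈ V p C, T f ∈ V p C)
    (hT : ∀ g, ∀ f ∈ V p C, T (rho p g f) = rho p g (T f))
    (hκ : ∀ f ∈ Lam p B C κ, T f = 0) (K : Fin d → ℕ) (hK : ∑ i, K i = κ) {h : F → ZMod p}
    (hh : h ∈ V p B) : T (Br K h) ∈ V p B := by
  have h1 : Br K h ∈ Lam p B C (1 + κ) := by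
    have := hD.mem K (hK.le.trans hκm) h hh
    rwa [hK, add_comm] at this
  exact (lam_one hCB).1 (T_lam hTV hT hκ 1 _ h1)

/-- `f₂ = rho g (Br K₀ h) - Br K₀ (rho g h)` is in `LamW κ` (`Data.lamW`, `Data.lamW_rho`, `V_rho`). Its coefficients
at `K ≥ K₀` are `0`: `Dw (wd K) (rho g (Br K₀ h)) = rho g (Dw^g (wd K) (Br K₀ h))` (`Dw_rho`), which is `0` for `K > K₀` and
`rho g h` for `K = K₀` (`Data.dw_conj`), and `Dw (wd K) (Br K₀ (rho g h))` is `0`, resp. `rho g h` (`Data.dw`). So by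
`Data.expand` `f₂` is a sum of `Br K (…)`, `K < K₀`, modulo `Lam κ`, and `T f₂ = 0`. -/
theorem T_Br_rho [B.Normal] [C.Normal] (hCB : C ≤ B)
    (hcomm : ∀ b ∈ B, ∀ b' ∈ B, b * b' * b⁻¹ * b'⁻¹ ∈ C) (hD : Data p B C m d n χ Br)
    (hκm : κ ≤ m) (hT : ∀ g, ∀ f ∈ V p C, T (rho p g f) = rho p g (T f))
    (hκ : ∀ f ∈ Lam p B C κ, T f = 0) (K₀ : Fin d → ℕ) (hK₀ : ∑ i, K₀ i = κ)
    (hlow : ∀ K : Fin d → ℕ, ∑ i, K i = κ → toLex K < toLex K₀ → ∀ h ∈ V p B, T (Br K h) = 0)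
    (g : F) {h : F → ZMod p} (hh : h ∈ V p B) : T (Br K₀ (rho p g h)) = rho p g (T (Br K₀ h)) := by
  have hle : ∑ i, K₀ i ≤ m := hK₀.le.trans hκm
  have hgh : rho p g h ∈ V p B := V_rho g hh
  have hW1 : LamW p B C χ κ (Br K₀ h) := hK₀ ▸ hD.lamW K₀ hle hh
  have hW2 : LamW p B C χ κ (Br K₀ (rho p g h)) := hK₀ ▸ hD.lamW K₀ hle hgh
  have hW : LamW p B C χ κ (rho p g (Br K₀ h) - Br K₀ (rho p g h)) :=
    (hD.lamW_rho g hW1).sub hW2
  have hex := hκ _ (hD.expand hCB hcomm hκm hW)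
  rw [map_sub, map_sum, sub_eq_zero] at hex
  have hzero : ∑ K ∈ Finset.piAntidiag Finset.univ κ,
      T (Br K (Dw p n (wd K) (rho p g (Br K₀ h) - Br K₀ (rho p g h)))) = 0 := by
    refine Finset.sum_eq_zero fun K hK => ?_
    have hKs : ∑ i, K i = κ := (Finset.mem_piAntidiag.1 hK).1
    have hlen : (wd K).length = κ := by rw [length_wd, hKs]
    by_cases hlt : toLex K < toLex K₀
    · exact hlow K hKs hlt _ (hD.coef_mem hCB hW hlen)
    · have hc : Dw p n (wd K) (rho p g (Br K₀ h) - Br K₀ (rho p g h)) = 0 := by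
        rw [map_sub, Dw_rho]
        have hl2 : (wd K).length = ∑ i, K₀ i := by rw [hlen, hK₀]
        by_cases heq : K = K₀
        · subst heq
          rw [(hD.dw_conj g (wd K) K hle hl2 hh).2 (cnt_wd K),
            (hD.dw (wd K) K hle hgh).1 (cnt_wd K).le, cnt_wd]
          have : K - K = 0 := by
            funext i
            simp
          rw [this, hD.br0, sub_self]
        · have hlt' : toLex K₀ < toLex (cnt (wd K)) := by
            rw [cnt_wd]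
            exact lt_of_le_of_ne (not_lt.1 hlt) (fun h => heq (toLex.injective h).symm)
          rw [(hD.dw_conj g (wd K) K₀ hle hl2 hh).1 hlt', map_zero,
            (hD.dw (wd K) K₀ hle hgh).2 ?_, sub_zero]
          rw [cnt_wd]
          intro hle'
          apply heq
          funext i
          have hs : ∑ i, K i = ∑ i, K₀ i := by rw [hKs, hK₀]
          exact (Finset.sum_eq_sum_iff_of_le (fun i _ => hle' i)).1 hs i (Finset.mem_univ i)
      rw [hc, map_zero, map_zero]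
  rw [hzero, map_sub, sub_eq_zero, hT g _ (lam_le_V _ hW1.1)] at hex
  exact hex.symm

/-- Expand `f₁` by `Data.expand`: some `T (Br K h) ≠ 0` with `∑ K = κ`, `h ∈ V p B`; take the smallest `K` in the
finite set `Finset.piAntidiag Finset.univ κ` with the order `toLex`. -/
theorem exists_K₀ [C.Normal] (hCB : C ≤ B)
    (hcomm : ∀ b ∈ B, ∀ b' ∈ B, b * b' * b⁻¹ * b'⁻¹ ∈ C) (hD : Data p B C m d n χ Br)
    (hκm : κ ≤ m) (hκ : ∀ f ∈ Lam p B C κ, T f = 0)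
    (hf₁ : ∃ f₁, LamW p B C χ κ f₁ ∧ T f₁ ≠ 0) :
    ∃ K₀ : Fin d → ℕ, ∑ i, K₀ i = κ ∧ (∃ h ∈ V p B, T (Br K₀ h) ≠ 0) ∧
      ∀ K : Fin d → ℕ, ∑ i, K i = κ → toLex K < toLex K₀ → ∀ h ∈ V p B, T (Br K h) = 0 := by
  classical
  obtain ⟨f₁, hf, hT0⟩ := hf₁
  have hex := hκ _ (hD.expand hCB hcomm hκm hf)
  rw [map_sub, map_sum, sub_eq_zero] at hex
  rw [hex] at hT0
  obtain ⟨K, hK, hne⟩ := Finset.exists_ne_zero_of_sum_ne_zero hT0
  have hKs : ∑ i, K i = κ := (Finset.mem_piAntidiag.1 hK).1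
  have hlen : (wd K).length = κ := by rw [length_wd, hKs]
  have hcm := hD.coef_mem hCB hf hlen
  obtain ⟨K₀, hK₀, hmin⟩ := Finset.exists_min_image
    ((Finset.piAntidiag Finset.univ κ).filter fun K : Fin d → ℕ => ∃ h ∈ V p B, T (Br K h) ≠ 0)
    (fun K => toLex K) ⟨K, Finset.mem_filter.2 ⟨hK, _, hcm, hne⟩⟩
  rw [Finset.mem_filter, Finset.mem_piAntidiag] at hK₀
  refine ⟨K₀, hK₀.1.1, hK₀.2, fun K' hK' hlt h hh => ?_⟩
  by_contra hcon
  have := hmin K' (Finset.mem_filter.2 ⟨Finset.mem_piAntidiag.2 ⟨hK', by simp⟩, h, hh, hcon⟩)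
  exact absurd hlt (not_lt.2 this)

end Pool.Agent.Helper64.FS
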