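import Pool.Agent.Helper64.FS.Defs
import Pool.Agent.Helper64.FS.E0
import Pool.Agent.Helper64.FS.E8
import Pool.Agent.Helper64.FS.E9
import Pool.Agent.Helper64.FS.E10
import Pool.Agent.Helper64.FS.E11
import Pool.Agent.Helper64.FS.E13

set_option autoImplicit false

namespace Pool.Agent.Helper64.FS

universe u v

variable {F : Type u} [Group F] [TopologicalSpace F]

variable {p : ℕ} [Fact p.Prime] {B C : Subgroup F} {m d κ : ℕ} {n : Fin d → F}
  {χ : Fin d → F → ZMod p} {Br : (Fin d → ℕ) → ((F → ZMod p) →ₗ[ZMod p] (F → ZMod p))}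
  {T : (F → ZMod p) →ₗ[ZMod p] (F → ZMod p)}

private theorem Dw_mem_V14 [C.Normal] (n : Fin d → F) (l : List (Fin d)) {f : F → ZMod p}
    (hf : f ∈ V p C) : Dw p n l f ∈ V p C := by
  induction l with
  | nil => exact hf
  | cons i l ih =>
    change Df p (n i) (Dw p n l f) ∈ V p C
    exact V_Df _ ih

private theorem T_Dw14 [C.Normal] (hT : ∀ g, ∀ f ∈ V p C, T (rho p g f) = rho p g (T f))
    (n : Fin d → F) (l : List (Fin d)) {f : F → ZMod p}
    (hf : f ∈ V p C) : T (Dw p n l f) = Dw p n l (T f) := by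
  induction l with
  | nil => rfl
  | cons i l ih =>
    change T (Df p (n i) (Dw p n l f)) = Df p (n i) (Dw p n l (T f))
    rw [T_Df hT _ (Dw_mem_V14 n l hf), ih]

/-- Take `K₀` of `exists_K₀`. By `T_Br_mem`, `T_Br_rho` and `Good p B` the map `T ∘ Br K₀` is surjective on
`V p B`. `triangular` for `E = V p B`, `T K = T ∘ Br K`, `g L = Dw (wd L) f` (`Data.coef_mem`) gives `φ : (Fin d → ℕ) → _`;
`f' = ∑ M ∈ piAntidiag univ (m + κ), Br M (φ M)`. For a word `l` of length `m`: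
`Dw l (T f') = T (Dw l f') = ∑ M, T (Dw l (Br M (φ M)))`, by `Data.dw` this is the sum over `M = K + cnt l` of
`T (Br K (φ M))`, i.e. `g (cnt l) = Dw l f` (`Dw_perm`, `cnt_wd`). `T f' - f` is in `LamW m`: `T_lam` (for `m = 0` the
second condition follows from `T f' ∈ Lam 1`). Conclude with `Data.cprime`. -/
theorem E_main [B.Normal] [C.Normal] (hCB : C ≤ B)
    (hcomm : ∀ b ∈ B, ∀ b' ∈ B, b * b' * b⁻¹ * b'⁻¹ ∈ C) (hB : Good p B)
    (hD : Data p B C (m + κ) d n χ Br) (hTV : ∀ f ∈ V p C, T f ∈ V p C)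
    (hT : ∀ g, ∀ f ∈ V p C, T (rho p g f) = rho p g (T f))
    (hκ : ∀ f ∈ Lam p B C κ, T f = 0) (hf₁ : ∃ f₁, LamW p B C χ κ f₁ ∧ T f₁ ≠ 0)
    {f : F → ZMod p} (hf : LamW p B C χ m f) :
    ∃ f' ∈ Lam p B C (m + κ + 1), T f' - f ∈ Lam p B C m := by
  classical
  obtain ⟨K₀, hK₀, hne, hlow⟩ := exists_K₀ hCB hcomm hD (Nat.le_add_left κ m) hκ hf₁
  have hmem : ∀ K : Fin d → ℕ, ∑ i, K i = κ → ∀ h ∈ V p B, T (Br K h) ∈ V p B :=
    fun K hK h hh => T_Br_mem hCB hD (Nat.le_add_left κ m) hTV hT hκ K hK hh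
  have hsurj : ∀ g ∈ V p B, ∃ f ∈ V p B, T (Br K₀ f) = g := by
    intro g hg
    exact hB (T.comp (Br K₀)) (fun h hh => hmem K₀ hK₀ h hh)
      (fun g h hh => T_Br_rho hCB hcomm hD (Nat.le_add_left κ m) hT hκ K₀ hK₀ hlow g hh) hne g hg
  obtain ⟨φ, hφ, hsys⟩ := triangular (V p B).toAddSubgroup
    (fun K => (T.comp (Br K)).toAddMonoidHom) (fun K hK h hh => hmem K hK h hh) K₀ hK₀
    (fun K hK hlt h hh => hlow K hK hlt h hh) (fun g hg => hsurj g hg)
    (m := m) (fun L => Dw p n (wd L) f)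
    (fun L hL => Data.coef_mem hCB hD hf (by rw [length_wd, hL]))
  have hφ' : ∀ M, φ M ∈ V p B := hφ
  have hsum : ∀ M ∈ Finset.piAntidiag (Finset.univ : Finset (Fin d)) (m + κ),
      ∑ i, M i = m + κ := fun M hM => (Finset.mem_piAntidiag.1 hM).1
  have hW : LamW p B C χ (m + κ)
      (∑ M ∈ Finset.piAntidiag (Finset.univ : Finset (Fin d)) (m + κ), Br M (φ M)) := by
    refine LamW.sum _ _ fun M hM => ?_
    have := Data.lamW hD M (hsum M hM).le (hφ' M)
    rwa [hsum M hM] at this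
  set f' := ∑ M ∈ Finset.piAntidiag (Finset.univ : Finset (Fin d)) (m + κ), Br M (φ M) with hf'
  have hV : f' ∈ V p C := lam_le_V _ hW.1
  refine ⟨f', hW.1, ?_⟩
  have hT1 : T f' ∈ Lam p B C (m + 1) := by
    refine T_lam hTV hT hκ (m + 1) f' ?_
    have h1 := hW.1
    rwa [show m + κ + 1 = m + 1 + κ by omega] at h1
  have hTW : LamW p B C χ m (T f') := by
    refine ⟨hT1, fun b hb hχ => ?_⟩
    rcases m with _ | m
    · exact lam_Df hT1 hb
    · rw [← T_Df hT b hV]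
      refine T_lam hTV hT hκ _ _ ?_
      have h1 := hW.2 b hb hχ
      rwa [show m + 1 + κ - 1 = m + 1 - 1 + κ by omega] at h1
  refine Data.cprime hcomm hD m _ (LamW.sub hTW hf) fun l hl => ?_
  rw [map_sub, sub_eq_zero, ← T_Dw14 hT n l hV, hf', map_sum, map_sum]
  have hcl : ∑ i, cnt l i = m := by rw [sum_cnt, hl]
  have h2 := hsys (cnt l) hcl
  rw [Dw_perm hcomm hD.nB (cnt_wd (cnt l)) (lam_le_V _ hf.1)] at h2
  rw [← h2]
  symm
  refine Finset.sum_of_injOn (fun K => K + cnt l) ?_ ?_ ?_ ?_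
  · intro K _ K' _ h
    exact add_right_cancel h
  · intro K hK
    have hK' := (Finset.mem_piAntidiag.1 (Finset.mem_coe.1 hK)).1
    refine Finset.mem_coe.2 (Finset.mem_piAntidiag.2 ⟨?_, fun i _ => Finset.mem_univ i⟩)
    change ∑ i, (K i + cnt l i) = m + κ
    rw [Finset.sum_add_distrib, hcl]
    change (∑ i, K i) + m = m + κ
    rw [show (∑ i, K i) = κ from hK']
    omega
  · intro M hM hMn
    have h3 : ¬ cnt l ≤ M := by
      intro hle
      apply hMn
      refine ⟨M - cnt l, ?_, tsub_add_cancel_of_le hle⟩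
      refine Finset.mem_coe.2 (Finset.mem_piAntidiag.2 ⟨?_, fun i _ => Finset.mem_univ i⟩)
      have h4 : ∑ i, (M - cnt l) i + ∑ i, cnt l i = ∑ i, M i := by
        rw [← Finset.sum_add_distrib]
        exact Finset.sum_congr rfl fun i _ => Nat.sub_add_cancel (hle i)
      have h5 := hsum M hM
      change ∑ i, (M - cnt l) i = κ
      omega
    rw [(Data.dw hD l M (hsum M hM).le (hφ' M)).2 h3, map_zero]
  · intro K hK
    have hK' : ∑ i, K i = κ := (Finset.mem_piAntidiag.1 hK).1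
    have h6 : ∑ i, (K + cnt l) i ≤ m + κ := by
      change ∑ i, (K i + cnt l i) ≤ m + κ
      rw [Finset.sum_add_distrib, hcl, hK']
      omega
    rw [(Data.dw hD l (K + cnt l) h6 (hφ' _)).1 le_add_self, add_tsub_cancel_right]
    rfl

end Pool.Agent.Helper64.FS
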