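import Pool.Agent.Helper64.FS.Defs

set_option autoImplicit false

namespace Pool.Agent.Helper64.FS

universe u v

/-- The range of `ρ` in the units of the endomorphism ring is a finite `p`-group;
`IsPGroup.card_modEq_card_fixedPoints` for its action on `W` (`p ∣ card W`, and `0` is a fixed point). -/
theorem exists_fixed {p : ℕ} [Fact p.Prime] {G : Type*} [Group G] {W : Type*} [AddCommGroup W]
    [Module (ZMod p) W] [Finite W] [Nontrivial W] (ρ : G →* (W →ₗ[ZMod p] W))
    (h : ∀ g, ∃ k : ℕ, ρ g ^ p ^ k = 1) : ∃ w : W, w ≠ 0 ∧ ∀ g, ρ g w = w := by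
  classical
  let ρ' : G →* (Module.End (ZMod p) W)ˣ := MonoidHom.toHomUnits ρ
  have hρ' : ∀ g, ((ρ' g : (Module.End (ZMod p) W)ˣ) : Module.End (ZMod p) W) = ρ g := fun g => rfl
  have hP : IsPGroup p ρ'.range := by
    rintro ⟨x, ⟨g, rfl⟩⟩
    obtain ⟨k, hk⟩ := h g
    refine ⟨k, ?_⟩
    apply Subtype.ext
    apply Units.ext
    simp only [SubgroupClass.coe_pow, Units.val_pow_eq_pow_val, hρ', hk]
    rfl
  have hfinW : Finite (W →ₗ[ZMod p] W) :=
    Finite.of_injective (fun f : W →ₗ[ZMod p] W => (f : W → W)) DFunLike.coe_injective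
  have hfinE : Finite (Module.End (ZMod p) W) := hfinW
  have hfinU : Finite (Module.End (ZMod p) W)ˣ :=
    Finite.of_injective (fun u : (Module.End (ZMod p) W)ˣ => (u : Module.End (ZMod p) W))
      Units.val_injective
  have hcard : p ∣ Nat.card W := by
    have h1 := Module.natCard_eq_pow_finrank (K := ZMod p) (V := W)
    rw [Nat.card_zmod] at h1
    rw [h1]
    exact dvd_pow_self p (Module.finrank_pos).ne'
  have h0 : (0 : W) ∈ MulAction.fixedPoints ρ'.range W := by
    rintro ⟨x, hx⟩
    exact map_zero (x : Module.End (ZMod p) W)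
  obtain ⟨w, hw, hne⟩ := hP.exists_fixed_point_of_prime_dvd_card_of_fixed_point W hcard h0
  refine ⟨w, fun h => hne h.symm, fun g => ?_⟩
  exact hw ⟨ρ' g, ⟨g, rfl⟩⟩

/-- The step of the induction. -/
private theorem flag_aux {p : ℕ} [Fact p.Prime] {G : Type u} [Group G] : ∀ (n : ℕ) (W : Type v)
    [AddCommGroup W] [Module (ZMod p) W] [Finite W], Nat.card W ≤ n →
    ∀ (ρ : G →* (W →ₗ[ZMod p] W)), (∀ g, ∃ k : ℕ, ρ g ^ p ^ k = 1) →
    ∃ (d : ℕ) (b : Module.Basis (Fin d) (ZMod p) W),
      ∀ g j, ρ g (b j) - b j ∈ Submodule.span (ZMod p) (b '' {l | l < j}) := by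
  intro n
  induction n with
  | zero =>
    intro W _ _ _ hW
    exact absurd (Nat.card_pos (α := W)) (by omega)
  | succ n ih =>
    intro W _ _ _ hW ρ h
    rcases subsingleton_or_nontrivial W with hs | hn
    · exact ⟨0, Module.Basis.empty W, fun g j => j.elim0⟩
    · obtain ⟨w, hw0, hw⟩ := exists_fixed ρ h
      set L : Submodule (ZMod p) W := Submodule.span (ZMod p) {w} with hL
      have hwL : w ∈ L := Submodule.subset_span rfl
      have hLρ : ∀ g, L ≤ L.comap (ρ g) := by
        intro g
        rw [hL, Submodule.span_le]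
        rintro x rfl
        show ρ g x ∈ Submodule.span (ZMod p) {x}
        rw [hw g]
        exact Submodule.subset_span rfl
      -- the quotient action
      let τ : G →* ((W ⧸ L) →ₗ[ZMod p] (W ⧸ L)) :=
        { toFun := fun g => L.mapQ L (ρ g) (hLρ g)
          map_one' := by
            apply Submodule.linearMap_qext
            ext x
            simp
          map_mul' := by
            intro g g'
            apply Submodule.linearMap_qext
            ext x
            simp }
      have hτ : ∀ g x, τ g (L.mkQ x) = L.mkQ (ρ g x) := fun g x => rfl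
      have hτk : ∀ g, ∃ k : ℕ, τ g ^ p ^ k = 1 := by
        intro g
        obtain ⟨k, hk⟩ := h g
        refine ⟨k, ?_⟩
        rw [← map_pow]
        rw [← map_pow] at hk
        apply Submodule.linearMap_qext
        ext x
        simp only [LinearMap.comp_apply]
        rw [hτ, hk]
        rfl
      have hfQ : Finite (W ⧸ L) := Finite.of_surjective (L.mkQ : W → W ⧸ L) L.mkQ_surjective
      have hcard : Nat.card (W ⧸ L) ≤ n := by
        have h1 : Function.Surjective (L.mkQ : W → W ⧸ L) := L.mkQ_surjective
        have h2 : ¬ Function.Injective (L.mkQ : W → W ⧸ L) := by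
          intro hi
          apply hw0
          apply hi
          rw [map_zero]
          simpa using hwL
        have h3 : Nat.card (W ⧸ L) ≤ Nat.card W := Nat.card_le_card_of_surjective _ h1
        have h4 : Nat.card (W ⧸ L) ≠ Nat.card W := by
          intro he
          exact h2 ((Nat.bijective_iff_surjective_and_card _).mpr ⟨h1, he.symm⟩).1
        omega
      obtain ⟨d, b, hb⟩ := ih (W ⧸ L) hcard τ hτk
      choose c hc using fun j => L.mkQ_surjective (b j)
      have hcLI : LinearIndependent (ZMod p) c := by
        apply LinearIndependent.of_comp L.mkQ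
        have : (L.mkQ ∘ c) = b := funext hc
        rw [this]
        exact b.linearIndependent
      have hdisj : ∀ z ∈ Submodule.span (ZMod p) (Set.range c), z ∈ L → z = 0 := by
        intro z hz hzL
        rw [Submodule.mem_span_range_iff_exists_fun] at hz
        obtain ⟨a, ha⟩ := hz
        have h1 : ∑ j, a j • b j = 0 := by
          have h2 : L.mkQ z = 0 := by simpa using hzL
          rw [← h2, ← ha, map_sum]
          refine Finset.sum_congr rfl fun j _ => ?_
          rw [map_smul, hc]
        have h3 := Fintype.linearIndependent_iff.mp b.linearIndependent a h1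
        rw [← ha]
        exact Finset.sum_eq_zero fun j _ => by rw [h3 j, zero_smul]
      have hLI : LinearIndependent (ZMod p) (Fin.cons w c : Fin (d + 1) → W) := by
        rw [linearIndependent_finCons]
        refine ⟨hcLI, fun hm => hw0 (hdisj w hm hwL)⟩
      have hspan : ⊤ ≤ Submodule.span (ZMod p) (Set.range (Fin.cons w c : Fin (d + 1) → W)) := by
        intro z _
        have h1 : z - ∑ j, b.repr (L.mkQ z) j • c j ∈ L := by
          rw [← Submodule.Quotient.mk_eq_zero]
          show L.mkQ _ = 0
          rw [map_sub, map_sum]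
          have h2 : ∑ j, L.mkQ (b.repr (L.mkQ z) j • c j) = L.mkQ z := by
            conv_rhs => rw [← b.sum_repr (L.mkQ z)]
            refine Finset.sum_congr rfl fun j _ => ?_
            rw [map_smul, hc]
          rw [h2, sub_self]
        have h3 : z = (z - ∑ j, b.repr (L.mkQ z) j • c j) + ∑ j, b.repr (L.mkQ z) j • c j := by
          rw [sub_add_cancel]
        rw [h3]
        refine Submodule.add_mem _ ?_ ?_
        · refine Submodule.span_mono ?_ h1
          rintro x rfl
          exact ⟨0, rfl⟩
        · refine Submodule.sum_mem _ fun j _ => Submodule.smul_mem _ _ (Submodule.subset_span ?_)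
          exact ⟨j.succ, rfl⟩
      refine ⟨d + 1, Module.Basis.mk hLI hspan, fun g j => ?_⟩
      rw [Module.Basis.coe_mk]
      induction j using Fin.cases with
      | zero =>
        rw [Fin.cons_zero, hw g, sub_self]
        exact Submodule.zero_mem _
      | succ i =>
        rw [Fin.cons_succ]
        have h1 := hb g i
        rw [← hc i, hτ, ← map_sub] at h1
        have h2 : (b '' {l | l < i}) = L.mkQ '' (c '' {l | l < i}) := by
          rw [← Set.image_comp]
          refine Set.image_congr fun j _ => ?_
          exact (hc j).symm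
        rw [h2, ← Submodule.map_span] at h1
        obtain ⟨y, hy, hy'⟩ := h1
        have h3 : (ρ g (c i) - c i) - y ∈ L := by
          rw [← Submodule.Quotient.mk_eq_zero]
          show L.mkQ _ = 0
          rw [map_sub, hy', sub_self]
        have h4 : ρ g (c i) - c i = ((ρ g (c i) - c i) - y) + y := by
          rw [sub_add_cancel]
        rw [h4]
        refine Submodule.add_mem _ ?_ ?_
        · refine Submodule.span_mono ?_ h3
          rintro x rfl
          exact ⟨0, Fin.succ_pos i, rfl⟩
        · refine Submodule.span_mono ?_ hy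
          rintro x ⟨l, hl, rfl⟩
          exact ⟨l.succ, Fin.succ_lt_succ_iff.mpr hl, rfl⟩

/-- A flag basis: induction on the dimension (on `Nat.card W`). Take `w` of `exists_fixed`, a flag basis of
`W ⧸ span {w}`, lift it to `W`; the basis consists of `w` (index `0`) followed by the lifts. -/
theorem exists_flag_basis {p : ℕ} [Fact p.Prime] {G : Type*} [Group G] {W : Type*}
    [AddCommGroup W] [Module (ZMod p) W] [Finite W] (ρ : G →* (W →ₗ[ZMod p] W))
    (h : ∀ g, ∃ k : ℕ, ρ g ^ p ^ k = 1) :
    ∃ (d : ℕ) (b : Module.Basis (Fin d) (ZMod p) W),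
      ∀ g j, ρ g (b j) - b j ∈ Submodule.span (ZMod p) (b '' {l | l < j}) :=
  flag_aux (Nat.card W) W le_rfl ρ h

end Pool.Agent.Helper64.FS
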