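import Pool.Agent.Helper64.FS.Defs
import Pool.Agent.Helper64.FS.A1
import Pool.Agent.Helper64.FS.E0
import Pool.Agent.Helper64.FS.E1

set_option autoImplicit false

namespace Pool.Agent.Helper64.FS

universe u v

variable {F : Type u} [Group F] [TopologicalSpace F] [IsTopologicalGroup F] [CompactSpace F]
  [T2Space F] [TotallyDisconnectedSpace F]

/-- The functions which are right invariant under `N` and `C`. -/
private def UU (p : ℕ) (N C : Subgroup F) : Submodule (ZMod p) (F → ZMod p) where
  carrier := {h | (∀ u, ∀ n ∈ N, h (u * n) = h u) ∧ ∀ u, ∀ c ∈ C, h (u * c) = h u}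
  zero_mem' := ⟨fun _ _ _ => rfl, fun _ _ _ => rfl⟩
  add_mem' := by
    rintro f g ⟨hf, hf'⟩ ⟨hg, hg'⟩
    refine ⟨fun u n hn => ?_, fun u b hb => ?_⟩
    · simp only [Pi.add_apply]
      rw [hf u n hn, hg u n hn]
    · simp only [Pi.add_apply]
      rw [hf' u b hb, hg' u b hb]
  smul_mem' := by
    rintro c f ⟨hf, hf'⟩
    refine ⟨fun u n hn => ?_, fun u b hb => ?_⟩
    · simp only [Pi.smul_apply]
      rw [hf u n hn]
    · simp only [Pi.smul_apply]
      rw [hf' u b hb]

private theorem UU_le {p : ℕ} {N C : Subgroup F} (hN : ON N) : UU p N C ≤ V p C :=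
  fun _ hf => ⟨⟨N, hN, hf.1⟩, hf.2⟩

private theorem UU_rho {p : ℕ} {N C : Subgroup F} [N.Normal] [C.Normal] (g : F) {f : F → ZMod p}
    (hf : f ∈ UU p N C) : rho p g f ∈ UU p N C := by
  have hnorm : ∀ (S : Subgroup F), S.Normal → ∀ n ∈ S, g⁻¹ * n * g ∈ S := by
    intro S hS n hn
    simpa using hS.conj_mem n hn g⁻¹
  refine ⟨fun u n hn => ?_, fun u c hc => ?_⟩
  · rw [rho_apply, rho_apply]
    have := hf.1 (u * g) (g⁻¹ * n * g) (hnorm N inferInstance n hn)
    rw [← this]
    congr 1
    group
  · rw [rho_apply, rho_apply]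
    have := hf.2 (u * g) (g⁻¹ * c * g) (hnorm C inferInstance c hc)
    rw [← this]
    congr 1
    group

private theorem UU_finite {p : ℕ} [Fact p.Prime] {N C : Subgroup F} (hN : ON N) :
    Finite (UU p N C) := by
  have := hN.finite
  have hinj : Function.Injective (fun (h : UU p N C) (q : F ⧸ N) => h.1 q.out) := by
    intro h h' hh
    apply Subtype.ext
    funext u
    have h1 := congrFun hh (QuotientGroup.mk u)
    simp only at h1
    obtain ⟨n, hn⟩ := QuotientGroup.mk_out_eq_mul N u
    rw [hn, h.2.1 u n n.2, h'.2.1 u n n.2] at h1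
    exact h1
  exact Finite.of_injective _ hinj

/-- Right translation on the space `UU`. -/
private def ru (p : ℕ) (N C : Subgroup F) [N.Normal] [C.Normal] (g : F) :
    UU p N C →ₗ[ZMod p] UU p N C :=
  (rho p g).restrict (fun _ hf => UU_rho g hf)

/-- The trace of the filtration on `UU`. -/
private def LU (p : ℕ) (B N C : Subgroup F) (j : ℕ) : Submodule (ZMod p) (UU p N C) :=
  (Lam p B C j).comap (UU p N C).subtype

private theorem ru_LU {p : ℕ} {B N C : Subgroup F} [B.Normal] [N.Normal] [C.Normal] (g : F)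
    (j : ℕ) : LU p B N C j ≤ (LU p B N C j).comap (ru p N C g) := by
  intro x hx
  exact lam_rho g hx

/-- The action on the quotient. -/
private def rq (p : ℕ) (B N C : Subgroup F) [B.Normal] [N.Normal] [C.Normal] (j : ℕ) :
    B →* ((UU p N C ⧸ LU p B N C j) →ₗ[ZMod p] (UU p N C ⧸ LU p B N C j)) where
  toFun b := (LU p B N C j).mapQ (LU p B N C j) (ru p N C b.1) (ru_LU b.1 j)
  map_one' := by
    apply LinearMap.ext
    intro x
    induction x using Submodule.Quotient.induction_on with
    | _ x =>
      rw [Submodule.mapQ_apply]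
      change Submodule.Quotient.mk _ = Submodule.Quotient.mk x
      congr 1
      apply Subtype.ext
      funext u
      change x.1 (u * 1) = x.1 u
      rw [mul_one]
  map_mul' b b' := by
    apply LinearMap.ext
    intro x
    induction x using Submodule.Quotient.induction_on with
    | _ x =>
      rw [Module.End.mul_apply, Submodule.mapQ_apply, Submodule.mapQ_apply, Submodule.mapQ_apply]
      congr 1
      apply Subtype.ext
      funext u
      change x.1 (u * (b.1 * b'.1)) = x.1 (u * b.1 * b'.1)
      rw [mul_assoc]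

private theorem step {p : ℕ} [Fact p.Prime] (hp : PIndex p F) (B C N : Subgroup F) [B.Normal]
    [C.Normal] [N.Normal] (hN : ON N) {f : F → ZMod p} (hf : f ∈ UU p N C) (j : ℕ)
    (hj : f ∉ Lam p B C j) : ∃ g : UU p N C, g ∈ LU p B N C (j + 1) ∧ g ∉ LU p B N C j := by
  have hfin : Finite (UU p N C) := UU_finite hN
  have hfin' : Finite (UU p N C ⧸ LU p B N C j) :=
    Finite.of_surjective _ (Submodule.mkQ_surjective (LU p B N C j))
  have hnt : Nontrivial (UU p N C ⧸ LU p B N C j) := by
    refine ⟨⟨(LU p B N C j).mkQ ⟨f, hf⟩, 0, fun h0 => hj ?_⟩⟩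
    have := (Submodule.Quotient.mk_eq_zero (LU p B N C j)).1 h0
    exact this
  obtain ⟨k, hk⟩ := hN.pow_mem hp
  obtain ⟨w, hw0, hw⟩ := exists_fixed (rq p B N C j) (by
    intro b
    refine ⟨k, ?_⟩
    rw [← map_pow]
    apply LinearMap.ext
    intro x
    induction x using Submodule.Quotient.induction_on with
    | _ x =>
      change Submodule.Quotient.mk _ = Submodule.Quotient.mk x
      congr 1
      apply Subtype.ext
      funext u
      change x.1 (u * ((b ^ p ^ k : B) : F)) = x.1 u
      rw [Subgroup.coe_pow]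
      exact x.2.1 u _ (hk b.1))
  obtain ⟨x, hx⟩ := Submodule.mkQ_surjective (LU p B N C j) w
  refine ⟨x, ?_, ?_⟩
  · refine ⟨UU_le hN x.2, fun b hb => ?_⟩
    have h1 := hw ⟨b, hb⟩
    rw [← hx] at h1
    have h2 : (Submodule.Quotient.mk (ru p N C b x) : UU p N C ⧸ LU p B N C j)
        = Submodule.Quotient.mk x := h1
    have h3 := (Submodule.Quotient.eq (LU p B N C j)).1 h2
    exact h3
  · intro hmem
    apply hw0
    rw [← hx]
    exact (Submodule.Quotient.mk_eq_zero (LU p B N C j)).2 hmem

/-- Let `f` be right invariant under the open normal `N`, `U` the finite space of all `N`-invariant functions in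
`V p C`. For some `j`: `U ⊓ Lam j = U ⊓ Lam (j + 1)` (finiteness). If `U ⊓ Lam j ≠ U` then
`exists_fixed` for the action `rho` of the group `B` on `U / (U ⊓ Lam j)` (`b ^ p ^ k ∈ N` acts trivially) gives
an element of `U ⊓ Lam (j + 1)` outside `Lam j`. -/
theorem lam_union {p : ℕ} [Fact p.Prime] (hp : PIndex p F) (B C : Subgroup F) [B.Normal]
    [C.Normal] {f : F → ZMod p} (hf : f ∈ V p C) : ∃ j, f ∈ Lam p B C j := by
  obtain ⟨⟨N, hN, hfN⟩, hfC⟩ := hf
  have hNn := hN.1
  by_contra hcon
  push Not at hcon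
  have hfU : f ∈ UU p N C := ⟨hfN, hfC⟩
  have hfin : Finite (UU p N C) := UU_finite hN
  have hmono : StrictMono (LU p B N C) := by
    apply strictMono_nat_of_lt_succ
    intro j
    obtain ⟨g, hg, hg'⟩ := step hp B C N hN hfU j (hcon j)
    refine lt_of_le_of_ne ?_ ?_
    · intro x hx
      exact lam_mono (Nat.le_succ j) hx
    · intro heq
      rw [heq] at hg'
      exact hg' hg
  have hfs : Finite (Submodule (ZMod p) (UU p N C)) := inferInstance
  exact not_injective_infinite_finite _ hmono.injective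

end Pool.Agent.Helper64.FS
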