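import Pool.Agent.Helper64.FS.Defs
import Pool.Agent.Helper64.FS.A1
import Pool.Agent.Helper64.FS.E1

set_option autoImplicit false

namespace Pool.Agent.Helper64.FS

universe u v

variable {F : Type u} [Group F] [TopologicalSpace F] [IsTopologicalGroup F] [CompactSpace F]
  [T2Space F] [TotallyDisconnectedSpace F]

private theorem core1 {p : ℕ} (B : Subgroup F) [B.Normal] {M Z : Subgroup F}
    (hM : ON M) (hZn : Z.Normal) (hBM : ∀ b ∈ B, b ∈ M → b ∈ Z)
    (hpow : ∀ b ∈ B, b ^ p ∈ Z)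
    (hcomm : ∀ b ∈ B, ∀ b' ∈ B, b * b' * b⁻¹ * b'⁻¹ ∈ Z) :
    ∃ (U : Type u) (_ : CommGroup U) (_ : Finite U) (q : B →* U), Function.Surjective q ∧
      (∀ a : U, a ^ p = 1) ∧ (∀ b : B, q b = 1 ↔ (b : F) ∈ Z) := by
  classical
  have := hZn
  have := hM.1
  let K : Subgroup B := Z.subgroupOf B
  have hK : K.Normal := inferInstanceAs (Z.subgroupOf B).Normal
  have hmemK : ∀ b : B, b ∈ K ↔ (b : F) ∈ Z := fun b => Subgroup.mem_subgroupOf
  have hmc : ∀ a b : B ⧸ K, a * b = b * a := by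
    intro a b
    obtain ⟨a, rfl⟩ := QuotientGroup.mk_surjective a
    obtain ⟨b, rfl⟩ := QuotientGroup.mk_surjective b
    change ((a * b : B) : B ⧸ K) = ((b * a : B) : B ⧸ K)
    rw [QuotientGroup.eq, hmemK]
    have := hcomm (b : F)⁻¹ (B.inv_mem b.2) (a : F)⁻¹ (B.inv_mem a.2)
    simpa [mul_assoc] using this
  have hfin : Finite (B ⧸ K) := by
    have : Finite (F ⧸ M) := hM.finite
    have : M.FiniteIndex := Subgroup.finiteIndex_of_finite_quotient
    have hle : M.subgroupOf B ≤ K := by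
      intro b hb
      rw [hmemK]
      exact hBM b b.2 (Subgroup.mem_subgroupOf.1 hb)
    have : K.FiniteIndex := Subgroup.finiteIndex_of_le hle
    exact inferInstance
  refine ⟨B ⧸ K, { (inferInstance : Group (B ⧸ K)) with mul_comm := hmc }, hfin,
    QuotientGroup.mk' K, QuotientGroup.mk'_surjective K, ?_, ?_⟩
  · intro a
    obtain ⟨a, rfl⟩ := QuotientGroup.mk_surjective a
    change ((a ^ p : B) : B ⧸ K) = 1
    rw [QuotientGroup.eq_one_iff, hmemK]
    exact hpow a a.2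
  · intro b
    change ((b : B) : B ⧸ K) = 1 ↔ _
    rw [QuotientGroup.eq_one_iff, hmemK]

private theorem core2 {p : ℕ} [Fact p.Prime] (B : Subgroup F) [B.Normal] {Z : Subgroup F}
    (hZn : Z.Normal) {U : Type u} [CommGroup U] (q : B →* U) (hq : Function.Surjective q)
    (hp : ∀ a : U, a ^ p = 1) (hk : ∀ b : B, q b = 1 ↔ (b : F) ∈ Z)
    [Module (ZMod p) (Additive U)] :
    ∃ ρ : F →* (Additive U →ₗ[ZMod p] Additive U),
      ∀ (g : F) (b : B), ρ g (Additive.ofMul (q b)) =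
        Additive.ofMul (q ⟨g * b * g⁻¹, (inferInstance : B.Normal).conj_mem b b.2 g⟩) := by
  classical
  have hex : ∀ g : F, ∃ φ : U →* U, ∀ b : B,
      φ (q b) = q ⟨g * b * g⁻¹, (inferInstance : B.Normal).conj_mem b b.2 g⟩ := by
    intro g
    have hker : q.ker ≤ (q.comp (MulAut.conjNormal g : MulAut B).toMonoidHom).ker := by
      intro b hb
      rw [MonoidHom.mem_ker] at hb ⊢
      change q (MulAut.conjNormal g b) = 1
      rw [hk, MulAut.conjNormal_apply]
      exact hZn.conj_mem _ ((hk b).1 hb) g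
    refine ⟨q.liftOfSurjective hq ⟨_, hker⟩, fun b => ?_⟩
    have h1 := MonoidHom.liftOfRightInverse_comp_apply q (Function.surjInv hq)
      (Function.rightInverse_surjInv hq) ⟨_, hker⟩ b
    refine h1.trans ?_
    change q (MulAut.conjNormal g b) = _
    congr 1
  choose φ hφ using hex
  refine ⟨MonoidHom.mk (OneHom.mk (fun g => AddMonoidHom.toZModLinearMap p
    (MonoidHom.toAdditive (φ g))) ?_) ?_, ?_⟩
  · apply LinearMap.ext
    intro w
    rw [Module.End.one_apply]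
    obtain ⟨b, hb⟩ := hq (Additive.toMul w)
    change Additive.ofMul (φ 1 (Additive.toMul w)) = Additive.ofMul (Additive.toMul w)
    rw [← hb, hφ]
    have h1 : (⟨1 * b * 1⁻¹, (inferInstance : B.Normal).conj_mem b b.2 1⟩ : B) = b := by
      apply Subtype.ext
      simp
    rw [h1]
  · intro g g'
    apply LinearMap.ext
    intro w
    rw [Module.End.mul_apply]
    obtain ⟨b, hb⟩ := hq (Additive.toMul w)
    change Additive.ofMul (φ (g * g') (Additive.toMul w)) =
      Additive.ofMul (φ g (φ g' (Additive.toMul w)))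
    rw [← hb, hφ, hφ, hφ]
    have h1 : (⟨g * g' * b * (g * g')⁻¹,
        (inferInstance : B.Normal).conj_mem b b.2 (g * g')⟩ : B) =
        ⟨g * (g' * b * g'⁻¹) * g⁻¹, (inferInstance : B.Normal).conj_mem _
          ((inferInstance : B.Normal).conj_mem b b.2 g') g⟩ := by
      apply Subtype.ext
      simp only
      group
    rw [h1]
  · intro g b
    change Additive.ofMul (φ g (q b)) = _
    rw [hφ]

private theorem core {p : ℕ} [Fact p.Prime] (B : Subgroup F) [B.Normal] {M Z : Subgroup F}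
    (hM : ON M) (hZn : Z.Normal) (hBM : ∀ b ∈ B, b ∈ M → b ∈ Z)
    (hpow : ∀ b ∈ B, b ^ p ∈ Z)
    (hcomm : ∀ b ∈ B, ∀ b' ∈ B, b * b' * b⁻¹ * b'⁻¹ ∈ Z) :
    ∃ (W : Type u) (_ : AddCommGroup W) (_ : Module (ZMod p) W) (_ : Finite W) (q : F → W)
      (ρ : F →* (W →ₗ[ZMod p] W)), (∀ b ∈ B, ∀ b' ∈ B, q (b * b') = q b + q b') ∧
      (∀ w, ∃ b ∈ B, q b = w) ∧ (∀ b ∈ B, (q b = 0 ↔ b ∈ Z)) ∧
      (∀ g, ∀ b ∈ B, q (g * b * g⁻¹) = ρ g (q b)) := by
  classical
  obtain ⟨U, i1, i2, q, hq, hqp, hk⟩ := core1 B hM hZn hBM hpow hcomm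
  have hpW : ∀ w : Additive U, p • w = 0 := fun w => hqp (Additive.toMul w)
  let modW : Module (ZMod p) (Additive U) := AddCommGroup.zmodModule hpW
  obtain ⟨ρ, hρ⟩ := core2 (p := p) B hZn q hq hqp hk
  refine ⟨Additive U, inferInstance, modW, inferInstanceAs (Finite (Additive U)),
    fun g => if h : g ∈ B then Additive.ofMul (q ⟨g, h⟩) else 0, ρ, ?_, ?_, ?_, ?_⟩
  · intro b hb b' hb'
    simp only
    rw [dif_pos hb, dif_pos hb', dif_pos (B.mul_mem hb hb'), ← ofMul_mul, ← map_mul]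
    rfl
  · intro w
    obtain ⟨b, hb⟩ := hq (Additive.toMul w)
    refine ⟨b, b.2, ?_⟩
    simp only
    rw [dif_pos b.2]
    exact hb
  · intro b hb
    simp only
    rw [dif_pos hb]
    exact hk ⟨b, hb⟩
  · intro g b hb
    simp only
    rw [dif_pos hb, dif_pos ((inferInstance : B.Normal).conj_mem b hb g), hρ]

private theorem span_coord {p : ℕ} [Fact p.Prime] {W : Type u} [AddCommGroup W] [Module (ZMod p) W]
    {d : ℕ} (b : Module.Basis (Fin d) (ZMod p) W) {w : W} {j i : Fin d}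
    (hw : w ∈ Submodule.span (ZMod p) (b '' {l | l < j})) (hij : j ≤ i) : b.repr w i = 0 := by
  induction hw using Submodule.span_induction with
  | mem x hx =>
    obtain ⟨l, hl, rfl⟩ := hx
    have hl' : l < j := hl
    rw [b.repr_self, Finsupp.single_apply, if_neg (by omega)]
  | zero => simp
  | add x y _ _ hx hy => rw [map_add, Finsupp.add_apply, hx, hy, add_zero]
  | smul c x _ hx => rw [map_smul, Finsupp.smul_apply, hx, smul_zero]

/-- Let `Z` be the subgroup generated by `B ∩ M`, `C` and the `b ^ p` (normal in `F`). `U = B / Z` is a finite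
elementary abelian `p`-group, on which `F` acts by conjugation `ρ g (b Z) = g b g⁻¹ Z`; `g ^ p ^ k ∈ M` acts
trivially (`m b m⁻¹ b⁻¹ ∈ B ∩ M`). Let `n j` be representatives of a flag basis (`exists_flag_basis`), `χ i` the
coordinate functions (`0` outside `B`). `g⁻¹ (n j) g` is `n j` plus a combination of the `n l`, `l < j`. -/
theorem exists_flag_group {p : ℕ} [Fact p.Prime] (hp : PIndex p F) (B C : Subgroup F) [B.Normal]
    [C.Normal] (hCB : C ≤ B) (hcomm : ∀ b ∈ B, ∀ b' ∈ B, b * b' * b⁻¹ * b'⁻¹ ∈ C)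
    {M : Subgroup F} (hM : ON M) :
    ∃ (d : ℕ) (n : Fin d → F) (χ : Fin d → F → ZMod p), (∀ j, n j ∈ B) ∧ (∀ i, IsH B C (χ i)) ∧
      (∀ i j, χ i (n j) = if i = j then 1 else 0) ∧
      (∀ g i j, j < i → χ i (g⁻¹ * n j * g) = 0) ∧ (∀ g j, χ j (g⁻¹ * n j * g) = 1) ∧
      (∀ g, ∀ b ∈ B, (∀ i, χ i b = 0) → ∀ i, χ i (g⁻¹ * b * g) = 0) ∧
      ∀ b ∈ B, (∀ i, χ i b = 0) →
        b ∈ Subgroup.closure ({b | b ∈ B ∧ b ∈ M} ∪ (C : Set F) ∪ {c | ∃ b ∈ B, c = b ^ p}) := by
  classical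
  set S : Set F := {b | b ∈ B ∧ b ∈ M} ∪ (C : Set F) ∪ {c | ∃ b ∈ B, c = b ^ p} with hS
  have hBn : B.Normal := inferInstance
  have hCn : C.Normal := inferInstance
  have hZn : (Subgroup.closure S).Normal := by
    refine ⟨fun n hn g => ?_⟩
    induction hn using Subgroup.closure_induction with
    | mem x hx =>
      apply Subgroup.subset_closure
      rcases hx with (⟨h1, h2⟩ | h) | ⟨b, hb, rfl⟩
      · exact Or.inl (Or.inl ⟨hBn.conj_mem x h1 g, hM.1.conj_mem x h2 g⟩)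
      · exact Or.inl (Or.inr (hCn.conj_mem x h g))
      · refine Or.inr ⟨g * b * g⁻¹, hBn.conj_mem b hb g, ?_⟩
        rw [conj_pow]
    | one => simp
    | mul x y _ _ hx hy =>
      have h1 : g * (x * y) * g⁻¹ = (g * x * g⁻¹) * (g * y * g⁻¹) := by group
      rw [h1]
      exact Subgroup.mul_mem _ hx hy
    | inv x _ hx =>
      have h1 : g * x⁻¹ * g⁻¹ = (g * x * g⁻¹)⁻¹ := by group
      rw [h1]
      exact Subgroup.inv_mem _ hx
  have hBM : ∀ b ∈ B, b ∈ M → b ∈ Subgroup.closure S := fun b h1 h2 =>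
    Subgroup.subset_closure (Or.inl (Or.inl ⟨h1, h2⟩))
  have hCZ : ∀ c ∈ C, c ∈ Subgroup.closure S := fun c h =>
    Subgroup.subset_closure (Or.inl (Or.inr h))
  have hpow : ∀ b ∈ B, b ^ p ∈ Subgroup.closure S := fun b h =>
    Subgroup.subset_closure (Or.inr ⟨b, h, rfl⟩)
  obtain ⟨W, i1, i2, i3, q, ρ, hq, hsurj, hker, hρ⟩ := core B hM hZn hBM hpow
    (fun b hb b' hb' => hCZ _ (hcomm b hb b' hb'))
  have hsub : ∀ b ∈ B, ∀ b' ∈ B, q (b * b'⁻¹) = q b - q b' := by
    intro b hb b' hb'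
    have h1 := hq (b * b'⁻¹) (B.mul_mem hb (B.inv_mem hb')) b' hb'
    rw [inv_mul_cancel_right] at h1
    rw [h1, add_sub_cancel_right]
  have hρM : ∀ m ∈ M, ρ m = 1 := by
    intro m hm
    apply LinearMap.ext
    intro w
    obtain ⟨b, hb, rfl⟩ := hsurj w
    rw [← hρ m b hb, Module.End.one_apply]
    have h1 := hsub (m * b * m⁻¹) (hBn.conj_mem b hb m) b hb
    have h2 : m * b * m⁻¹ * b⁻¹ ∈ M := by
      have h3 : m * (b * m⁻¹ * b⁻¹) ∈ M :=
        M.mul_mem hm (hM.1.conj_mem _ (M.inv_mem hm) b)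
      have h4 : m * b * m⁻¹ * b⁻¹ = m * (b * m⁻¹ * b⁻¹) := by group
      rw [h4]
      exact h3
    have h5 : m * b * m⁻¹ * b⁻¹ ∈ B := B.mul_mem (hBn.conj_mem b hb m) (B.inv_mem hb)
    rw [(hker _ h5).2 (hBM _ h5 h2)] at h1
    exact (sub_eq_zero.1 h1.symm)
  have hunip : ∀ g, ∃ k : ℕ, ρ g ^ p ^ k = 1 := by
    intro g
    obtain ⟨k, hk⟩ := hM.pow_mem hp
    refine ⟨k, ?_⟩
    rw [← map_pow]
    exact hρM _ (hk g)
  obtain ⟨d, b, hb⟩ := exists_flag_basis ρ hunip
  choose n hnB hn using fun j => hsurj (b j)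
  have hconj : ∀ g, ∀ x ∈ B, q (g⁻¹ * x * g) = ρ g⁻¹ (q x) := by
    intro g x hx
    have := hρ g⁻¹ x hx
    rwa [inv_inv] at this
  have hzero : ∀ x ∈ B, (∀ i, b.repr (q x) i = 0) → q x = 0 := by
    intro x _ h
    apply b.repr.injective
    rw [map_zero]
    ext i
    exact h i
  refine ⟨d, n, fun i g => b.repr (q g) i, hnB, ?_, ?_, ?_, ?_, ?_, ?_⟩
  · intro i
    refine ⟨?_, ?_, M, hM, ?_⟩
    · intro x hx y hy
      change b.repr (q (x * y)) i = _
      rw [hq x hx y hy, map_add, Finsupp.add_apply]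
    · intro c hc
      change b.repr (q c) i = 0
      rw [(hker c (hCB hc)).2 (hCZ c hc), map_zero, Finsupp.zero_apply]
    · intro x hx hxM
      change b.repr (q x) i = 0
      rw [(hker x hx).2 (hBM x hx hxM), map_zero, Finsupp.zero_apply]
  · intro i j
    change b.repr (q (n j)) i = _
    rw [hn, b.repr_self, Finsupp.single_apply]
    by_cases h : i = j
    · rw [if_pos h, if_pos h.symm]
    · rw [if_neg h, if_neg (Ne.symm h)]
  · intro g i j hij
    change b.repr (q (g⁻¹ * n j * g)) i = 0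
    rw [hconj g _ (hnB j), hn]
    have h1 := span_coord b (hb g⁻¹ j) (le_of_lt hij)
    rw [map_sub, Finsupp.sub_apply, b.repr_self, Finsupp.single_apply,
      if_neg (ne_of_lt hij), sub_zero] at h1
    exact h1
  · intro g j
    change b.repr (q (g⁻¹ * n j * g)) j = 1
    rw [hconj g _ (hnB j), hn]
    have h1 := span_coord b (hb g⁻¹ j) (le_refl j)
    rw [map_sub, Finsupp.sub_apply, b.repr_self, Finsupp.single_eq_same] at h1
    exact sub_eq_zero.1 h1
  · intro g x hx h i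
    change b.repr (q (g⁻¹ * x * g)) i = 0
    rw [hconj g x hx, hzero x hx h, map_zero, map_zero, Finsupp.zero_apply]
  · intro x hx h
    exact (hker x hx).1 (hzero x hx h)

end Pool.Agent.Helper64.FS
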