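import Pool.Agent.Helper64.FS.Defs

set_option autoImplicit false

namespace Pool.Agent.Helper64.FS

universe u v

variable {F : Type u} [Group F] [TopologicalSpace F]

theorem e4_lift {p : ℕ} [Fact p.Prime] {B C : Subgroup F} (hTF : TF p B C)
    (χ : F → ZMod p) (hχ : IsH B C χ) (e : ℕ) :
    ∃ x : F → ZMod (p ^ (e + 1)), IsH B C x ∧
      ∀ b ∈ B, ZMod.castHom (dvd_pow_self p (Nat.succ_ne_zero e)) (ZMod p) (x b) = χ b := by
  induction e with
  | zero =>
    have h1 : p = p ^ (0 + 1) := by rw [zero_add, pow_one]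
    refine ⟨fun u => ZMod.ringEquivCongr h1 (χ u), ⟨?_, ?_, ?_⟩, ?_⟩
    · intro b hb b' hb'
      show ZMod.ringEquivCongr h1 (χ (b * b')) = _
      rw [hχ.1 b hb b' hb', map_add]
    · intro c hc
      show ZMod.ringEquivCongr h1 (χ c) = _
      rw [hχ.2.1 c hc, map_zero]
    · obtain ⟨N, hN, h⟩ := hχ.2.2
      refine ⟨N, hN, fun b hb hbN => ?_⟩
      show ZMod.ringEquivCongr h1 (χ b) = _
      rw [h b hb hbN, map_zero]
    · intro b _
      have h2 : (ZMod.castHom (dvd_pow_self p (Nat.succ_ne_zero 0)) (ZMod p)).comp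
          (ZMod.ringEquivCongr h1 : ZMod p →+* ZMod (p ^ (0 + 1))) = RingHom.id (ZMod p) :=
        Subsingleton.elim _ _
      exact RingHom.congr_fun h2 (χ b)
  | succ e ih =>
    obtain ⟨x, hx, hxχ⟩ := ih
    obtain ⟨x', hx', hxx⟩ := hTF (e + 1) x hx
    refine ⟨x', hx', fun b hb => ?_⟩
    rw [← hxχ b hb, ← hxx b hb]
    have h2 : (ZMod.castHom (dvd_pow_self p (Nat.succ_ne_zero e)) (ZMod p)).comp
        (ZMod.castHom (pow_dvd_pow p (Nat.le_succ (e + 1))) (ZMod (p ^ (e + 1)))) =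
        ZMod.castHom (dvd_pow_self p (Nat.succ_ne_zero (e + 1))) (ZMod p) :=
      Subsingleton.elim _ _
    exact (RingHom.congr_fun h2 (x' b)).symm

theorem e4_isUnit {p : ℕ} [Fact p.Prime] (e : ℕ) (y : ZMod (p ^ (e + 1)))
    (hy : ZMod.castHom (dvd_pow_self p (Nat.succ_ne_zero e)) (ZMod p) y = 1) : IsUnit y := by
  have hp : p.Prime := Fact.out
  have : NeZero (p ^ (e + 1)) := ⟨pow_ne_zero _ hp.ne_zero⟩
  rw [← ZMod.natCast_zmod_val y] at hy ⊢
  rw [ZMod.isUnit_iff_coprime]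
  rw [map_natCast] at hy
  have h1 : (y.val).Coprime p := by
    rw [← ZMod.isUnit_iff_coprime, hy]
    exact isUnit_one
  exact h1.pow_right _

theorem e4_open {B : Subgroup F} {A : Type} [AddCommGroup A] {d : ℕ} (x : Fin d → F → A)
    (hx : ∀ i, ∃ N : Subgroup F, ON N ∧ ∀ b ∈ B, b ∈ N → x i b = 0) :
    ∃ N : Subgroup F, ON N ∧ ∀ i, ∀ b ∈ B, b ∈ N → x i b = 0 := by
  choose N hN h using hx
  refine ⟨⨅ i, N i, ⟨Subgroup.normal_iInf_normal fun i => (hN i).1, ?_⟩, ?_⟩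
  · rw [Subgroup.coe_iInf]
    exact isOpen_iInter_of_finite fun i => (hN i).2
  · intro i b hb hbN
    exact h i b hb (Subgroup.mem_iInf.1 hbN i)

/-- Iterate `TF` to lift `χ i` to `x⁰ i : B → ZMod (p ^ (e + 1))` (`ZMod (p ^ 1)` is `ZMod p` up to a ring
isomorphism). The matrix `A i j = x⁰ i (n j)` reduces to `1` modulo `p`, so its determinant is a unit; put
`x i = ∑ l, (A⁻¹) i l * x⁰ l`. -/
theorem exists_lifts {p : ℕ} [Fact p.Prime] {B C : Subgroup F} (hTF : TF p B C) {d : ℕ}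
    (n : Fin d → F) (hn : ∀ j, n j ∈ B) (χ : Fin d → F → ZMod p) (hχ : ∀ i, IsH B C (χ i))
    (hd : ∀ i j, χ i (n j) = if i = j then 1 else 0) (e : ℕ) :
    ∃ x : Fin d → F → ZMod (p ^ (e + 1)), (∀ i, IsH B C (x i)) ∧
      (∀ i j, x i (n j) = if i = j then 1 else 0) ∧
      ∀ i, ∀ b ∈ B, ZMod.castHom (dvd_pow_self p (Nat.succ_ne_zero e)) (ZMod p) (x i b) = χ i b := by
  choose x0 hx0 hxχ using fun i => e4_lift hTF (χ i) (hχ i) e
  let c : ZMod (p ^ (e + 1)) →+* ZMod p :=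
    ZMod.castHom (dvd_pow_self p (Nat.succ_ne_zero e)) (ZMod p)
  let A : Matrix (Fin d) (Fin d) (ZMod (p ^ (e + 1))) := Matrix.of fun i j => x0 i (n j)
  have hA : c.mapMatrix A = 1 := by
    ext i j
    rw [RingHom.mapMatrix_apply, Matrix.map_apply, Matrix.one_apply]
    show c (x0 i (n j)) = _
    rw [← hd i j]
    exact hxχ i (n j) (hn j)
  have hdet : IsUnit A.det := by
    apply e4_isUnit
    show c A.det = 1
    rw [RingHom.map_det, hA, Matrix.det_one]
  have hinv : A⁻¹ * A = 1 := Matrix.nonsing_inv_mul A hdet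
  have hcinv : c.mapMatrix A⁻¹ = 1 := by
    have h1 : c.mapMatrix A⁻¹ * c.mapMatrix A = 1 := by
      rw [← map_mul, hinv, map_one]
    rwa [hA, mul_one] at h1
  obtain ⟨N, hN, hNx⟩ := e4_open (B := B) x0 fun i => (hx0 i).2.2
  refine ⟨fun i u => ∑ l, A⁻¹ i l * x0 l u, fun i => ⟨?_, ?_, ?_⟩, ?_, ?_⟩
  · intro b hb b' hb'
    show ∑ l, A⁻¹ i l * x0 l (b * b') = ∑ l, A⁻¹ i l * x0 l b + ∑ l, A⁻¹ i l * x0 l b'
    rw [← Finset.sum_add_distrib]
    refine Finset.sum_congr rfl fun l _ => ?_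
    rw [(hx0 l).1 b hb b' hb', mul_add]
  · intro b hb
    refine Finset.sum_eq_zero fun l _ => ?_
    rw [(hx0 l).2.1 b hb, mul_zero]
  · refine ⟨N, hN, fun b hb hbN => ?_⟩
    refine Finset.sum_eq_zero fun l _ => ?_
    rw [hNx l b hb hbN, mul_zero]
  · intro i j
    have h1 : (A⁻¹ * A) i j = if i = j then 1 else 0 := by
      rw [hinv, Matrix.one_apply]
    rw [Matrix.mul_apply] at h1
    exact h1
  · intro i b hb
    show c (∑ l, A⁻¹ i l * x0 l b) = χ i b
    rw [map_sum]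
    have h2 : ∀ l, c (A⁻¹ i l * x0 l b) = if i = l then χ l b else 0 := by
      intro l
      rw [map_mul]
      have h3 : c (A⁻¹ i l) = (1 : Matrix (Fin d) (Fin d) (ZMod p)) i l := by
        rw [← hcinv]
        rfl
      have h4 : c (x0 l b) = χ l b := hxχ l b hb
      rw [h3, h4, Matrix.one_apply, ite_mul, one_mul, zero_mul]
    rw [Finset.sum_congr rfl fun l _ => h2 l, Finset.sum_ite_eq]
    simp

end Pool.Agent.Helper64.FS
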