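import Pool.Agent.Helper64.FS.Defs

set_option autoImplicit false

namespace Pool.Agent.Helper64.FS

universe u v

/-- `choose k` modulo `p` has period `p ^ e` for `k < p ^ e`: compare coefficients in
`(1 + X) ^ (n + p ^ e) = (1 + X) ^ n * (1 + X ^ (p ^ e))` in characteristic `p`. -/
theorem choose_add_pow (p : ℕ) [Fact p.Prime] {e k : ℕ} (hk : k < p ^ e) (n : ℕ) :
    (((n + p ^ e).choose k : ℕ) : ZMod p) = ((n.choose k : ℕ) : ZMod p) := by
  have hp : p.Prime := Fact.out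
  rw [Nat.add_choose_eq, Nat.cast_sum, Finset.sum_eq_single (k, 0)]
  · simp
  · rintro ⟨i, j⟩ hij hne
    rw [Finset.HasAntidiagonal.mem_antidiagonal] at hij
    simp only at hij
    have hj : j ≠ 0 := by
      rintro rfl
      apply hne
      rw [← hij, Nat.add_zero]
    have hj2 : j ≠ p ^ e := by omega
    have h1 : p ∣ (p ^ e).choose j := hp.dvd_choose_pow hj hj2
    have h2 : (((p ^ e).choose j : ℕ) : ZMod p) = 0 := (ZMod.natCast_eq_zero_iff _ _).2 h1
    simp only [Nat.cast_mul, h2, mul_zero]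
  · intro h
    exact absurd (Finset.HasAntidiagonal.mem_antidiagonal.2 (Nat.add_zero k)) h

theorem choose_mod_pow (p : ℕ) [Fact p.Prime] {e k : ℕ} (hk : k < p ^ e) (n : ℕ) :
    (((n % p ^ e).choose k : ℕ) : ZMod p) = ((n.choose k : ℕ) : ZMod p) := by
  have h : ∀ m q : ℕ, (((m + p ^ e * q).choose k : ℕ) : ZMod p) = ((m.choose k : ℕ) : ZMod p) := by
    intro m q
    induction q with
    | zero => rw [Nat.mul_zero, Nat.add_zero]
    | succ q ih =>
      rw [Nat.mul_succ, ← Nat.add_assoc, choose_add_pow p hk, ih]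
  have h1 := h (n % p ^ e) (n / p ^ e)
  rw [Nat.mod_add_div] at h1
  exact h1.symm

/-- Vandermonde (`Nat.add_choose_eq`). -/
theorem bin_add (p : ℕ) [Fact p.Prime] {e k : ℕ} (hk : k < p ^ e) (x y : ZMod (p ^ e)) :
    bin p k (x + y) = ∑ ij ∈ Finset.HasAntidiagonal.antidiagonal k, bin p ij.1 x * bin p ij.2 y := by
  have hp : p.Prime := Fact.out
  have hne : NeZero (p ^ e) := ⟨pow_ne_zero _ hp.ne_zero⟩
  unfold bin
  rw [ZMod.val_add, choose_mod_pow p hk, Nat.add_choose_eq, Nat.cast_sum]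
  simp only [Nat.cast_mul]

theorem bin_zero_left (p : ℕ) {e : ℕ} (x : ZMod (p ^ e)) : bin p 0 x = 1 := by
  simp [bin]

theorem bin_one_left (p : ℕ) [Fact p.Prime] {e : ℕ} (x : ZMod (p ^ (e + 1))) :
    bin p 1 x = ZMod.castHom (dvd_pow_self p (Nat.succ_ne_zero e)) (ZMod p) x := by
  have hp : p.Prime := Fact.out
  have hne : NeZero (p ^ (e + 1)) := ⟨pow_ne_zero _ hp.ne_zero⟩
  unfold bin
  rw [Nat.choose_one_right, ZMod.castHom_apply, ZMod.natCast_val]

theorem bin_zero_right (p : ℕ) [Fact p.Prime] {e k : ℕ} (hk : k ≠ 0) :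
    bin p k (0 : ZMod (p ^ e)) = 0 := by
  unfold bin
  rw [ZMod.val_zero, Nat.choose_eq_zero_of_lt (Nat.pos_of_ne_zero hk), Nat.cast_zero]

theorem bin_add_one (p : ℕ) [Fact p.Prime] {e k : ℕ} (hk : k + 1 < p ^ (e + 1))
    (x : ZMod (p ^ (e + 1))) : bin p (k + 1) (x + 1) = bin p (k + 1) x + bin p k x := by
  have hp : p.Prime := Fact.out
  have hne : NeZero (p ^ (e + 1)) := ⟨pow_ne_zero _ hp.ne_zero⟩
  have hlt : Fact (1 < p ^ (e + 1)) := ⟨by omega⟩
  unfold bin
  rw [ZMod.val_add, ZMod.val_one, choose_mod_pow p hk, Nat.choose_succ_succ, Nat.cast_add,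
    add_comm]

end Pool.Agent.Helper64.FS
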