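import Pool.Agent.Helper64.FS.Defs
import Pool.Agent.Helper64.FS.E0
import Pool.Agent.Helper64.FS.E5

set_option autoImplicit false

namespace Pool.Agent.Helper64.FS

universe u v

variable {F : Type u} [Group F] [TopologicalSpace F]

variable {p : ℕ} [Fact p.Prime] {B C : Subgroup F} {d e : ℕ}
  {x θ : Fin d → F → ZMod (p ^ (e + 1))}

private theorem e6_ON_fin {ι A : Type*} (s : Finset ι) (θ : ι → F → A)
    (hθN : ∀ i, ∃ N : Subgroup F, ON N ∧ ∀ u, ∀ n ∈ N, θ i (u * n) = θ i u) :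
    ∃ N : Subgroup F, ON N ∧ ∀ i ∈ s, ∀ u, ∀ n ∈ N, θ i (u * n) = θ i u := by
  classical
  induction s using Finset.induction_on with
  | empty => exact ⟨⊤, ON_top, fun i hi => absurd hi (Finset.notMem_empty i)⟩
  | insert a s _ ih =>
    obtain ⟨N, hN, hN'⟩ := ih
    obtain ⟨M, hM, hM'⟩ := hθN a
    refine ⟨N ⊓ M, hN.inf hM, fun i hi u n hn => ?_⟩
    rcases Finset.mem_insert.mp hi with rfl | hi
    · exact hM' u n hn.2
    · exact hN' i hi u n hn.1

omit [Group F] [TopologicalSpace F] in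
private theorem e6_BrF_apply {A : ℕ} (θ : Fin d → F → ZMod (p ^ A)) (K : Fin d → ℕ)
    (h : F → ZMod p) (u : F) : BrF p θ K h u = h u * ∏ i, bin p (K i) (θ i u) := rfl

theorem V_BrF (hCB : C ≤ B) (hx : ∀ i, IsH B C (x i))
    (hθ : ∀ i u, ∀ b ∈ B, θ i (u * b) = θ i u + x i b)
    (hθN : ∀ i, ∃ N : Subgroup F, ON N ∧ ∀ u, ∀ n ∈ N, θ i (u * n) = θ i u)
    (K : Fin d → ℕ) {h : F → ZMod p} (hh : h ∈ V p B) : BrF p θ K h ∈ V p C := by
  obtain ⟨N, hN, hN'⟩ := e6_ON_fin Finset.univ θ hθN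
  obtain ⟨⟨M, hM, hM'⟩, hB⟩ := mem_V.mp hh
  refine mem_V.mpr ⟨⟨N ⊓ M, hN.inf hM, fun u n hn => ?_⟩, fun u c hc => ?_⟩
  · rw [e6_BrF_apply, e6_BrF_apply, hM' u n hn.2]
    congr 1
    exact Finset.prod_congr rfl fun i _ => by rw [hN' i (Finset.mem_univ i) u n hn.1]
  · rw [e6_BrF_apply, e6_BrF_apply, hB u c (hCB hc)]
    congr 1
    exact Finset.prod_congr rfl fun i _ => by rw [hθ i u c (hCB hc), (hx i).2.1 c hc, add_zero]

/-- Vandermonde in every coordinate (`bin_add`) and `Finset.prod_univ_sum`. -/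
theorem rho_BrF (hθ : ∀ i u, ∀ b ∈ B, θ i (u * b) = θ i u + x i b)
    (K : Fin d → ℕ) (hK : ∀ i, K i < p ^ (e + 1)) {h : F → ZMod p} (hh : h ∈ V p B) {b : F}
    (hb : b ∈ B) :
    rho p b (BrF p θ K h) =
      ∑ c ∈ Fintype.piFinset (fun i => Finset.HasAntidiagonal.antidiagonal (K i)),
        (∏ i, bin p (c i).2 (x i b)) • BrF p θ (fun i => (c i).1) h := by
  have hB := (mem_V.mp hh).2
  funext u
  rw [rho_apply, e6_BrF_apply, Finset.sum_apply, hB u b hb]
  have h1 : ∀ i ∈ (Finset.univ : Finset (Fin d)), bin p (K i) (θ i (u * b)) =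
      ∑ ij ∈ Finset.HasAntidiagonal.antidiagonal (K i), bin p ij.1 (θ i u) * bin p ij.2 (x i b) := by
    intro i _
    rw [hθ i u b hb, bin_add p (hK i)]
  rw [Finset.prod_congr rfl h1, Finset.prod_univ_sum, Finset.mul_sum]
  refine Finset.sum_congr rfl fun c _ => ?_
  rw [Pi.smul_apply, e6_BrF_apply, smul_eq_mul, Finset.prod_mul_distrib]
  ring

private theorem e6_mem_pi {K : Fin d → ℕ} {c : Fin d → ℕ × ℕ} :
    c ∈ Fintype.piFinset (fun i => Finset.HasAntidiagonal.antidiagonal (K i)) ↔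
      ∀ i, (c i).1 + (c i).2 = K i := by
  rw [Fintype.mem_piFinset]
  exact forall_congr' fun i => Finset.HasAntidiagonal.mem_antidiagonal

private theorem e6_Df_sum (hθ : ∀ i u, ∀ b ∈ B, θ i (u * b) = θ i u + x i b)
    (K : Fin d → ℕ) (hK : ∀ i, K i < p ^ (e + 1)) {h : F → ZMod p} (hh : h ∈ V p B) {b : F}
    (hb : b ∈ B) :
    Df p b (BrF p θ K h) =
      ∑ c ∈ (Fintype.piFinset
        (fun i => Finset.HasAntidiagonal.antidiagonal (K i))).erase (fun i => (K i, 0)),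
        (∏ i, bin p (c i).2 (x i b)) • BrF p θ (fun i => (c i).1) h := by
  have h0 : (fun i => (K i, 0) : Fin d → ℕ × ℕ) ∈
      Fintype.piFinset (fun i => Finset.HasAntidiagonal.antidiagonal (K i)) :=
    e6_mem_pi.mpr fun i => add_zero _
  have h1 := rho_BrF hθ K hK hh hb
  rw [← Finset.add_sum_erase _ _ h0] at h1
  have h2 : (∏ i, bin p ((fun i => (K i, 0) : Fin d → ℕ × ℕ) i).2 (x i b)) •
      BrF p θ (fun i => ((fun i => (K i, 0) : Fin d → ℕ × ℕ) i).1) h = BrF p θ K h := by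
    have : (∏ i, bin p ((fun i => (K i, 0) : Fin d → ℕ × ℕ) i).2 (x i b)) = 1 :=
      Finset.prod_eq_one fun i _ => bin_zero_left p _
    rw [this, one_smul]
  rw [h2] at h1
  have h3 : Df p b (BrF p θ K h) = rho p b (BrF p θ K h) - BrF p θ K h := rfl
  rw [h3, h1]
  exact add_sub_cancel_left _ _

private theorem e6_sum_split {K : Fin d → ℕ} {c : Fin d → ℕ × ℕ}
    (hc : c ∈ (Fintype.piFinset
        (fun i => Finset.HasAntidiagonal.antidiagonal (K i))).erase (fun i => (K i, 0))) :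
    ∑ i, (c i).1 + ∑ i, (c i).2 = ∑ i, K i ∧ ∑ i, (c i).2 ≠ 0 := by
  have hc2 := e6_mem_pi.mp (Finset.mem_of_mem_erase hc)
  refine ⟨?_, fun h0 => Finset.ne_of_mem_erase hc ?_⟩
  · rw [← Finset.sum_add_distrib]
    exact Finset.sum_congr rfl fun i _ => hc2 i
  · have h1 : ∀ i, (c i).2 = 0 := fun i => Finset.sum_eq_zero_iff.mp h0 i (Finset.mem_univ i)
    funext i
    have := hc2 i
    rw [h1 i, add_zero] at this
    exact Prod.ext this (h1 i)

private theorem e6_le (K : Fin d → ℕ) (i : Fin d) : K i ≤ ∑ i, K i :=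
  Finset.single_le_sum (f := K) (fun _ _ => Nat.zero_le _) (Finset.mem_univ i)

/-- Induction on `∑ i, K i`: in `rho_BrF` the term `c = (K, 0)` is `BrF K h`, all others have smaller degree. -/
theorem lam_BrF (hCB : C ≤ B) (hx : ∀ i, IsH B C (x i))
    (hθ : ∀ i u, ∀ b ∈ B, θ i (u * b) = θ i u + x i b)
    (hθN : ∀ i, ∃ N : Subgroup F, ON N ∧ ∀ u, ∀ n ∈ N, θ i (u * n) = θ i u)
    (K : Fin d → ℕ) (hK : ∑ i, K i < p ^ (e + 1)) {h : F → ZMod p} (hh : h ∈ V p B) :
    BrF p θ K h ∈ Lam p B C (∑ i, K i + 1) := by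
  obtain ⟨m, hm⟩ : ∃ m, ∑ i, K i = m := ⟨_, rfl⟩
  induction m using Nat.strong_induction_on generalizing K with
  | _ m ih =>
    rw [lam_succ]
    refine ⟨V_BrF hCB hx hθ hθN K hh, fun b hb => ?_⟩
    rw [e6_Df_sum hθ K (fun i => (e6_le K i).trans_lt hK) hh hb]
    refine Submodule.sum_mem _ fun c hc => Submodule.smul_mem _ _ ?_
    obtain ⟨h1, h2⟩ := e6_sum_split hc
    have h3 := ih (∑ i, (c i).1) (by omega) (fun i => (c i).1) (by omega) rfl
    exact lam_mono (by omega) h3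

/-- `bin_add_one` in the coordinate `j`, all other coordinates do not change. -/
theorem Df_BrF (hθ : ∀ i u, ∀ b ∈ B, θ i (u * b) = θ i u + x i b) {n : Fin d → F}
    (hn : ∀ j, n j ∈ B) (hxn : ∀ i j, x i (n j) = if i = j then 1 else 0)
    (K : Fin d → ℕ) (hK : ∀ i, K i < p ^ (e + 1)) {h : F → ZMod p} (hh : h ∈ V p B) (j : Fin d) :
    Df p (n j) (BrF p θ K h) =
      if K j = 0 then 0 else BrF p θ (Function.update K j (K j - 1)) h := by
  have hB := (mem_V.mp hh).2
  have key : ∀ u, Df p (n j) (BrF p θ K h) u =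
      h u * ((bin p (K j) (θ j u + 1) - bin p (K j) (θ j u)) *
        ∏ i ∈ Finset.univ.erase j, bin p (K i) (θ i u)) := by
    intro u
    rw [Df_apply, e6_BrF_apply, e6_BrF_apply, hB u (n j) (hn j),
      ← Finset.mul_prod_erase _ _ (Finset.mem_univ j),
      ← Finset.mul_prod_erase Finset.univ (fun i => bin p (K i) (θ i u)) (Finset.mem_univ j)]
    have h1 : bin p (K j) (θ j (u * n j)) = bin p (K j) (θ j u + 1) := by
      rw [hθ j u (n j) (hn j), hxn j j, if_pos rfl]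
    have h2 : ∏ i ∈ Finset.univ.erase j, bin p (K i) (θ i (u * n j)) =
        ∏ i ∈ Finset.univ.erase j, bin p (K i) (θ i u) := by
      refine Finset.prod_congr rfl fun i hi => ?_
      rw [hθ i u (n j) (hn j), hxn i j, if_neg (Finset.ne_of_mem_erase hi), add_zero]
    rw [h1, h2]
    ring
  by_cases hj : K j = 0
  · rw [if_pos hj]
    funext u
    rw [key u, hj, bin_zero_left, bin_zero_left, sub_self, zero_mul, mul_zero]
    rfl
  · rw [if_neg hj]
    obtain ⟨k, hk⟩ := Nat.exists_eq_succ_of_ne_zero hj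
    funext u
    have hk' : k + 1 < p ^ (e + 1) := by
      have := hK j
      omega
    rw [key u, e6_BrF_apply, ← Finset.mul_prod_erase Finset.univ
      (fun i => bin p (Function.update K j (K j - 1) i) (θ i u)) (Finset.mem_univ j)]
    have h1 : bin p (K j) (θ j u + 1) - bin p (K j) (θ j u) =
        bin p (Function.update K j (K j - 1) j) (θ j u) := by
      rw [Function.update_self, hk, Nat.succ_eq_add_one, bin_add_one p hk', add_sub_cancel_left,
        Nat.add_sub_cancel]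
    have h2 : ∏ i ∈ Finset.univ.erase j, bin p (K i) (θ i u) =
        ∏ i ∈ Finset.univ.erase j, bin p (Function.update K j (K j - 1) i) (θ i u) := by
      refine Finset.prod_congr rfl fun i hi => ?_
      rw [Function.update_of_ne (Finset.ne_of_mem_erase hi)]
    rw [h1, h2]

/-- In `rho_BrF` all terms with `∑ i, (c i).2 = 1` vanish by `bin_one_left`. -/
theorem lam_BrF_W (hCB : C ≤ B) (hx : ∀ i, IsH B C (x i))
    (hθ : ∀ i u, ∀ b ∈ B, θ i (u * b) = θ i u + x i b)
    (hθN : ∀ i, ∃ N : Subgroup F, ON N ∧ ∀ u, ∀ n ∈ N, θ i (u * n) = θ i u)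
    (K : Fin d → ℕ) (hK : ∑ i, K i < p ^ (e + 1)) {h : F → ZMod p} (hh : h ∈ V p B) {b : F}
    (hb : b ∈ B)
    (hb' : ∀ i, ZMod.castHom (dvd_pow_self p (Nat.succ_ne_zero e)) (ZMod p) (x i b) = 0) :
    Df p b (BrF p θ K h) ∈ Lam p B C (∑ i, K i - 1) := by
  rw [e6_Df_sum hθ K (fun i => (e6_le K i).trans_lt hK) hh hb]
  refine Submodule.sum_mem _ fun c hc => ?_
  obtain ⟨h1, h2⟩ := e6_sum_split hc
  by_cases h3 : ∑ i, (c i).2 = 1
  · have h4 : ∃ i, (c i).2 = 1 := by
      by_contra hne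
      push Not at hne
      have h5 : ∀ i, (c i).2 = 0 := by
        intro i
        have h6 : (c i).2 ≤ ∑ i, (c i).2 := e6_le (fun i => (c i).2) i
        have h7 := hne i
        omega
      exact h2 (Finset.sum_eq_zero fun i _ => h5 i)
    obtain ⟨i, hi⟩ := h4
    have h5 : ∏ i, bin p (c i).2 (x i b) = 0 := by
      refine Finset.prod_eq_zero (Finset.mem_univ i) ?_
      rw [hi, bin_one_left]
      exact hb' i
    rw [h5, zero_smul]
    exact Submodule.zero_mem _
  · refine Submodule.smul_mem _ _ ?_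
    have h4 := lam_BrF hCB hx hθ hθN (fun i => (c i).1) (by omega) hh
    exact lam_mono (by omega) h4

end Pool.Agent.Helper64.FS
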