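import Pool.Agent.Helper64.FS.Defs
import Pool.Agent.Helper64.FS.A1
import Pool.Agent.Helper64.FS.B3
import Pool.Agent.Helper64.FS.E0
import Pool.Agent.Helper64.FS.E3
import Pool.Agent.Helper64.FS.E4
import Pool.Agent.Helper64.FS.E5
import Pool.Agent.Helper64.FS.E6

set_option autoImplicit false

namespace Pool.Agent.Helper64.FS

universe u v

variable {F : Type u} [Group F] [TopologicalSpace F] [IsTopologicalGroup F] [CompactSpace F]
  [T2Space F] [TotallyDisconnectedSpace F]

/-- Combine `exists_flag_group`, `exists_lifts` with `e = m` (`m < p ^ (m + 1)`), `exists_theta`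
and `Br = BrF p θ`. The last statement: for `k ≥ 1` the subgroup of `lam_subgroup` (`j = k - 1`) contains
`B ∩ M`, `C` (differences vanish) and the `b ^ p` (`lam_pow`), for `k = 0` all differences are `0`. -/
theorem exists_data {p : ℕ} [Fact p.Prime] (hp : PIndex p F) (B C : Subgroup F) [B.Normal]
    [C.Normal] (hCB : C ≤ B) (hcomm : ∀ b ∈ B, ∀ b' ∈ B, b * b' * b⁻¹ * b'⁻¹ ∈ C)
    (hTF : TF p B C) {M : Subgroup F} (hM : ON M) (m : ℕ) :
    ∃ (d : ℕ) (n : Fin d → F) (χ : Fin d → F → ZMod p)
      (Br : (Fin d → ℕ) → ((F → ZMod p) →ₗ[ZMod p] (F → ZMod p))), Data p B C m d n χ Br ∧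
      ∀ k, ∀ f ∈ Lam p B C (k + 1), (∀ u, ∀ v ∈ M, f (u * v) = f u) → LamW p B C χ k f := by
  obtain ⟨d, n, χ, hnB, hχ, hdual, hflag, hdiag, hstab, hgen⟩ :=
    exists_flag_group hp B C hCB hcomm hM
  obtain ⟨x, hx, hxn, hxχ⟩ := exists_lifts hTF n hnB χ hχ hdual m
  choose θ hθ hθN using fun i => exists_theta B C (x i) (hx i)
  have hm : ∀ K : Fin d → ℕ, ∑ i, K i ≤ m → ∑ i, K i < p ^ (m + 1) := by
    intro K hK
    have h1 : m + 1 < p ^ (m + 1) := Nat.lt_pow_self (Fact.out : p.Prime).one_lt
    omega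
  have hm' : ∀ K : Fin d → ℕ, ∑ i, K i ≤ m → ∀ i, K i < p ^ (m + 1) := by
    intro K hK i
    exact lt_of_le_of_lt (Finset.single_le_sum (fun _ _ => Nat.zero_le _) (Finset.mem_univ i)) (hm K hK)
  refine ⟨d, n, χ, BrF p θ, ?_, ?_⟩
  · refine
      { nB := hnB
        hom := fun i => (hχ i).1
        dual := hdual
        flag := hflag
        diag := hdiag
        stab := hstab
        br0 := ?_
        mem := ?_
        brD := ?_
        brW := ?_ }
    · intro h
      funext u
      simp [BrF, bin_zero_left]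
    · intro K hK h hh
      exact lam_BrF hCB hx hθ hθN K (hm K hK) hh
    · intro K hK h hh j
      exact Df_BrF hθ hnB hxn K (hm' K hK) hh j
    · intro K hK h hh b hb hb'
      exact lam_BrF_W hCB hx hθ hθN K (hm K hK) hh hb (fun i => by rw [hxχ i b hb]; exact hb' i)
  · intro k f hf hfM
    refine ⟨hf, fun b hb hb' => ?_⟩
    rcases Nat.eq_zero_or_pos k with rfl | hk
    · exact lam_Df hf hb
    · have hk' : k + 1 = k - 1 + 2 := by omega
      rw [hk'] at hf
      obtain ⟨S, hS⟩ := lam_subgroup hf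
      have h1 : b ∈ S := by
        have h2 := hgen b hb hb'
        have h3 : Subgroup.closure ({b | b ∈ B ∧ b ∈ M} ∪ (C : Set F) ∪ {c | ∃ b ∈ B, c = b ^ p}) ≤ S := by
          rw [Subgroup.closure_le]
          rintro c ((⟨hcB, hcM⟩ | hc) | ⟨b', hb'B, rfl⟩)
          · refine (hS c).mpr ⟨hcB, ?_⟩
            have h4 : Df p c f = 0 := by
              funext u
              simp [hfM u c hcM]
            rw [h4]
            exact Submodule.zero_mem _
          · refine (hS c).mpr ⟨hCB hc, ?_⟩
            have h4 : Df p c f = 0 := by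
              funext u
              have h5 := (lam_le_V _ hf).2 u c hc
              simp [h5]
            rw [h4]
            exact Submodule.zero_mem _
          · exact (hS _).mpr ⟨B.pow_mem hb'B p, lam_pow hf hb'B⟩
        exact h3 h2
      exact ((hS b).mp h1).2

end Pool.Agent.Helper64.FS
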