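import Pool.Agent.Helper64.FS.Defs
import Pool.Agent.Helper64.FS.A1
import Pool.Agent.Helper64.FS.E0
import Pool.Agent.Helper64.FS.E2
import Pool.Agent.Helper64.FS.E7
import Pool.Agent.Helper64.FS.E14

set_option autoImplicit false

namespace Pool.Agent.Helper64.FS

universe u v

variable {F : Type u} [Group F] [TopologicalSpace F] [IsTopologicalGroup F] [CompactSpace F]
  [T2Space F] [TotallyDisconnectedSpace F]

/-- Theorem E2. `T ≠ 0` on `V p C`, so by `lam_union` there is a smallest `κ` with `T f₁ ≠ 0` for some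
`f₁ ∈ Lam (κ + 1)`; `T = 0` on `Lam κ`. Show by induction on `j` that every `f ∈ Lam j` is `T f'`, `f' ∈ V p C`:
for `j = m + 1` take `M` open normal with `f`, `f₁` right `M`-invariant, `exists_data` (for `m + κ`) and
`E_main`. -/
theorem good_of_TF {p : ℕ} [Fact p.Prime] (hp : PIndex p F) (B C : Subgroup F) [B.Normal]
    [C.Normal] (hCB : C ≤ B) (hcomm : ∀ b ∈ B, ∀ b' ∈ B, b * b' * b⁻¹ * b'⁻¹ ∈ C)
    (hTF : TF p B C) (hB : Good p B) : Good p C := by
  intro T hTV hT hne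
  classical
  have hex : ∃ κ, ∃ f ∈ Lam p B C (κ + 1), T f ≠ 0 := by
    obtain ⟨f, hf, hTf⟩ := hne
    obtain ⟨j, hj⟩ := lam_union hp B C hf
    exact ⟨j, f, lam_mono (Nat.le_succ j) hj, hTf⟩
  obtain ⟨f₁, hf₁, hTf₁⟩ := Nat.find_spec hex
  have hmin : ∀ f ∈ Lam p B C (Nat.find hex), T f = 0 := by
    intro f hf
    by_contra hTf
    rcases Nat.eq_zero_or_pos (Nat.find hex) with h0 | h0
    · rw [h0, lam_zero] at hf
      apply hTf
      rw [hf, map_zero]
    · have h1 : Nat.find hex - 1 + 1 = Nat.find hex := by omega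
      have h2 : Nat.find hex - 1 < Nat.find hex := by omega
      exact Nat.find_min hex h2 ⟨f, by rw [h1]; exact hf, hTf⟩
  set κ := Nat.find hex with hκ
  have key : ∀ j, ∀ f ∈ Lam p B C j, ∃ f' ∈ V p C, T f' = f := by
    intro j
    induction j with
    | zero =>
      intro f hf
      rw [lam_zero] at hf
      exact ⟨0, Submodule.zero_mem _, by rw [hf, map_zero]⟩
    | succ m ih =>
      intro f hf
      obtain ⟨⟨N, hN, hfN⟩, -⟩ := lam_le_V _ hf
      obtain ⟨⟨N₁, hN₁, hfN₁⟩, -⟩ := lam_le_V _ hf₁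
      obtain ⟨d, n, χ, Br, hD, hW⟩ := exists_data hp B C hCB hcomm hTF (hN.inf hN₁) (m + κ)
      obtain ⟨f', hf', hTf'⟩ := E_main hCB hcomm hB hD hTV hT hmin
        ⟨f₁, hW κ f₁ hf₁ (fun u v hv => hfN₁ u v hv.2), hTf₁⟩
        (hW m f hf (fun u v hv => hfN u v hv.1))
      obtain ⟨f'', hf'', hTf''⟩ := ih _ hTf'
      refine ⟨f' - f'', Submodule.sub_mem _ (lam_le_V _ hf') hf'', ?_⟩
      rw [map_sub, hTf'']
      abel
  intro f hf
  obtain ⟨j, hj⟩ := lam_union hp B C hf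
  exact key j f hj

end Pool.Agent.Helper64.FS
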