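import Pool.Agent.Helper64.FS.Defs
import Pool.Agent.Helper64.FS.A1
import Pool.Agent.Helper64.FS.A2
import Pool.Agent.Helper64.FS.A4
import Pool.Agent.Helper64.FS.B9
import Pool.Agent.Helper64.FS.C3
import Pool.Agent.Helper64.FS.C4
import Pool.Agent.Helper64.FS.D1
import Pool.Agent.Helper64.FS.E15

set_option autoImplicit false

namespace Pool.Agent.Helper64.FS

universe u v

variable {F : Type u} [Group F] [TopologicalSpace F] [IsTopologicalGroup F] [CompactSpace F]
  [T2Space F] [TotallyDisconnectedSpace F]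

/-- Take `B` of `exists_minimal_good`. `B ≠ ⊥` (otherwise `r = 1`, `ncl r = ⊥`). `cder B ≠ B` (`cder_ne`) is Good
(`good_of_TF`, `TF_cder`), so `r ∉ cder B` by minimality. Take `s`, `j` of `exists_root`. `C = (ncl s ⊔ cder B).closure` is
Good (`TF_sup`), contains `r`, so `C = B`, and `ncl s = B` by `eq_of_le_closure`. If `ncl t ≠ ncl s` for all
`t ∈ clS ι {x}ᶜ`, then `freiheit_of_good` for `s` gives `clS ι {x}ᶜ ⊓ ncl s = ⊥`, and `ncl r ≤ ncl s`. -/
theorem main {p : ℕ} [Fact p.Prime] {X : Type v} {ι : X → F} (hF : IsFree p ι) (r : F) (x : X)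
    (h : clS ι {x}ᶜ ⊓ ncl r ≠ ⊥) :
    ∃ t ∈ clS ι {x}ᶜ, ∃ (s : F) (j : ℕ), ncl s = ncl t ∧ r * (s ^ p ^ j)⁻¹ ∈ cder (ncl t) ∧
      Good p (ncl t) := by
  have hp := hF.pindex
  obtain ⟨B, hBn, hBc, hrB, hgB, hmin⟩ := exists_minimal_good (F := F) p r
  have hncl : ncl r ≤ B := ncl_le hBn hBc hrB
  have hBbot : B ≠ ⊥ := by
    rintro rfl
    apply h
    rw [le_bot_iff.mp hncl, inf_bot_eq]
  have hcn : (cder B).Normal := cder_normal B
  have hcB : cder B ≤ B := cder_le_self hBc
  have hgc : Good p (cder B) :=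
    good_of_TF hp B (cder B) hcB (fun b hb b' hb' => comm_mem_cder hb hb') (TF_cder hF B hBc) hgB
  have hrc : r ∉ cder B := fun hr =>
    cder_ne hp hBn hBbot (hmin (cder B) hcn (cder_closed B) hr hgc hcB)
  obtain ⟨s, hsB, j, hsf, hrs⟩ := exists_root hp B hBc hrB hrc
  have hsn : (ncl s).Normal := ncl_normal s
  have hsupn : (ncl s ⊔ cder B).Normal := inferInstance
  have hCn : ((ncl s ⊔ cder B).topologicalClosure).Normal :=
    Subgroup.is_normal_topologicalClosure _
  have hsle : ncl s ≤ B := ncl_le hBn hBc hsB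
  have hCB : (ncl s ⊔ cder B).topologicalClosure ≤ B :=
    Subgroup.topologicalClosure_minimal _ (sup_le hsle hcB) hBc
  have hC1 : ncl s ⊔ cder B ≤ (ncl s ⊔ cder B).topologicalClosure :=
    Subgroup.le_topologicalClosure _
  have hgC : Good p (ncl s ⊔ cder B).topologicalClosure :=
    good_of_TF hp B _ hCB (fun b hb b' hb' => hC1 (Subgroup.mem_sup_right (comm_mem_cder hb hb')))
      (TF_sup hF B hBc hgB hsB hsf) hgB
  have hrC : r ∈ (ncl s ⊔ cder B).topologicalClosure := by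
    have h1 : r = (r * (s ^ p ^ j)⁻¹) * s ^ p ^ j := by group
    rw [h1]
    exact Subgroup.mul_mem _ (hC1 (Subgroup.mem_sup_right hrs))
      (hC1 (Subgroup.mem_sup_left (Subgroup.pow_mem _ (mem_ncl s) _)))
  have hCeq := hmin _ hCn (Subgroup.isClosed_topologicalClosure _) hrC hgC hCB
  have hsB' : ncl s = B := by
    apply eq_of_le_closure hp hsn hBn (ncl_closed s) hsle
    rw [hCeq]
  by_contra hcon
  push Not at hcon
  have hno : ∀ t ∈ clS ι {x}ᶜ, ncl t ≠ ncl s := by
    intro t ht hts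
    have hg : Good p (ncl t) := by rw [hts, hsB']; exact hgB
    have h2 : r * (s ^ p ^ j)⁻¹ ∈ cder (ncl t) := by rw [hts, hsB']; exact hrs
    exact hcon t ht s j hts.symm h2 hg
  have hgs : Good p (ncl s) := by rw [hsB']; exact hgB
  have h3 := freiheit_of_good hF s x hgs hno
  apply h
  rw [← le_bot_iff, ← h3]
  exact inf_le_inf_left _ (by rw [hsB']; exact hncl)

end Pool.Agent.Helper64.FS
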