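import Pool.Agent.Helper64.FS.Defs
import Pool.Agent.Helper64.FS.D2
import Pool.Agent.Helper64.FS.D3
import Pool.Agent.Helper64.FS.D4

set_option autoImplicit false

namespace Pool.Agent.Helper64.FS

universe u v

variable {F : Type u} [Group F] [TopologicalSpace F] [IsTopologicalGroup F] [CompactSpace F]
  [T2Space F] [TotallyDisconnectedSpace F]

theorem final {p : ℕ} [Fact p.Prime] {X : Type v} (ι : X → F) (hF : IsFree p ι) (r : F) :
    (∀ x : X, clS ι {x}ᶜ ⊓ ncl r = ⊥ ∨ ∃ t ∈ clS ι {x}ᶜ, ∃ (s : F) (j : ℕ),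
      ncl s = ncl t ∧ r * (s ^ p ^ j)⁻¹ ∈ cder (ncl t) ∧ NoZD p (ncl t)) ∧
    (∀ X' : Set X, Minimal (fun Y : Set X => ∃ s ∈ clS ι Y, ncl s = ncl r) X' → ∀ x ∈ X',
      clS ι {x}ᶜ ⊓ ncl r = ⊥ ∨
        ((∃ t ∈ clS ι {x}ᶜ, ∃ (s : F) (j : ℕ), 1 ≤ j ∧ ncl s = ncl t ∧
          r * (s ^ p ^ j)⁻¹ ∈ cder (ncl t) ∧ NoZD p (ncl t)) ∧ ¬ NoZD p (ncl r))) := by
  have hp := hF.pindex
  refine ⟨fun x => ?_, fun X' hX' x hx => ?_⟩
  · by_cases h : clS ι {x}ᶜ ⊓ ncl r = ⊥
    · exact Or.inl h
    · obtain ⟨t, ht, s, j, h1, h2, h3⟩ := main hF r x h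
      have := ncl_normal t
      exact Or.inr ⟨t, ht, s, j, h1, h2, nozd_of_good (ncl t) h3⟩
  · by_cases h : clS ι {x}ᶜ ⊓ ncl r = ⊥
    · exact Or.inl h
    · have hno := no_assoc hF hX' hx
      obtain ⟨t, ht, s, j, h1, h2, h3⟩ := main hF r x h
      have := ncl_normal t
      have := ncl_normal r
      refine Or.inr ⟨⟨t, ht, s, j, ?_, h1, h2, nozd_of_good (ncl t) h3⟩, fun hnz => ?_⟩
      · by_contra hj
        have hj0 : j = 0 := by omega
        subst hj0
        rw [pow_zero, pow_one] at h2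
        apply hno t ht
        have hcl : cder (ncl t) ≤ ncl t := cder_le_self (ncl_closed t)
        have hst : s ∈ ncl t := by rw [← h1]; exact mem_ncl s
        have hr1 : r = (r * s⁻¹) * s := by group
        have hrt : r ∈ ncl t := by
          rw [hr1]
          exact Subgroup.mul_mem _ (hcl h2) hst
        have hrle : ncl r ≤ ncl t := ncl_le (ncl_normal t) (ncl_closed t) hrt
        symm
        apply eq_of_le_closure hp (ncl_normal r) (ncl_normal t) (ncl_closed r) hrle
        have h4 : ncl r ⊔ cder (ncl t) ≤ (ncl r ⊔ cder (ncl t)).topologicalClosure :=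
          Subgroup.le_topologicalClosure _
        have h5 : s ∈ (ncl r ⊔ cder (ncl t)).topologicalClosure := by
          have h6 : s = (r * s⁻¹)⁻¹ * r := by group
          rw [h6]
          exact Subgroup.mul_mem _ (Subgroup.inv_mem _ (h4 (Subgroup.mem_sup_right h2)))
            (h4 (Subgroup.mem_sup_left (mem_ncl r)))
        have h7 : (cder (ncl t)).Normal := cder_normal _
        have h8 : (ncl r ⊔ cder (ncl t)).Normal := inferInstance
        have h9 : ncl s ≤ (ncl r ⊔ cder (ncl t)).topologicalClosure :=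
          ncl_le (Subgroup.is_normal_topologicalClosure _) (Subgroup.isClosed_topologicalClosure _) h5
        rw [h1] at h9
        exact h9
      · exact h (freiheit_of_good hF r x (good_of_nozd (ncl r) hnz) hno)

end Pool.Agent.Helper64.FS
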