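import Mathlib

/-!
# Project FS (pro-p Freiheitssatz, MP_0beb95_al): definitions
-/

set_option autoImplicit false

namespace Pool.Agent.Helper64.FS

universe u v

/-- Open normal subgroups. -/
def ON {F : Type u} [Group F] [TopologicalSpace F] (N : Subgroup F) : Prop :=
  N.Normal ∧ IsOpen (N : Set F)

/-- The index of every open normal subgroup is a power of `p`. -/
def PIndex (p : ℕ) (F : Type u) [Group F] [TopologicalSpace F] : Prop :=
  ∀ N : Subgroup F, ON N → ∃ n : ℕ, N.index = p ^ n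

section

variable {F : Type u} [Group F] [TopologicalSpace F] [IsTopologicalGroup F]

/-- The closed normal subgroup generated by `r`. -/
def ncl (r : F) : Subgroup F := (Subgroup.normalClosure {r}).topologicalClosure

/-- The closed subgroup generated by the elements `ι y`, `y ∈ Y`. -/
def clS {X : Type v} (ι : X → F) (Y : Set X) : Subgroup F :=
  (Subgroup.closure (ι '' Y)).topologicalClosure

/-- The closed commutator subgroup of `T`. -/
def cder (T : Subgroup F) : Subgroup F := (⁅T, T⁆ : Subgroup F).topologicalClosure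

/-- The family `ι : X → F` is a basis of the free pro-`p` group `F` (the topological conditions
`CompactSpace`, `T2Space`, `TotallyDisconnectedSpace` are separate instance assumptions): every open
normal subgroup has index a power of `p`, the family converges to `1`, it generates `F`
topologically, and every map `f` from `X` to a finite `p`-group `P` which converges to `1` extends
to a continuous homomorphism `F → P`. -/
structure IsFree (p : ℕ) {X : Type v} (ι : X → F) : Prop where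
  pindex : PIndex p F
  conv : ∀ N : Subgroup F, ON N → {x | ι x ∉ N}.Finite
  gen : (Subgroup.closure (Set.range ι)).topologicalClosure = ⊤
  univ : ∀ (P : Type) [Group P] [Finite P], IsPGroup p P → ∀ f : X → P, {x | f x ≠ 1}.Finite →
    ∃ φ : F →* P, IsOpen (φ.ker : Set F) ∧ ∀ x, φ (ι x) = f x

/-- The closed subgroup generated by the `p`-th powers and the commutators of `B`. -/
def frat (p : ℕ) (B : Subgroup F) : Subgroup F :=
  (Subgroup.closure ({c | ∃ b ∈ B, c = b ^ p} ∪ {c | ∃ b ∈ B, ∃ b' ∈ B, c = b * b' * b⁻¹ * b'⁻¹})).topologicalClosure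

/-- The closed subgroup generated by the `p`-th powers of `B` and the `[b, g]`, `b ∈ B`, `g ∈ F`. -/
def fratF (p : ℕ) (B : Subgroup F) : Subgroup F :=
  (Subgroup.closure ({c | ∃ b ∈ B, c = b ^ p} ∪ {c | ∃ b ∈ B, ∃ g : F, c = b * g * b⁻¹ * g⁻¹})).topologicalClosure

end

section

variable {F : Type u} [Group F] [TopologicalSpace F]

/-- `f` is uniformly locally constant and right invariant under `B`. -/
def LCf (B : Subgroup F) {P : Type} (f : F → P) : Prop :=
  (∃ N : Subgroup F, ON N ∧ ∀ u, ∀ n ∈ N, f (u * n) = f u) ∧ ∀ u, ∀ b ∈ B, f (u * b) = f u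

theorem ON.inf {N M : Subgroup F} (hN : ON N) (hM : ON M) : ON (N ⊓ M) := by
  have := hN.1
  have := hM.1
  exact ⟨inferInstance, hN.2.inter hM.2⟩

theorem ON_top : ON (⊤ : Subgroup F) := ⟨inferInstance, isOpen_univ⟩

/-- The space of locally constant functions `F → 𝔽_p`, right invariant under `C`. -/
def V (p : ℕ) (C : Subgroup F) : Submodule (ZMod p) (F → ZMod p) where
  carrier := {f | LCf C f}
  zero_mem' := ⟨⟨⊤, ON_top, fun _ _ _ => rfl⟩, fun _ _ _ => rfl⟩
  add_mem' := by
    rintro f g ⟨⟨N, hN, hf⟩, hf'⟩ ⟨⟨M, hM, hg⟩, hg'⟩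
    refine ⟨⟨N ⊓ M, hN.inf hM, fun u n hn => ?_⟩, fun u b hb => ?_⟩
    · simp only [Pi.add_apply]
      rw [hf u n hn.1, hg u n hn.2]
    · simp only [Pi.add_apply]
      rw [hf' u b hb, hg' u b hb]
  smul_mem' := by
    rintro c f ⟨⟨N, hN, hf⟩, hf'⟩
    refine ⟨⟨N, hN, fun u n hn => ?_⟩, fun u b hb => ?_⟩
    · simp only [Pi.smul_apply]
      rw [hf u n hn]
    · simp only [Pi.smul_apply]
      rw [hf' u b hb]

theorem mem_V {p : ℕ} {C : Subgroup F} {f : F → ZMod p} : f ∈ V p C ↔ LCf C f := Iff.rfl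

/-- A crossed homomorphism `G : F → (F → P)` relative to `B`: `G (g g') (a) = G g a * G g' (g⁻¹ a)`,
all functions `G g` are right invariant under `B`, and `G` is continuous. -/
structure IsX (B : Subgroup F) {P : Type} [Group P] (G : F → F → P) : Prop where
  mul : ∀ g g' a, G (g * g') a = G g a * G g' (g⁻¹ * a)
  inv : ∀ g a, ∀ b ∈ B, G g (a * b) = G g a
  cont : ∃ N : Subgroup F, ON N ∧ (∀ g a, ∀ n ∈ N, G g (a * n) = G g a) ∧ ∀ n ∈ N, ∀ a, G n a = 1

/-- The function `x`, restricted to `B`, is a continuous homomorphism which kills `C`. -/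
def IsH (B C : Subgroup F) {A : Type} [AddCommGroup A] (x : F → A) : Prop :=
  (∀ b ∈ B, ∀ b' ∈ B, x (b * b') = x b + x b') ∧ (∀ c ∈ C, x c = 0) ∧
    ∃ N : Subgroup F, ON N ∧ ∀ b ∈ B, b ∈ N → x b = 0

/-- Continuous homomorphisms `B → ℤ/p^e` which kill `C` lift to `ℤ/p^(e+1)`. -/
def TF (p : ℕ) (B C : Subgroup F) : Prop :=
  ∀ (e : ℕ) (x : F → ZMod (p ^ e)), IsH B C x → ∃ x' : F → ZMod (p ^ (e + 1)), IsH B C x' ∧
    ∀ b ∈ B, ZMod.castHom (pow_dvd_pow p (Nat.le_succ e)) (ZMod (p ^ e)) (x' b) = x b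

end

section

variable {F : Type u} [Group F]

/-- Right translation. -/
def rho (p : ℕ) (g : F) : (F → ZMod p) →ₗ[ZMod p] (F → ZMod p) where
  toFun f := fun u => f (u * g)
  map_add' _ _ := rfl
  map_smul' _ _ := rfl

/-- The difference operator. -/
def Df (p : ℕ) (g : F) : (F → ZMod p) →ₗ[ZMod p] (F → ZMod p) := rho p g - LinearMap.id

@[simp] theorem rho_apply (p : ℕ) (g : F) (f : F → ZMod p) (u : F) : rho p g f u = f (u * g) := rfl

@[simp] theorem Df_apply (p : ℕ) (g : F) (f : F → ZMod p) (u : F) :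
    Df p g f u = f (u * g) - f u := rfl

/-- Iterated differences. -/
def Dw (p : ℕ) {d : ℕ} (n : Fin d → F) : List (Fin d) → ((F → ZMod p) →ₗ[ZMod p] (F → ZMod p))
  | [] => LinearMap.id
  | i :: l => (Df p (n i)).comp (Dw p n l)

end

section

variable {F : Type u} [Group F] [TopologicalSpace F]

/-- Equivariant nonzero endomorphisms of `V p C` are surjective. -/
def Good (p : ℕ) (C : Subgroup F) : Prop :=
  ∀ T : (F → ZMod p) →ₗ[ZMod p] (F → ZMod p), (∀ f ∈ V p C, T f ∈ V p C) →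
    (∀ g, ∀ f ∈ V p C, T (rho p g f) = rho p g (T f)) → (∃ f ∈ V p C, T f ≠ 0) →
    ∀ f ∈ V p C, ∃ f' ∈ V p C, T f' = f

/-- The filtration of `V p C` by the powers of the augmentation ideal of `B`. -/
def Lam (p : ℕ) (B C : Subgroup F) : ℕ → Submodule (ZMod p) (F → ZMod p)
  | 0 => ⊥
  | j + 1 =>
    { carrier := {f | f ∈ V p C ∧ ∀ b ∈ B, Df p b f ∈ Lam p B C j}
      zero_mem' := ⟨Submodule.zero_mem _, fun b _ => by rw [map_zero]; exact Submodule.zero_mem _⟩
      add_mem' := fun {f g} hf hg => ⟨Submodule.add_mem _ hf.1 hg.1, fun b hb => by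
        rw [map_add]; exact Submodule.add_mem _ (hf.2 b hb) (hg.2 b hb)⟩
      smul_mem' := fun c {f} hf => ⟨Submodule.smul_mem _ c hf.1, fun b hb => by
        rw [map_smul]; exact Submodule.smul_mem _ c (hf.2 b hb)⟩ }

/-- The number of occurrences of the indices in a word. -/
def cnt {d : ℕ} (l : List (Fin d)) : Fin d → ℕ := fun i => l.count i

/-- Data for the extension theorem: elements `n j` of `B`, homomorphisms `χ i` on `B`, functions
`Br K h` of degree `∑ K`. -/
structure Data (p : ℕ) (B C : Subgroup F) (m d : ℕ) (n : Fin d → F) (χ : Fin d → F → ZMod p)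
    (Br : (Fin d → ℕ) → ((F → ZMod p) →ₗ[ZMod p] (F → ZMod p))) : Prop where
  nB : ∀ j, n j ∈ B
  hom : ∀ i, ∀ b ∈ B, ∀ b' ∈ B, χ i (b * b') = χ i b + χ i b'
  dual : ∀ i j, χ i (n j) = if i = j then 1 else 0
  flag : ∀ g i j, j < i → χ i (g⁻¹ * n j * g) = 0
  diag : ∀ g j, χ j (g⁻¹ * n j * g) = 1
  stab : ∀ g, ∀ b ∈ B, (∀ i, χ i b = 0) → ∀ i, χ i (g⁻¹ * b * g) = 0
  br0 : ∀ h, Br 0 h = h
  mem : ∀ K : Fin d → ℕ, ∑ i, K i ≤ m → ∀ h ∈ V p B, Br K h ∈ Lam p B C (∑ i, K i + 1)
  brD : ∀ K : Fin d → ℕ, ∑ i, K i ≤ m → ∀ h ∈ V p B, ∀ j,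
    Df p (n j) (Br K h) = if K j = 0 then 0 else Br (Function.update K j (K j - 1)) h
  brW : ∀ K : Fin d → ℕ, ∑ i, K i ≤ m → ∀ h ∈ V p B, ∀ b ∈ B, (∀ i, χ i b = 0) →
    Df p b (Br K h) ∈ Lam p B C (∑ i, K i - 1)

/-- The word with prescribed numbers of occurrences. -/
def wd {d : ℕ} (K : Fin d → ℕ) : List (Fin d) :=
  (List.finRange d).flatMap fun i => List.replicate (K i) i

/-- `f` has degree `≤ m` and its symbol only involves the `χ i`. -/
def LamW (p : ℕ) (B C : Subgroup F) {d : ℕ} (χ : Fin d → F → ZMod p) (m : ℕ)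
    (f : F → ZMod p) : Prop :=
  f ∈ Lam p B C (m + 1) ∧ ∀ b ∈ B, (∀ i, χ i b = 0) → Df p b f ∈ Lam p B C (m - 1)

end

/-- Binomial coefficients modulo `p` on `ℤ/p^e`. -/
def bin (p : ℕ) {e : ℕ} (k : ℕ) (x : ZMod (p ^ e)) : ZMod p := ((x.val.choose k : ℕ) : ZMod p)

/-- The functions `h * ∏ (θ i choose K i)`. -/
def BrF (p : ℕ) {F : Type u} {d e : ℕ} (θ : Fin d → F → ZMod (p ^ e)) (K : Fin d → ℕ) :
    (F → ZMod p) →ₗ[ZMod p] (F → ZMod p) where
  toFun h := fun u => h u * ∏ i, bin p (K i) (θ i u)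
  map_add' h h' := by
    funext u
    simp [add_mul]
  map_smul' c h := by
    funext u
    simp [mul_assoc]

/-- The completed group algebra `𝔽_p[[F / C]]`, i.e. the dual of the space `V p C` of locally constant
functions on `F / C` with the convolution product, has no zero divisors. (Linear functionals on `V p C` are
the restrictions of linear functionals on all functions.) -/
def NoZD (p : ℕ) {F : Type u} [Group F] [TopologicalSpace F] (C : Subgroup F) : Prop :=
  ∀ μ ν : (F → ZMod p) →ₗ[ZMod p] ZMod p,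
    (∀ h ∈ V p C, μ (fun a => ν (fun b => h (a * b))) = 0) →
      (∀ h ∈ V p C, μ h = 0) ∨ (∀ h ∈ V p C, ν h = 0)

end Pool.Agent.Helper64.FS
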